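import Pool.Agent.RadCP.Defs

set_option autoImplicit false

/-! Banach spaces of analytic functions closed under products have (CP). -/

open Filter Topology Finset

namespace Pool.Agent.RadCP.Alg_

open Pool.Agent.CycP Pool.Agent.CycP.AnSpace

variable {d : ℕ} {Ω : Set (Fin d → ℂ)} {Y : Type} [NormedAddCommGroup Y] [NormedSpace ℂ Y]

/-- multiplication by an element is a bounded operator (closed graph theorem) -/
lemma exists_mulBy [CompleteSpace Y] (B : AnSpace d Ω Y)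
    (hmul : ∀ x y : Y, ∃ z : Y, ∀ w ∈ Ω, B.fn z w = B.fn x w * B.fn y w) (x : Y) :
    ∃ M : Y →L[ℂ] Y, ∀ y, ∀ w ∈ Ω, B.fn (M y) w = B.fn x w * B.fn y w := by
  choose M hM using hmul x
  let Ml : Y →ₗ[ℂ] Y :=
    { toFun := M
      map_add' := fun y z => by
        apply B.fn_ext
        intro w hw
        rw [hM _ w hw, map_add, map_add, Pi.add_apply, Pi.add_apply, hM _ w hw, hM _ w hw]
        ring
      map_smul' := fun c y => by
        apply B.fn_ext
        intro w hw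
        rw [hM _ w hw, RingHom.id_apply, map_smul, map_smul, Pi.smul_apply, Pi.smul_apply,
          hM _ w hw]
        simp
        ring }
  have hMl : ∀ y, ∀ w ∈ Ω, B.fn (Ml y) w = B.fn x w * B.fn y w := hM
  have hcont : Continuous Ml := by
    apply Ml.continuous_of_seq_closed_graph
    intro u y z hu hMu
    apply B.fn_ext
    intro w hw
    obtain ⟨L, hL, -⟩ := B.exists_eval hw
    have h1 : Tendsto (fun n => L (Ml (u n))) atTop (𝓝 (L z)) :=
      (L.continuous.tendsto z).comp hMu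
    have h2 : Tendsto (fun n => B.fn x w * L (u n)) atTop (𝓝 (B.fn x w * L y)) :=
      ((L.continuous.tendsto y).comp hu).const_mul (B.fn x w)
    have h3 : (fun n => L (Ml (u n))) = fun n => B.fn x w * L (u n) := by
      funext n
      rw [hL, hL, hMl _ w hw]
    rw [h3] at h1
    have h4 := tendsto_nhds_unique h1 h2
    rw [hMl _ w hw, ← hL z, h4, hL y]
  exact ⟨⟨Ml, hcont⟩, hMl⟩

/-- the multiplication operators depend continuously on the element -/
lemma exists_mulOp [CompleteSpace Y] (B : AnSpace d Ω Y)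
    (hmul : ∀ x y : Y, ∃ z : Y, ∀ w ∈ Ω, B.fn z w = B.fn x w * B.fn y w) :
    ∃ M : Y →L[ℂ] (Y →L[ℂ] Y), ∀ x y, ∀ w ∈ Ω, B.fn (M x y) w = B.fn x w * B.fn y w := by
  choose M hM using exists_mulBy B hmul
  let Ml : Y →ₗ[ℂ] (Y →L[ℂ] Y) :=
    { toFun := M
      map_add' := fun x z => by
        ext y
        apply B.fn_ext
        intro w hw
        rw [hM _ _ w hw, add_apply, map_add, map_add, Pi.add_apply,
          Pi.add_apply, hM _ _ w hw, hM _ _ w hw]
        ring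
      map_smul' := fun c x => by
        ext y
        apply B.fn_ext
        intro w hw
        rw [hM _ _ w hw, RingHom.id_apply, smul_apply, map_smul, map_smul,
          Pi.smul_apply, Pi.smul_apply, hM _ _ w hw]
        simp
        ring }
  have hMl : ∀ x y, ∀ w ∈ Ω, B.fn (Ml x y) w = B.fn x w * B.fn y w := hM
  have hcont : Continuous Ml := by
    apply Ml.continuous_of_seq_closed_graph
    intro u x S hu hMu
    ext y
    apply B.fn_ext
    intro w hw
    obtain ⟨L, hL, -⟩ := B.exists_eval hw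
    have h0 : Tendsto (fun n => Ml (u n) y) atTop (𝓝 (S y)) :=
      ((ContinuousLinearMap.apply ℂ Y y).continuous.tendsto S).comp hMu
    have h1 : Tendsto (fun n => L (Ml (u n) y)) atTop (𝓝 (L (S y))) :=
      (L.continuous.tendsto _).comp h0
    have h2 : Tendsto (fun n => L (u n) * B.fn y w) atTop (𝓝 (L x * B.fn y w)) :=
      ((L.continuous.tendsto x).comp hu).mul_const (B.fn y w)
    have h3 : (fun n => L (Ml (u n) y)) = fun n => L (u n) * B.fn y w := by
      funext n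
      rw [hL, hL, hMl _ _ w hw]
    rw [h3] at h1
    have h4 := tendsto_nhds_unique h1 h2
    rw [hMl _ _ w hw, ← hL, ← hL x, h4]
  exact ⟨⟨Ml, hcont⟩, hMl⟩

/-- elements near the constant function one are invertible -/
lemma exists_inv_near [CompleteSpace Y] (B : AnSpace d Ω Y)
    (hmul : ∀ x y : Y, ∃ z : Y, ∀ w ∈ Ω, B.fn z w = B.fn x w * B.fn y w) :
    ∃ δ : ℝ, 0 < δ ∧ ∀ x : Y, ‖x - B.poly 1‖ < δ →
      ∃ v : Y, ∀ w ∈ Ω, B.fn x w * B.fn v w = 1 := by
  obtain ⟨M, hM⟩ := exists_mulOp B hmul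
  refine ⟨(‖M‖ + 1)⁻¹, by positivity, fun x hx => ?_⟩
  have h1 : ‖M (B.poly 1 - x)‖ < 1 := by
    refine (M.le_opNorm _).trans_lt ?_
    rw [norm_sub_rev]
    have h2 : 0 ≤ ‖M‖ := norm_nonneg M
    have h3 : 0 ≤ ‖x - B.poly 1‖ := norm_nonneg _
    have h4 : (‖M‖ + 1) * ‖x - B.poly 1‖ < 1 := by
      rw [← lt_div_iff₀' (by positivity), one_div]
      exact hx
    nlinarith
  have h2 : (1 : Y →L[ℂ] Y) - M (B.poly 1 - x) = M x := by
    ext y
    apply B.fn_ext
    intro w hw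
    rw [hM _ _ w hw, sub_apply, map_sub, Pi.sub_apply, hM _ _ w hw, map_sub,
      Pi.sub_apply, B.fn_poly _ w hw, map_one, one_apply_eq_self]
    ring
  let U := Units.oneSub (M (B.poly 1 - x)) h1
  refine ⟨(↑U⁻¹ : Y →L[ℂ] Y) (B.poly 1), fun w hw => ?_⟩
  have h3 : (U : Y →L[ℂ] Y) = M x := by
    rw [← h2]
    rfl
  have h4 : M x ((↑U⁻¹ : Y →L[ℂ] Y) (B.poly 1)) = B.poly 1 := by
    rw [← h3, ← mul_apply_eq_comp, Units.mul_inv, one_apply_eq_self]
  rw [← hM _ _ w hw, h4, B.fn_poly _ w hw, map_one]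

/-- cyclic functions are invertible -/
lemma exists_inv_cyclic [CompleteSpace Y] (B : AnSpace d Ω Y)
    (hmul : ∀ x y : Y, ∃ z : Y, ∀ w ∈ Ω, B.fn z w = B.fn x w * B.fn y w) {ψ : Y}
    (hψ : B.Cyclic ψ) : ∃ a : Y, ∀ w ∈ Ω, B.fn ψ w * B.fn a w = 1 := by
  obtain ⟨δ, hδ, h⟩ := exists_inv_near B hmul
  have h1 : B.poly 1 ∈ closure (B.orbit ψ) := by
    rw [hψ]
    trivial
  rw [Metric.mem_closure_iff] at h1
  obtain ⟨x, ⟨P, hP⟩, hx⟩ := h1 δ hδ
  rw [dist_comm, dist_eq_norm] at hx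
  obtain ⟨v, hv⟩ := h x hx
  obtain ⟨a, ha⟩ := hmul (B.poly P) v
  refine ⟨a, fun w hw => ?_⟩
  rw [ha w hw, B.fn_poly _ w hw, ← hv w hw, hP w hw]
  ring

end Pool.Agent.RadCP.Alg_

namespace Pool.Agent.RadCP

open Pool.Agent.CycP Pool.Agent.CycP.AnSpace

/-- Banach spaces of analytic functions closed under products have (CP). -/
theorem alg : AlgStmt := by
  intro d Ω Y _ _ _ B hmul e Ω' X _ _ _ A φ ψ T hψ hT f hf
  obtain ⟨a, ha⟩ := Alg_.exists_inv_cyclic B hmul hψ
  obtain ⟨δ, hδ, hinv⟩ := Alg_.exists_inv_near B hmul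
  obtain ⟨M, hM⟩ := Alg_.exists_mulOp B hmul
  have hT1 : T (A.poly 1) = ψ := by
    apply B.fn_ext
    intro w hw
    have h4 := hT (A.poly 1) ⟨w, B.subset_maxDomain hw⟩
    simp only at h4
    obtain ⟨L, hL⟩ := (φ ⟨w, B.subset_maxDomain hw⟩).2
    rw [A.ext_eq hL, hL 1, B.ext_of_mem hw, B.ext_of_mem hw] at h4
    simpa using h4
  -- an element of the orbit of `f` whose image is invertible
  have h1 : ∃ x ∈ A.orbit f, ‖M a (T x) - B.poly 1‖ < δ := by
    have h2 : B.poly 1 = M a (T (A.poly 1)) := by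
      apply B.fn_ext
      intro w hw
      rw [hT1, hM _ _ w hw, B.fn_poly _ w hw, map_one, mul_comm, ha w hw]
    have h3 : A.poly 1 ∈ closure (A.orbit f) := by
      rw [hf]
      trivial
    have h4 : Continuous fun x => M a (T x) := (M a).continuous.comp T.continuous
    have h5 : M a (T (A.poly 1)) ∈ closure ((fun x => M a (T x)) '' A.orbit f) :=
      image_closure_subset_closure_image h4 ⟨_, h3, rfl⟩
    rw [Metric.mem_closure_iff] at h5
    obtain ⟨_, ⟨x, hx, rfl⟩, hd⟩ := h5 δ hδ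
    refine ⟨x, hx, ?_⟩
    rw [h2, ← dist_eq_norm, dist_comm]
    exact hd
  obtain ⟨x, ⟨P, hP⟩, hx⟩ := h1
  obtain ⟨v, hv⟩ := hinv _ hx
  -- `T f` is invertible
  have h2 : ∃ b : Y, ∀ w ∈ Ω, B.fn (T f) w * B.fn b w = 1 := by
    obtain ⟨b1, hb1⟩ := hmul (T (A.poly P)) a
    obtain ⟨b2, hb2⟩ := hmul b1 a
    obtain ⟨b, hb⟩ := hmul b2 v
    refine ⟨b, fun w hw => ?_⟩
    have h3 := hT x ⟨w, B.subset_maxDomain hw⟩
    have h4 := hT f ⟨w, B.subset_maxDomain hw⟩
    have h5 := hT (A.poly P) ⟨w, B.subset_maxDomain hw⟩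
    simp only at h3 h4 h5
    obtain ⟨L, hL⟩ := (φ ⟨w, B.subset_maxDomain hw⟩).2
    rw [A.ext_eq hL, hL P] at h5
    rw [B.ext_of_mem hw, B.ext_of_mem hw] at h3 h4 h5
    rw [A.ext_mul (φ ⟨w, B.subset_maxDomain hw⟩).2 hP] at h3
    have h6 := hv w hw
    rw [hM _ _ w hw, h3] at h6
    have h7 := ha w hw
    rw [hb w hw, hb2 w hw, hb1 w hw, h5, h4]
    linear_combination h6 + B.fn a w * B.fn v w * B.fn ψ w *
      MvPolynomial.eval (φ ⟨w, B.subset_maxDomain hw⟩ : Fin e → ℂ) P *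
        A.ext f (φ ⟨w, B.subset_maxDomain hw⟩) * h7
  obtain ⟨b, hb⟩ := h2
  -- the constant function one is cyclic
  have h3 : B.Cyclic (B.poly 1) := by
    have h1 : Set.range B.poly ⊆ B.orbit (B.poly 1) := by
      rintro _ ⟨P, rfl⟩
      refine ⟨P, fun w hw => ?_⟩
      rw [B.fn_poly _ w hw, B.fn_poly _ w hw, map_one, mul_one]
    have h2 : closure (Set.range B.poly) ⊆ closure (B.orbit (B.poly 1)) := closure_mono h1
    exact Set.univ_subset_iff.1 ((B.poly_dense.closure_range).symm.subset.trans h2)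
  apply B.cyclic_of_mem_closure h3
  have h4 : B.poly 1 = M (T f) b := by
    apply B.fn_ext
    intro w hw
    rw [hM _ _ w hw, B.fn_poly _ w hw, map_one, hb w hw]
  rw [h4]
  have h5 : b ∈ closure (Set.range B.poly) := B.poly_dense b
  have h6 : M (T f) b ∈ closure (M (T f) '' Set.range B.poly) :=
    image_closure_subset_closure_image (M (T f)).continuous ⟨_, h5, rfl⟩
  have h7 : M (T f) '' Set.range B.poly ⊆ B.orbit (T f) := by
    rintro _ ⟨_, ⟨Q, rfl⟩, rfl⟩
    exact ⟨Q, fun w hw => by rw [hM _ _ w hw, B.fn_poly _ w hw, mul_comm]⟩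
  exact closure_mono h7 h6

end Pool.Agent.RadCP
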