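import Pool.Agent.RadCP.Defs

set_option autoImplicit false

/-! Radial weights: the causal operators of bounded analytic functions. -/

open Filter Topology Finset

namespace Pool.Agent.RadCP

open Pool.Agent.CycP Pool.Agent.CycP.AnSpace Finset

namespace Caus_

variable {d : ℕ} {Ω : Set (Fin d → ℂ)} {H : Type} [NormedAddCommGroup H] [InnerProductSpace ℂ H]

/-- the components of a sum of homogeneous polynomials of different degrees -/
lemma comp_sum {A : AnSpace d Ω H} (hG : A.Graded) {P : ℕ → MvPolynomial (Fin d) ℂ}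
    (hP : ∀ j, (P j).IsHomogeneous j) (M l : ℕ) :
    A.comp l (A.poly (∑ j ∈ range M, P j)) = A.poly (if l < M then P l else 0) := by
  rw [hG.comp_poly]
  congr 1
  rw [map_sum]
  have h1 : ∀ j, MvPolynomial.homogeneousComponent l (P j) = if j = l then P l else 0 := by
    intro j
    rw [MvPolynomial.homogeneousComponent_of_mem ((MvPolynomial.mem_homogeneousSubmodule _ _).2
      (hP j))]
    by_cases h : l = j
    · rw [if_pos h, if_pos h.symm, h]
    · rw [if_neg h, if_neg (fun h' => h h'.symm)]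
  simp only [h1]
  rw [Finset.sum_ite_eq']
  simp only [Finset.mem_range]

/-- the constant polynomial is the zero vector -/
lemma poly_zero (A : AnSpace d Ω H) : A.poly 0 = 0 := by
  rw [← A.polyL_apply, map_zero]

end Caus_

/-- the causal operators of bounded analytic functions -/
theorem caus (h1 : CompStmt) (h2 : ProdStmt) : CausalStmt := by
  intro d Ω hΩ H _ _ _ A hG hH h hh K hK
  obtain ⟨C, hC⟩ := hH
  obtain ⟨hsum, hbes, -⟩ := h1 d Ω H _ _ inferInstance A hG
  have hmul := hC h hh K hK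
  obtain ⟨y0, hy0, -⟩ := hmul (A.poly 1)
  choose c hc hc' using fun l => A.comp_mem l y0
  have hexp : HomExp Ω h c := by
    refine ⟨hc, fun w hw => ?_⟩
    obtain ⟨L, hL, hL'⟩ := A.exists_eval hw
    have e1 := (hsum y0).mapL L
    have e2 : ∀ n, L (A.comp n y0) = MvPolynomial.eval w (c n) := by
      intro n
      rw [← hc' n, hL']
    have e3 : L y0 = h w := by
      rw [hL, hy0 w hw, A.fn_poly _ w hw, map_one, mul_one]
    simp only [e2, e3] at e1
    exact e1
  refine ⟨c, |C * K|, abs_nonneg _, hexp, fun P hP M => ?_⟩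
  set Q : MvPolynomial (Fin d) ℂ := ∑ j ∈ range M, P j with hQ
  obtain ⟨y, hy, hyn⟩ := hmul (A.poly Q)
  have hPt : ∀ j, (if j < M then P j else 0 : MvPolynomial (Fin d) ℂ).IsHomogeneous j := by
    intro j
    split_ifs
    · exact hP j
    · exact MvPolynomial.isHomogeneous_zero _ _ _
  have hcompQ : ∀ j, A.comp j (A.poly Q) = A.poly (if j < M then P j else 0) := fun j =>
    Caus_.comp_sum hG hP M j
  have hcomp := h2 d Ω hΩ H _ _ inferInstance A hG h c (fun j => if j < M then P j else 0)
    (A.poly Q) y hexp hy hPt (fun j => (hcompQ j).symm)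
  have e1 : ∀ n < M, A.polyL (∑ j ∈ range (n + 1), c (n - j) * P j) = A.comp n y := by
    intro n hn
    rw [hcomp n, A.polyL_apply]
    congr 1
    refine Finset.sum_congr rfl fun j hj => ?_
    rw [Finset.mem_range] at hj
    rw [if_pos (show j < M by omega)]
  have e2 : ∑ n ∈ range M, ‖A.polyL (∑ j ∈ range (n + 1), c (n - j) * P j)‖ ^ 2 ≤ ‖y‖ ^ 2 := by
    have f1 : ∑ n ∈ range M, ‖A.polyL (∑ j ∈ range (n + 1), c (n - j) * P j)‖ ^ 2 =
        ∑ n ∈ range M, ‖A.comp n y‖ ^ 2 :=
      Finset.sum_congr rfl fun n hn => by rw [e1 n (Finset.mem_range.1 hn)]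
    rw [f1]
    exact sum_le_hasSum _ (fun n _ => by positivity) (hbes y)
  have e3 : ‖A.poly Q‖ ^ 2 = ∑ j ∈ range M, ‖A.polyL (P j)‖ ^ 2 := by
    have f1 := hbes (A.poly Q)
    have f2 : HasSum (fun n => ‖A.comp n (A.poly Q)‖ ^ 2)
        (∑ j ∈ range M, ‖A.comp j (A.poly Q)‖ ^ 2) := by
      refine hasSum_sum_of_ne_finset_zero fun n hn => ?_
      rw [Finset.mem_range] at hn
      rw [hcompQ n, if_neg hn, Caus_.poly_zero]
      simp
    rw [f1.unique f2]
    refine Finset.sum_congr rfl fun j hj => ?_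
    rw [Finset.mem_range] at hj
    rw [hcompQ j, if_pos hj, A.polyL_apply]
  refine e2.trans ?_
  rw [← e3, ← mul_pow]
  refine pow_le_pow_left₀ (norm_nonneg _) (hyn.trans ?_) 2
  exact mul_le_mul_of_nonneg_right (le_abs_self _) (norm_nonneg _)

end Pool.Agent.RadCP
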