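import Pool.Agent.RadCP.Defs

set_option autoImplicit false

/-! Expansion into homogeneous components. -/

open Filter Topology Finset

namespace Pool.Agent.RadCP

open Pool.Agent.CycP Pool.Agent.CycP.AnSpace

namespace Comp_

variable {d : ℕ} {Ω : Set (Fin d → ℂ)} {Y : Type} [NormedAddCommGroup Y] [InnerProductSpace ℂ Y]

lemma comp_hom {B : AnSpace d Ω Y} (hG : B.Graded) {n i : ℕ} {x : Y} (hx : x ∈ B.hom i) :
    B.comp n x = if n = i then x else 0 := by
  obtain ⟨P, hP, rfl⟩ := mem_hom.1 hx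
  rw [hG.comp_poly, MvPolynomial.homogeneousComponent_of_mem hP]
  split_ifs with h
  · rfl
  · rw [← B.polyL_apply, map_zero]

lemma comp_sum {B : AnSpace d Ω Y} (hG : B.Graded) {v : ℕ → Y} (hv : ∀ n, v n ∈ B.hom n) {y : Y}
    (h : HasSum v y) (n : ℕ) : B.comp n y = v n := by
  have h1 : HasSum (fun i => B.comp n (v i)) (B.comp n y) := (B.comp n).hasSum h
  have h2 : HasSum (fun i => B.comp n (v i)) (B.comp n (v n)) := by
    refine hasSum_single n fun i hi => ?_
    rw [comp_hom hG (hv i), if_neg (Ne.symm hi)]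
  rw [h1.unique h2, comp_hom hG (hv n), if_pos rfl]

lemma orth {B : AnSpace d Ω Y} (hG : B.Graded) :
    OrthogonalFamily ℂ (fun n => B.hom n) fun n => (B.hom n).subtypeₗᵢ := by
  intro i j hij v w
  obtain ⟨P, hP, hP'⟩ := mem_hom.1 v.2
  obtain ⟨Q, hQ, hQ'⟩ := mem_hom.1 w.2
  change inner ℂ (v : Y) (w : Y) = 0
  rw [← hP', ← hQ']
  exact hG i j P Q hP hQ hij

lemma total (B : AnSpace d Ω Y) : ⊤ ≤ (⨆ n, B.hom n).topologicalClosure := by
  intro y _
  have h1 : Set.range B.poly ⊆ ((⨆ n, B.hom n : Submodule ℂ Y) : Set Y) := by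
    rintro _ ⟨P, rfl⟩
    rw [← B.poly_sum_comp P (J := P.totalDegree + 1) (by omega)]
    refine Submodule.sum_mem _ fun j _ => ?_
    refine Submodule.mem_iSup_of_mem j ?_
    exact mem_hom.2 ⟨_, MvPolynomial.homogeneousComponent_isHomogeneous j P, rfl⟩
  exact closure_mono h1 (B.poly_dense y)

lemma hilb {B : AnSpace d Ω Y} (hG : B.Graded) [CompleteSpace Y] :
    IsHilbertSum ℂ (fun n => B.hom n) fun n => (B.hom n).subtypeₗᵢ :=
  IsHilbertSum.mkInternal _ (orth hG) (total B)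

lemma comp_eq {B : AnSpace d Ω Y} (hG : B.Graded) [CompleteSpace Y]
    (w : lp (fun n => B.hom n) 2) (n : ℕ) :
    B.comp n ((hilb hG).linearIsometryEquiv.symm w) = (w n : Y) :=
  comp_sum hG (fun n => (w n).2) ((hilb hG).hasSum_linearIsometryEquiv_symm w) n

end Comp_

open Comp_ in
theorem comp_stmt : CompStmt := by
  intro d Ω Y _ _ _ B hG
  have hrep : ∀ y : Y, ∃ w : lp (fun n => B.hom n) 2,
      (hilb hG).linearIsometryEquiv.symm w = y := fun y =>
    ⟨(hilb hG).linearIsometryEquiv y, by simp⟩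
  refine ⟨fun y => ?_, fun y => ?_, fun v hv hs => ?_⟩
  · obtain ⟨w, rfl⟩ := hrep y
    have h := (hilb hG).hasSum_linearIsometryEquiv_symm w
    simp only [comp_eq hG]
    exact h
  · obtain ⟨w, rfl⟩ := hrep y
    have h := lp.hasSum_norm (p := 2) (by norm_num) w
    simp only [comp_eq hG, LinearIsometryEquiv.norm_map]
    simpa using h
  · have hm : Memℓp (fun n => (⟨v n, hv n⟩ : B.hom n)) 2 := by
      refine memℓp_gen ?_
      simpa using hs
    refine ⟨(hilb hG).linearIsometryEquiv.symm ⟨_, hm⟩, fun n => ?_⟩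
    rw [comp_eq hG]

end Pool.Agent.RadCP
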