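import Pool.Agent.RadCP.Defs

set_option autoImplicit false

/-! Block CORE of the project RadCP: the core inequality. -/

open Filter Topology Finset

namespace Pool.Agent.RadCP

open Pool.Agent.CycP Pool.Agent.CycP.AnSpace Finset

namespace Core_

theorem trap_nonneg (N k : ℕ) : 0 ≤ trap N k :=
  le_min zero_le_one (le_max_left _ _)

theorem trap_le_one (N k : ℕ) : trap N k ≤ 1 := min_le_left _ _

theorem trap_eq_zero {N k : ℕ} (hN : 1 ≤ N) (hk : 2 * N ≤ k) : trap N k = 0 := by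
  unfold trap
  have hN' : (0 : ℝ) < N := by exact_mod_cast hN
  have hk' : (2 : ℝ) * N ≤ k := by exact_mod_cast hk
  have h : 2 - (k : ℝ) / N ≤ 0 := by
    have : (2 : ℝ) ≤ k / N := by
      rw [le_div_iff₀ hN']
      exact hk'
    linarith
  rw [max_eq_left h]
  exact min_eq_right zero_le_one

theorem trap_eq {N k : ℕ} (hN : 1 ≤ N) :
    trap N k = 2 * max 0 (1 - (k : ℝ) / ((2 * N : ℕ) : ℝ)) - max 0 (1 - (k : ℝ) / N) := by
  unfold trap
  have hN' : (0 : ℝ) < N := by exact_mod_cast hN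
  have e : (k : ℝ) / ((2 * N : ℕ) : ℝ) = ((k : ℝ) / N) / 2 := by
    push_cast
    field_simp
  rw [e]
  set x : ℝ := (k : ℝ) / N with hx
  rcases le_total x 1 with h1 | h1
  · rw [max_eq_right (by linarith : (0 : ℝ) ≤ 2 - x),
      max_eq_right (by linarith : (0 : ℝ) ≤ 1 - x / 2),
      max_eq_right (by linarith : (0 : ℝ) ≤ 1 - x), min_eq_left (by linarith)]
    ring
  · rcases le_total x 2 with h2 | h2
    · rw [max_eq_right (by linarith : (0 : ℝ) ≤ 2 - x),
        max_eq_right (by linarith : (0 : ℝ) ≤ 1 - x / 2),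
        max_eq_left (by linarith : 1 - x ≤ (0 : ℝ)), min_eq_right (by linarith)]
      ring
    · rw [max_eq_left (by linarith : 2 - x ≤ (0 : ℝ)),
        max_eq_left (by linarith : 1 - x / 2 ≤ (0 : ℝ)),
        max_eq_left (by linarith : 1 - x ≤ (0 : ℝ)), min_eq_right zero_le_one]
      ring

section

variable {V : Type} [NormedAddCommGroup V] [NormedSpace ℝ V]

omit [NormedSpace ℝ V] in
theorem norm4 (a b c d : V) :
    ‖a - b + c + d‖ ^ 2 ≤ 4 * (‖a‖ ^ 2 + ‖b‖ ^ 2 + ‖c‖ ^ 2 + ‖d‖ ^ 2) := by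
  have h : ‖a - b + c + d‖ ≤ ‖a‖ + ‖b‖ + ‖c‖ + ‖d‖ := by
    refine (norm_add_le _ _).trans ?_
    refine add_le_add ((norm_add_le _ _).trans ?_) le_rfl
    exact add_le_add (norm_sub_le _ _) le_rfl
  have h0 : 0 ≤ ‖a - b + c + d‖ := norm_nonneg _
  have h2 : ‖a - b + c + d‖ ^ 2 ≤ (‖a‖ + ‖b‖ + ‖c‖ + ‖d‖) ^ 2 := pow_le_pow_left₀ h0 h 2
  nlinarith [sq_nonneg (‖a‖ - ‖b‖), sq_nonneg (‖a‖ - ‖c‖), sq_nonneg (‖a‖ - ‖d‖),
    sq_nonneg (‖b‖ - ‖c‖), sq_nonneg (‖b‖ - ‖d‖), sq_nonneg (‖c‖ - ‖d‖)]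

theorem norm2 (a b : V) : ‖(2 : ℝ) • a - b‖ ^ 2 ≤ 6 * ‖a‖ ^ 2 + 3 * ‖b‖ ^ 2 := by
  have h : ‖(2 : ℝ) • a - b‖ ≤ 2 * ‖a‖ + ‖b‖ := by
    refine (norm_sub_le _ _).trans ?_
    rw [norm_smul]
    simp
  have h0 : 0 ≤ ‖(2 : ℝ) • a - b‖ := norm_nonneg _
  have h2 : ‖(2 : ℝ) • a - b‖ ^ 2 ≤ (2 * ‖a‖ + ‖b‖) ^ 2 := pow_le_pow_left₀ h0 h 2
  nlinarith [sq_nonneg (‖a‖ - ‖b‖)]

theorem decomp (p : ℕ → ℕ → V) {N : ℕ} (hN : 1 ≤ N) (n : ℕ) :
    ∑ j ∈ range (n + 1), trap N (n - j) • p (n - j) j =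
      trap N n • (∑ j ∈ range (n + 1), p (n - j) j) -
      trap N n • (∑ j ∈ range (n + 1), (if N ≤ j then (1 : ℝ) else 0) • p (n - j) j) +
      (∑ j ∈ range (n + 1), (if j < N then trap N (n - j) - trap N n else 0) • p (n - j) j) +
      ((2 : ℝ) • (∑ j ∈ range (n + 1),
        (if N ≤ j then max 0 (1 - ((n - j : ℕ) : ℝ) / ((2 * N : ℕ) : ℝ)) else 0) • p (n - j) j) -
      (∑ j ∈ range (n + 1),
        (if N ≤ j then max 0 (1 - ((n - j : ℕ) : ℝ) / N) else 0) • p (n - j) j)) := by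
  rw [smul_sum, smul_sum, smul_sum, ← sum_sub_distrib, ← sum_add_distrib, ← sum_sub_distrib,
    ← sum_add_distrib]
  refine sum_congr rfl fun j _ => ?_
  rw [smul_smul, smul_smul, ← sub_smul, ← add_smul, ← sub_smul, ← add_smul]
  congr 1
  by_cases h : N ≤ j
  · rw [if_pos h, if_neg (by omega : ¬ j < N), if_pos h, if_pos h, trap_eq (k := n - j) hN]
    ring
  · rw [if_neg h, if_pos (by omega : j < N), if_neg h, if_neg h]
    ring

end

end Core_

open Core_

theorem core (h1 : WinStmt) (h2 : FejStmt) (h3 : ErrStmt) : CoreStmt := by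
  intro V _ _ p G β R K κ hS C N hC hG Ax Bg hAx hBg M
  have hN : 1 ≤ N := hG.1
  set D : ℝ := (K * 3 ^ κ) ^ 2 * R ^ 2 with hD
  have hD0 : 0 ≤ D := by rw [hD]; positivity
  have hnn : ∀ n, 0 ≤ β n ^ 2 * G n ^ 2 := fun n => by positivity
  -- first term
  have t1 : ∑ n ∈ range M, β n ^ 2 * ‖trap N n • ∑ j ∈ range (n + 1), p (n - j) j‖ ^ 2 ≤
      Ax := by
    refine le_trans (sum_le_sum fun n _ => ?_) (hAx M)
    rw [norm_smul, mul_pow, Real.norm_of_nonneg (trap_nonneg N n)]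
    have hs : trap N n ^ 2 ≤ 1 := pow_le_one₀ (trap_nonneg N n) (trap_le_one N n)
    calc β n ^ 2 * (trap N n ^ 2 * ‖∑ j ∈ range (n + 1), p (n - j) j‖ ^ 2)
        ≤ β n ^ 2 * (1 * ‖∑ j ∈ range (n + 1), p (n - j) j‖ ^ 2) := by gcongr
      _ = _ := by rw [one_mul]
  -- second term
  have t2 : ∑ n ∈ range M, β n ^ 2 * ‖trap N n • ∑ j ∈ range (n + 1),
      (if N ≤ j then (1 : ℝ) else 0) • p (n - j) j‖ ^ 2 ≤ D * Bg := by
    have hw := h1 V _ _ p G β R K κ hS N (2 * N) (fun j => if N ≤ j then (1 : ℝ) else 0) hN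
      (by omega) (fun j hj => if_neg (by omega))
    have hz : ∀ n, n ∉ Ico N (2 * N) → β n ^ 2 * ‖trap N n • ∑ j ∈ range (n + 1),
        (if N ≤ j then (1 : ℝ) else 0) • p (n - j) j‖ ^ 2 = 0 := by
      intro n hn
      rw [mem_Ico] at hn
      by_cases hn2 : 2 * N ≤ n
      · rw [trap_eq_zero hN hn2]
        simp
      · have hn1 : n < N := by omega
        have : ∑ j ∈ range (n + 1), (if N ≤ j then (1 : ℝ) else 0) • p (n - j) j = 0 := by
          refine sum_eq_zero fun j hj => ?_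
          rw [mem_range] at hj
          rw [if_neg (by omega), zero_smul]
        rw [this]
        simp
    calc ∑ n ∈ range M, β n ^ 2 * ‖trap N n • ∑ j ∈ range (n + 1),
          (if N ≤ j then (1 : ℝ) else 0) • p (n - j) j‖ ^ 2
        = ∑ n ∈ (range M).filter (fun n => n ∈ Ico N (2 * N)), β n ^ 2 *
          ‖trap N n • ∑ j ∈ range (n + 1),
          (if N ≤ j then (1 : ℝ) else 0) • p (n - j) j‖ ^ 2 := by
          rw [sum_filter]
          refine sum_congr rfl fun n _ => ?_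
          by_cases hn : n ∈ Ico N (2 * N)
          · rw [if_pos hn]
          · rw [if_neg hn, hz n hn]
      _ ≤ ∑ n ∈ Ico N (2 * N), β n ^ 2 * ‖trap N n • ∑ j ∈ range (n + 1),
          (if N ≤ j then (1 : ℝ) else 0) • p (n - j) j‖ ^ 2 := by
          refine sum_le_sum_of_subset_of_nonneg ?_ fun n _ _ => by positivity
          intro n hn
          exact (mem_filter.mp hn).2
      _ ≤ ∑ n ∈ Ico N (2 * N), β n ^ 2 * ‖∑ j ∈ range (n + 1),
          (if N ≤ j then (1 : ℝ) else 0) • p (n - j) j‖ ^ 2 := by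
          refine sum_le_sum fun n _ => ?_
          rw [norm_smul, mul_pow, Real.norm_of_nonneg (trap_nonneg N n)]
          have hs : trap N n ^ 2 ≤ 1 := pow_le_one₀ (trap_nonneg N n) (trap_le_one N n)
          calc β n ^ 2 * (trap N n ^ 2 * ‖∑ j ∈ range (n + 1),
                (if N ≤ j then (1 : ℝ) else 0) • p (n - j) j‖ ^ 2)
              ≤ β n ^ 2 * (1 * ‖∑ j ∈ range (n + 1),
                (if N ≤ j then (1 : ℝ) else 0) • p (n - j) j‖ ^ 2) := by gcongr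
            _ = _ := by rw [one_mul]
      _ ≤ D * ∑ j ∈ Ico N (2 * N), β j ^ 2 * ((if N ≤ j then (1 : ℝ) else 0) ^ 2 * G j ^ 2) :=
          hw
      _ ≤ D * ∑ j ∈ range (2 * N), β j ^ 2 * G j ^ 2 := by
          refine mul_le_mul_of_nonneg_left ?_ hD0
          calc ∑ j ∈ Ico N (2 * N), β j ^ 2 * ((if N ≤ j then (1 : ℝ) else 0) ^ 2 * G j ^ 2)
              = ∑ j ∈ Ico N (2 * N), β j ^ 2 * G j ^ 2 := by
                refine sum_congr rfl fun j hj => ?_
                rw [mem_Ico] at hj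
                rw [if_pos hj.1]
                ring
            _ ≤ _ := by
                refine sum_le_sum_of_subset_of_nonneg ?_ fun n _ _ => hnn n
                intro j hj
                rw [mem_Ico] at hj
                exact mem_range.mpr hj.2
      _ ≤ D * Bg := mul_le_mul_of_nonneg_left (hBg _) hD0
  -- third term
  have t3 : ∑ n ∈ range M, β n ^ 2 * ‖∑ j ∈ range (n + 1),
      (if j < N then trap N (n - j) - trap N n else 0) • p (n - j) j‖ ^ 2 ≤ D * C * Bg := by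
    refine (h3 V _ _ p G β R K κ hS C N M hC hG).trans ?_
    exact mul_le_mul_of_nonneg_left (hBg N) (mul_nonneg hD0 hC)
  -- fourth term
  have t4a := (h2 V _ _ p G β R K κ hS N (2 * N) M hN (by omega) le_rfl).trans
    (mul_le_mul_of_nonneg_left (hBg M) hD0)
  have t4b := (h2 V _ _ p G β R K κ hS N N M hN hN (by omega)).trans
    (mul_le_mul_of_nonneg_left (hBg M) hD0)
  have t4 : ∑ n ∈ range M, β n ^ 2 * ‖(2 : ℝ) • (∑ j ∈ range (n + 1),
        (if N ≤ j then max 0 (1 - ((n - j : ℕ) : ℝ) / ((2 * N : ℕ) : ℝ)) else 0) • p (n - j) j) -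
      (∑ j ∈ range (n + 1),
        (if N ≤ j then max 0 (1 - ((n - j : ℕ) : ℝ) / N) else 0) • p (n - j) j)‖ ^ 2 ≤
      9 * (D * Bg) := by
    calc _ ≤ ∑ n ∈ range M, (6 * (β n ^ 2 * ‖∑ j ∈ range (n + 1),
        (if N ≤ j then max 0 (1 - ((n - j : ℕ) : ℝ) / ((2 * N : ℕ) : ℝ)) else 0) •
          p (n - j) j‖ ^ 2) + 3 * (β n ^ 2 * ‖∑ j ∈ range (n + 1),
        (if N ≤ j then max 0 (1 - ((n - j : ℕ) : ℝ) / N) else 0) • p (n - j) j‖ ^ 2)) := by
          refine sum_le_sum fun n _ => ?_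
          have := mul_le_mul_of_nonneg_left (norm2 (∑ j ∈ range (n + 1),
            (if N ≤ j then max 0 (1 - ((n - j : ℕ) : ℝ) / ((2 * N : ℕ) : ℝ)) else 0) •
              p (n - j) j) (∑ j ∈ range (n + 1),
            (if N ≤ j then max 0 (1 - ((n - j : ℕ) : ℝ) / N) else 0) • p (n - j) j))
            (sq_nonneg (β n))
          linarith
      _ ≤ _ := by
          rw [sum_add_distrib, ← mul_sum, ← mul_sum]
          linarith
  calc ∑ n ∈ range M, β n ^ 2 * ‖∑ j ∈ range (n + 1), trap N (n - j) • p (n - j) j‖ ^ 2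
      ≤ ∑ n ∈ range M, 4 * (β n ^ 2 * ‖trap N n • ∑ j ∈ range (n + 1), p (n - j) j‖ ^ 2 +
        β n ^ 2 * ‖trap N n • ∑ j ∈ range (n + 1),
          (if N ≤ j then (1 : ℝ) else 0) • p (n - j) j‖ ^ 2 +
        β n ^ 2 * ‖∑ j ∈ range (n + 1),
          (if j < N then trap N (n - j) - trap N n else 0) • p (n - j) j‖ ^ 2 +
        β n ^ 2 * ‖(2 : ℝ) • (∑ j ∈ range (n + 1),
          (if N ≤ j then max 0 (1 - ((n - j : ℕ) : ℝ) / ((2 * N : ℕ) : ℝ)) else 0) •
            p (n - j) j) - (∑ j ∈ range (n + 1),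
          (if N ≤ j then max 0 (1 - ((n - j : ℕ) : ℝ) / N) else 0) • p (n - j) j)‖ ^ 2) := by
        refine sum_le_sum fun n _ => ?_
        rw [decomp p hN n]
        refine (mul_le_mul_of_nonneg_left (norm4 _ _ _ _) (sq_nonneg (β n))).trans ?_
        linarith
    _ ≤ 4 * (Ax + D * Bg + D * C * Bg + 9 * (D * Bg)) := by
        rw [← mul_sum, sum_add_distrib, sum_add_distrib, sum_add_distrib]
        linarith
    _ = 4 * (Ax + R ^ 2 * (K * 3 ^ κ) ^ 2 * (10 + C) * Bg) := by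
        rw [hD]
        ring

end Pool.Agent.RadCP
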