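import Pool.Agent.RadCP.Defs2
import Pool.Agent.RadCP.Core

set_option autoImplicit false

/-! Block CORE2 of the project RadCP: the core inequality for averages (helper84). -/

open Filter Topology Finset

namespace Pool.Agent.RadCP

open Pool.Agent.CycP Pool.Agent.CycP.AnSpace Finset

namespace Core2_

open Core_

theorem trap_eq_one {N k : ℕ} (hN : 1 ≤ N) (hk : k ≤ N) : trap N k = 1 := by
  unfold trap
  have hN' : (0 : ℝ) < N := by exact_mod_cast hN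
  have h : (k : ℝ) / N ≤ 1 := by
    rw [div_le_one hN']
    exact_mod_cast hk
  rw [max_eq_right (by linarith : (0 : ℝ) ≤ 2 - (k : ℝ) / N)]
  exact min_eq_left (by linarith)

section

variable {V : Type} [NormedAddCommGroup V] [NormedSpace ℝ V]

/-- the full product -/
noncomputable def X (p : ℕ → ℕ → V) (n : ℕ) : V := ∑ j ∈ range (n + 1), p (n - j) j

/-- the high part -/
noncomputable def Yh (p : ℕ → ℕ → V) (N n : ℕ) : V :=
  ∑ j ∈ range (n + 1), (if N ≤ j then (1 : ℝ) else 0) • p (n - j) j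

/-- the error part -/
noncomputable def Er (p : ℕ → ℕ → V) (N n : ℕ) : V :=
  ∑ j ∈ range (n + 1), (if j < N then trap N (n - j) - trap N n else 0) • p (n - j) j

/-- the window part -/
noncomputable def Qw (p : ℕ → ℕ → V) (N n : ℕ) : V :=
  (2 : ℝ) • (∑ j ∈ range (n + 1),
    (if N ≤ j then max 0 (1 - ((n - j : ℕ) : ℝ) / ((2 * N : ℕ) : ℝ)) else 0) • p (n - j) j) -
  (∑ j ∈ range (n + 1),
    (if N ≤ j then max 0 (1 - ((n - j : ℕ) : ℝ) / N) else 0) • p (n - j) j)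

/-- the main part -/
noncomputable def Bp (p : ℕ → ℕ → V) (N n : ℕ) : V :=
  trap N n • X p n - trap N n • Yh p N n + Qw p N n

theorem dec (p : ℕ → ℕ → V) {N : ℕ} (hN : 1 ≤ N) (n : ℕ) :
    ∑ j ∈ range (n + 1), trap N (n - j) • p (n - j) j = Bp p N n + Er p N n := by
  rw [decomp p hN n]
  unfold Bp Er Qw X Yh
  abel

omit [NormedSpace ℝ V] in
theorem norm3 (a b c : V) :
    ‖a - b + c‖ ^ 2 ≤ 3 * (‖a‖ ^ 2 + ‖b‖ ^ 2 + ‖c‖ ^ 2) := by
  have h : ‖a - b + c‖ ≤ ‖a‖ + ‖b‖ + ‖c‖ := by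
    refine (norm_add_le _ _).trans ?_
    exact add_le_add (norm_sub_le _ _) le_rfl
  have h0 : 0 ≤ ‖a - b + c‖ := norm_nonneg _
  have h2 : ‖a - b + c‖ ^ 2 ≤ (‖a‖ + ‖b‖ + ‖c‖) ^ 2 := pow_le_pow_left₀ h0 h 2
  nlinarith [sq_nonneg (‖a‖ - ‖b‖), sq_nonneg (‖a‖ - ‖c‖), sq_nonneg (‖b‖ - ‖c‖)]

omit [NormedSpace ℝ V] in
theorem norm22 (a b : V) : ‖a + b‖ ^ 2 ≤ 2 * ‖a‖ ^ 2 + 2 * ‖b‖ ^ 2 := by
  have h : ‖a + b‖ ≤ ‖a‖ + ‖b‖ := norm_add_le _ _
  have h0 : 0 ≤ ‖a + b‖ := norm_nonneg _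
  have h2 : ‖a + b‖ ^ 2 ≤ (‖a‖ + ‖b‖) ^ 2 := pow_le_pow_left₀ h0 h 2
  nlinarith [sq_nonneg (‖a‖ - ‖b‖)]

theorem jensen (s : Finset ℕ) (c : ℕ → ℝ) (hc : ∀ l, 0 ≤ c l) (h1 : ∑ l ∈ s, c l = 1)
    (v : ℕ → V) : ‖∑ l ∈ s, c l • v l‖ ^ 2 ≤ ∑ l ∈ s, c l * ‖v l‖ ^ 2 := by
  have h2 : ‖∑ l ∈ s, c l • v l‖ ≤ ∑ l ∈ s, c l * ‖v l‖ := by
    refine (norm_sum_le _ _).trans (le_of_eq (sum_congr rfl fun l _ => ?_))
    rw [norm_smul, Real.norm_of_nonneg (hc l)]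
  exact (pow_le_pow_left₀ (norm_nonneg _) h2 2).trans
    (Real.pow_arith_mean_le_arith_mean_pow s c (fun l => ‖v l‖) (fun l _ => hc l) h1
      (fun l _ => norm_nonneg _) 2)

theorem er_zero (p : ℕ → ℕ → V) {N n : ℕ} (hN : 1 ≤ N) (h : n ≤ N ∨ 3 * N ≤ n) :
    Er p N n = 0 := by
  unfold Er
  refine sum_eq_zero fun j hj => ?_
  rw [mem_range] at hj
  split_ifs with hjN
  · rcases h with h | h
    · rw [trap_eq_one hN h, trap_eq_one hN (by omega), sub_self, zero_smul]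
    · rw [trap_eq_zero hN (by omega), trap_eq_zero hN (by omega), sub_self, zero_smul]
  · rw [zero_smul]

theorem card_two (s : Finset ℕ) (n : ℕ) :
    (s.filter (fun l => 2 ^ l < n ∧ n < 3 * 2 ^ l)).card ≤ 2 := by
  rcases (s.filter (fun l => 2 ^ l < n ∧ n < 3 * 2 ^ l)).eq_empty_or_nonempty with h | h
  · rw [h]
    simp
  · set A := s.filter (fun l => 2 ^ l < n ∧ n < 3 * 2 ^ l) with hA
    have hm := A.min'_mem h
    set l0 := A.min' h with hl0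
    have hsub : A ⊆ {l0, l0 + 1} := by
      intro l hl
      have h1 : l0 ≤ l := A.min'_le l hl
      have h2 := (mem_filter.1 (hA ▸ hl)).2
      have h3 := (mem_filter.1 (hA ▸ hm)).2
      have h4 : 2 ^ l < 2 ^ (l0 + 2) := by
        have : 2 ^ (l0 + 2) = 4 * 2 ^ l0 := by ring
        omega
      have h5 : l < l0 + 2 := (Nat.pow_lt_pow_iff_right (by norm_num)).1 h4
      simp only [mem_insert, mem_singleton]
      omega
    refine (card_le_card hsub).trans ?_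
    exact card_le_two

theorem two_terms (p : ℕ → ℕ → V) (s : Finset ℕ) (c : ℕ → ℝ) (hc : ∀ l, 0 ≤ c l) (n : ℕ) :
    ‖∑ l ∈ s, c l • Er p (2 ^ l) n‖ ^ 2 ≤ 2 * ∑ l ∈ s, c l ^ 2 * ‖Er p (2 ^ l) n‖ ^ 2 := by
  set A := s.filter (fun l => 2 ^ l < n ∧ n < 3 * 2 ^ l) with hA
  have h1 : ∑ l ∈ s, c l • Er p (2 ^ l) n = ∑ l ∈ A, c l • Er p (2 ^ l) n := by
    rw [hA, sum_filter]
    refine sum_congr rfl fun l _ => ?_
    split_ifs with h
    · rfl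
    · rw [er_zero p Nat.one_le_two_pow (by omega), smul_zero]
  have h2 : ‖∑ l ∈ A, c l • Er p (2 ^ l) n‖ ≤ ∑ l ∈ A, c l * ‖Er p (2 ^ l) n‖ := by
    refine (norm_sum_le _ _).trans (le_of_eq (sum_congr rfl fun l _ => ?_))
    rw [norm_smul, Real.norm_of_nonneg (hc l)]
  have h3 : (∑ l ∈ A, c l * ‖Er p (2 ^ l) n‖) ^ 2 ≤
      A.card * ∑ l ∈ A, (c l * ‖Er p (2 ^ l) n‖) ^ 2 := sq_sum_le_card_mul_sum_sq
  have h4 : (A.card : ℝ) ≤ 2 := by exact_mod_cast card_two s n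
  have h5 : 0 ≤ ∑ l ∈ A, (c l * ‖Er p (2 ^ l) n‖) ^ 2 := sum_nonneg fun l _ => sq_nonneg _
  have h6 : ∑ l ∈ A, (c l * ‖Er p (2 ^ l) n‖) ^ 2 ≤
      ∑ l ∈ s, c l ^ 2 * ‖Er p (2 ^ l) n‖ ^ 2 := by
    calc ∑ l ∈ A, (c l * ‖Er p (2 ^ l) n‖) ^ 2
        ≤ ∑ l ∈ s, (c l * ‖Er p (2 ^ l) n‖) ^ 2 :=
          sum_le_sum_of_subset_of_nonneg (filter_subset _ _) fun l _ _ => sq_nonneg _
      _ = _ := sum_congr rfl fun l _ => mul_pow _ _ _
  rw [h1]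
  calc ‖∑ l ∈ A, c l • Er p (2 ^ l) n‖ ^ 2
      ≤ (∑ l ∈ A, c l * ‖Er p (2 ^ l) n‖) ^ 2 := pow_le_pow_left₀ (norm_nonneg _) h2 2
    _ ≤ A.card * ∑ l ∈ A, (c l * ‖Er p (2 ^ l) n‖) ^ 2 := h3
    _ ≤ 2 * ∑ l ∈ A, (c l * ‖Er p (2 ^ l) n‖) ^ 2 := mul_le_mul_of_nonneg_right h4 h5
    _ ≤ _ := mul_le_mul_of_nonneg_left h6 (by norm_num)

/-- the bound of the main part -/
theorem main_part (h1 : WinStmt) (h2 : FejStmt) (p : ℕ → ℕ → V) (G β : ℕ → ℝ) (R K : ℝ)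
    (κ : ℕ) (hS : Sys V p G β R K κ) (N : ℕ) (hN : 1 ≤ N) (Ax Bg : ℝ)
    (hAx : ∀ M, ∑ n ∈ range M, β n ^ 2 * ‖∑ j ∈ range (n + 1), p (n - j) j‖ ^ 2 ≤ Ax)
    (hBg : ∀ M, ∑ n ∈ range M, β n ^ 2 * G n ^ 2 ≤ Bg) (M : ℕ) :
    ∑ n ∈ range M, β n ^ 2 * ‖Bp p N n‖ ^ 2 ≤
      3 * (Ax + 10 * ((K * 3 ^ κ) ^ 2 * R ^ 2 * Bg)) := by
  set D : ℝ := (K * 3 ^ κ) ^ 2 * R ^ 2 with hD
  have hD0 : 0 ≤ D := by rw [hD]; positivity
  have hnn : ∀ n, 0 ≤ β n ^ 2 * G n ^ 2 := fun n => by positivity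
  have t1 : ∑ n ∈ range M, β n ^ 2 * ‖trap N n • X p n‖ ^ 2 ≤ Ax := by
    refine le_trans (sum_le_sum fun n _ => ?_) (hAx M)
    rw [norm_smul, mul_pow, Real.norm_of_nonneg (trap_nonneg N n)]
    have hs : trap N n ^ 2 ≤ 1 := pow_le_one₀ (trap_nonneg N n) (trap_le_one N n)
    calc β n ^ 2 * (trap N n ^ 2 * ‖X p n‖ ^ 2)
        ≤ β n ^ 2 * (1 * ‖X p n‖ ^ 2) := by gcongr
      _ = _ := by rw [one_mul]; rfl
  have t2 : ∑ n ∈ range M, β n ^ 2 * ‖trap N n • Yh p N n‖ ^ 2 ≤ D * Bg := by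
    have hw := h1 V _ _ p G β R K κ hS N (2 * N) (fun j => if N ≤ j then (1 : ℝ) else 0) hN
      (by omega) (fun j hj => if_neg (by omega))
    have hz : ∀ n, n ∉ Ico N (2 * N) → β n ^ 2 * ‖trap N n • Yh p N n‖ ^ 2 = 0 := by
      intro n hn
      rw [mem_Ico] at hn
      by_cases hn2 : 2 * N ≤ n
      · rw [trap_eq_zero hN hn2]
        simp
      · have hn1 : n < N := by omega
        have : Yh p N n = 0 := by
          unfold Yh
          refine sum_eq_zero fun j hj => ?_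
          rw [mem_range] at hj
          rw [if_neg (by omega), zero_smul]
        rw [this]
        simp
    calc ∑ n ∈ range M, β n ^ 2 * ‖trap N n • Yh p N n‖ ^ 2
        = ∑ n ∈ (range M).filter (fun n => n ∈ Ico N (2 * N)), β n ^ 2 *
          ‖trap N n • Yh p N n‖ ^ 2 := by
          rw [sum_filter]
          refine sum_congr rfl fun n _ => ?_
          by_cases hn : n ∈ Ico N (2 * N)
          · rw [if_pos hn]
          · rw [if_neg hn, hz n hn]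
      _ ≤ ∑ n ∈ Ico N (2 * N), β n ^ 2 * ‖trap N n • Yh p N n‖ ^ 2 := by
          refine sum_le_sum_of_subset_of_nonneg ?_ fun n _ _ => by positivity
          intro n hn
          exact (mem_filter.mp hn).2
      _ ≤ ∑ n ∈ Ico N (2 * N), β n ^ 2 * ‖Yh p N n‖ ^ 2 := by
          refine sum_le_sum fun n _ => ?_
          rw [norm_smul, mul_pow, Real.norm_of_nonneg (trap_nonneg N n)]
          have hs : trap N n ^ 2 ≤ 1 := pow_le_one₀ (trap_nonneg N n) (trap_le_one N n)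
          calc β n ^ 2 * (trap N n ^ 2 * ‖Yh p N n‖ ^ 2)
              ≤ β n ^ 2 * (1 * ‖Yh p N n‖ ^ 2) := by gcongr
            _ = _ := by rw [one_mul]
      _ ≤ D * ∑ j ∈ Ico N (2 * N), β j ^ 2 * ((if N ≤ j then (1 : ℝ) else 0) ^ 2 * G j ^ 2) :=
          hw
      _ ≤ D * ∑ j ∈ range (2 * N), β j ^ 2 * G j ^ 2 := by
          refine mul_le_mul_of_nonneg_left ?_ hD0
          calc ∑ j ∈ Ico N (2 * N), β j ^ 2 * ((if N ≤ j then (1 : ℝ) else 0) ^ 2 * G j ^ 2)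
              = ∑ j ∈ Ico N (2 * N), β j ^ 2 * G j ^ 2 := by
                refine sum_congr rfl fun j hj => ?_
                rw [mem_Ico] at hj
                rw [if_pos hj.1]
                ring
            _ ≤ _ := by
                refine sum_le_sum_of_subset_of_nonneg ?_ fun n _ _ => hnn n
                intro j hj
                rw [mem_Ico] at hj
                exact mem_range.mpr hj.2
      _ ≤ D * Bg := mul_le_mul_of_nonneg_left (hBg _) hD0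
  have t4a := (h2 V _ _ p G β R K κ hS N (2 * N) M hN (by omega) le_rfl).trans
    (mul_le_mul_of_nonneg_left (hBg M) hD0)
  have t4b := (h2 V _ _ p G β R K κ hS N N M hN hN (by omega)).trans
    (mul_le_mul_of_nonneg_left (hBg M) hD0)
  have t4 : ∑ n ∈ range M, β n ^ 2 * ‖Qw p N n‖ ^ 2 ≤ 9 * (D * Bg) := by
    calc _ ≤ ∑ n ∈ range M, (6 * (β n ^ 2 * ‖∑ j ∈ range (n + 1),
        (if N ≤ j then max 0 (1 - ((n - j : ℕ) : ℝ) / ((2 * N : ℕ) : ℝ)) else 0) •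
          p (n - j) j‖ ^ 2) + 3 * (β n ^ 2 * ‖∑ j ∈ range (n + 1),
        (if N ≤ j then max 0 (1 - ((n - j : ℕ) : ℝ) / N) else 0) • p (n - j) j‖ ^ 2)) := by
          refine sum_le_sum fun n _ => ?_
          have := mul_le_mul_of_nonneg_left (norm2 (∑ j ∈ range (n + 1),
            (if N ≤ j then max 0 (1 - ((n - j : ℕ) : ℝ) / ((2 * N : ℕ) : ℝ)) else 0) •
              p (n - j) j) (∑ j ∈ range (n + 1),
            (if N ≤ j then max 0 (1 - ((n - j : ℕ) : ℝ) / N) else 0) • p (n - j) j))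
            (sq_nonneg (β n))
          unfold Qw
          linarith
      _ ≤ _ := by
          rw [sum_add_distrib, ← mul_sum, ← mul_sum]
          linarith
  calc ∑ n ∈ range M, β n ^ 2 * ‖Bp p N n‖ ^ 2
      ≤ ∑ n ∈ range M, 3 * (β n ^ 2 * ‖trap N n • X p n‖ ^ 2 +
        β n ^ 2 * ‖trap N n • Yh p N n‖ ^ 2 + β n ^ 2 * ‖Qw p N n‖ ^ 2) := by
        refine sum_le_sum fun n _ => ?_
        refine (mul_le_mul_of_nonneg_left (norm3 (trap N n • X p n) (trap N n • Yh p N n)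
          (Qw p N n)) (sq_nonneg (β n))).trans ?_
        linarith
    _ ≤ 3 * (Ax + 10 * (D * Bg)) := by
        rw [← mul_sum, sum_add_distrib, sum_add_distrib]
        linarith

end

end Core2_

open Core2_ in
theorem core2 (h1 : WinStmt) (h2 : FejStmt) (h3 : Err2Stmt) : Core2Stmt := by
  intro V _ _ p G β R K κ hS c a b hc hc1 hc2 Ax Bg hAx hBg M
  set D : ℝ := (K * 3 ^ κ) ^ 2 * R ^ 2 with hD
  have hβ := hS.β0
  have hBg0 : 0 ≤ Bg := by simpa using hBg 0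
  have hrr : ∀ l, 0 < rr β l := fun l => by
    have := hβ (2 ^ l)
    unfold rr
    positivity
  have hRR : ∀ l, 0 ≤ RR β l := fun l => sum_nonneg fun i _ => (hrr i).le
  -- the sum
  have e1 : ∀ n, ∑ j ∈ range (n + 1), avg c a b (n - j) • p (n - j) j =
      (∑ l ∈ Ico a b, c l • Bp p (2 ^ l) n) + ∑ l ∈ Ico a b, c l • Er p (2 ^ l) n := by
    intro n
    rw [← sum_add_distrib]
    calc ∑ j ∈ range (n + 1), avg c a b (n - j) • p (n - j) j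
        = ∑ j ∈ range (n + 1), ∑ l ∈ Ico a b, c l • (trap (2 ^ l) (n - j) • p (n - j) j) := by
          refine sum_congr rfl fun j _ => ?_
          unfold avg
          rw [sum_smul]
          exact sum_congr rfl fun l _ => mul_smul _ _ _
      _ = ∑ l ∈ Ico a b, ∑ j ∈ range (n + 1), c l • (trap (2 ^ l) (n - j) • p (n - j) j) :=
          sum_comm
      _ = ∑ l ∈ Ico a b, (c l • Bp p (2 ^ l) n + c l • Er p (2 ^ l) n) := by
          refine sum_congr rfl fun l _ => ?_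
          rw [← smul_sum, dec p Nat.one_le_two_pow n, smul_add]
  -- pointwise
  have e2 : ∀ n, ‖∑ j ∈ range (n + 1), avg c a b (n - j) • p (n - j) j‖ ^ 2 ≤
      2 * ∑ l ∈ Ico a b, c l * ‖Bp p (2 ^ l) n‖ ^ 2 +
        4 * ∑ l ∈ Ico a b, c l ^ 2 * ‖Er p (2 ^ l) n‖ ^ 2 := by
    intro n
    rw [e1 n]
    have f1 := norm22 (∑ l ∈ Ico a b, c l • Bp p (2 ^ l) n) (∑ l ∈ Ico a b, c l • Er p (2 ^ l) n)
    have f2 := jensen (Ico a b) c hc hc1 (fun l => Bp p (2 ^ l) n)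
    have f3 := two_terms p (Ico a b) c hc n
    linarith
  have e3 : ∀ l, ∑ n ∈ range M, β n ^ 2 * ‖Er p (2 ^ l) n‖ ^ 2 ≤
      (K * 3 ^ κ) ^ 4 * R ^ 2 * (RR β l / rr β l) * Bg := by
    intro l
    refine (h3 V _ _ p G β R K κ hS l M).trans ?_
    refine mul_le_mul_of_nonneg_left (hBg _) ?_
    have := hRR l
    have := (hrr l).le
    positivity
  have e4 : ∀ l, ∑ n ∈ range M, β n ^ 2 * ‖Bp p (2 ^ l) n‖ ^ 2 ≤ 3 * (Ax + 10 * (D * Bg)) :=
    fun l => main_part h1 h2 p G β R K κ hS (2 ^ l) Nat.one_le_two_pow Ax Bg hAx hBg M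
  have e5 : ∑ n ∈ range M, β n ^ 2 * ∑ l ∈ Ico a b, c l * ‖Bp p (2 ^ l) n‖ ^ 2 ≤
      3 * (Ax + 10 * (D * Bg)) := by
    calc ∑ n ∈ range M, β n ^ 2 * ∑ l ∈ Ico a b, c l * ‖Bp p (2 ^ l) n‖ ^ 2
        = ∑ l ∈ Ico a b, c l * ∑ n ∈ range M, β n ^ 2 * ‖Bp p (2 ^ l) n‖ ^ 2 := by
          simp_rw [mul_sum]
          rw [sum_comm]
          exact sum_congr rfl fun l _ => sum_congr rfl fun n _ => by ring
      _ ≤ ∑ l ∈ Ico a b, c l * (3 * (Ax + 10 * (D * Bg))) :=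
          sum_le_sum fun l _ => mul_le_mul_of_nonneg_left (e4 l) (hc l)
      _ = 3 * (Ax + 10 * (D * Bg)) := by rw [← sum_mul, hc1, one_mul]
  have e6 : ∑ n ∈ range M, β n ^ 2 * ∑ l ∈ Ico a b, c l ^ 2 * ‖Er p (2 ^ l) n‖ ^ 2 ≤
      (K * 3 ^ κ) ^ 4 * R ^ 2 * Bg := by
    calc ∑ n ∈ range M, β n ^ 2 * ∑ l ∈ Ico a b, c l ^ 2 * ‖Er p (2 ^ l) n‖ ^ 2
        = ∑ l ∈ Ico a b, c l ^ 2 * ∑ n ∈ range M, β n ^ 2 * ‖Er p (2 ^ l) n‖ ^ 2 := by
          simp_rw [mul_sum]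
          rw [sum_comm]
          exact sum_congr rfl fun l _ => sum_congr rfl fun n _ => by ring
      _ ≤ ∑ l ∈ Ico a b, c l ^ 2 * ((K * 3 ^ κ) ^ 4 * R ^ 2 * (RR β l / rr β l) * Bg) :=
          sum_le_sum fun l _ => mul_le_mul_of_nonneg_left (e3 l) (sq_nonneg _)
      _ = ((K * 3 ^ κ) ^ 4 * R ^ 2 * Bg) * ∑ l ∈ Ico a b, c l ^ 2 * (RR β l / rr β l) := by
          rw [mul_sum]
          exact sum_congr rfl fun l _ => by ring
      _ ≤ ((K * 3 ^ κ) ^ 4 * R ^ 2 * Bg) * 1 :=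
          mul_le_mul_of_nonneg_left hc2 (by positivity)
      _ = _ := mul_one _
  calc ∑ n ∈ range M, β n ^ 2 * ‖∑ j ∈ range (n + 1), avg c a b (n - j) • p (n - j) j‖ ^ 2
      ≤ ∑ n ∈ range M, (2 * (β n ^ 2 * ∑ l ∈ Ico a b, c l * ‖Bp p (2 ^ l) n‖ ^ 2) +
        4 * (β n ^ 2 * ∑ l ∈ Ico a b, c l ^ 2 * ‖Er p (2 ^ l) n‖ ^ 2)) := by
        refine sum_le_sum fun n _ => ?_
        have := mul_le_mul_of_nonneg_left (e2 n) (sq_nonneg (β n))
        linarith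
    _ ≤ 6 * (Ax + 10 * (R ^ 2 * (K * 3 ^ κ) ^ 2 * Bg)) +
        4 * ((K * 3 ^ κ) ^ 4 * R ^ 2 * Bg) := by
        rw [sum_add_distrib, ← mul_sum, ← mul_sum]
        have hDe : R ^ 2 * (K * 3 ^ κ) ^ 2 * Bg = D * Bg := by rw [hD]; ring
        rw [hDe]
        linarith

end Pool.Agent.RadCP
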