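import Pool.Agent.RadCP.Defs

set_option autoImplicit false

/-! Radial weights: the algebra case on the disc. -/

open Finset

namespace Pool.Agent.RadCP

open Pool.Agent.CycP Pool.Agent.CycP.AnSpace Finset

namespace DAlg_

lemma young (u v : ℕ → ℝ) (hv0 : ∀ n, 0 ≤ v n)
    (hu : Summable (fun n => u n ^ 2)) (hv : Summable v) :
    Summable (fun n => (∑ q ∈ antidiagonal n, u q.1 * v q.2) ^ 2) := by
  have h1 : Summable (fun n => ∑ q ∈ antidiagonal n, u q.1 ^ 2 * v q.2) := by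
    refine (summable_norm_sum_mul_antidiagonal_of_summable_norm (f := fun n => u n ^ 2)
      (g := v) ?_ ?_).of_norm
    · exact hu.norm
    · exact hv.norm
  refine Summable.of_nonneg_of_le (fun n => sq_nonneg _) (fun n => ?_)
    (h1.mul_left (∑' k, v k))
  have h2 : (∑ q ∈ antidiagonal n, u q.1 * v q.2) ^ 2 ≤
      (∑ q ∈ antidiagonal n, v q.2) * ∑ q ∈ antidiagonal n, u q.1 ^ 2 * v q.2 := by
    refine sum_sq_le_sum_mul_sum_of_sq_le_mul _ (fun q _ => hv0 _)
      (fun q _ => mul_nonneg (sq_nonneg _) (hv0 _)) (fun q _ => le_of_eq (by ring))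
  refine h2.trans (mul_le_mul_of_nonneg_right ?_
    (sum_nonneg fun q _ => mul_nonneg (sq_nonneg _) (hv0 _)))
  have h3 : ∑ q ∈ antidiagonal n, v q.2 = ∑ k ∈ range (n + 1), v k := by
    rw [← Finset.Nat.sum_antidiagonal_swap (f := fun q : ℕ × ℕ => v q.2),
      Finset.Nat.sum_antidiagonal_eq_sum_range_succ_mk]
    rfl
  rw [h3]
  exact hv.sum_le_tsum _ (fun k _ => hv0 k)

lemma eval_smul_hom {d : ℕ} {P : MvPolynomial (Fin d) ℂ} {j : ℕ} (hP : P.IsHomogeneous j)
    (c : ℂ) (z : Fin d → ℂ) :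
    MvPolynomial.eval (c • z) P = c ^ j * MvPolynomial.eval z P := by
  rw [MvPolynomial.eval_eq, MvPolynomial.eval_eq, Finset.mul_sum]
  refine Finset.sum_congr rfl fun s hs => ?_
  have h1 := hP.degree_eq_sum_deg_support hs
  rw [h1, Finset.prod_congr rfl fun i _ => show (c • z) i ^ s i = c ^ s i * z i ^ s i by
    rw [Pi.smul_apply, smul_eq_mul, mul_pow], Finset.prod_mul_distrib, Finset.prod_pow_eq_pow_sum]
  ring

/-- square summable over summable squares -/
lemma l1 (A β : ℕ → ℝ) (hβ : ∀ n, 0 < β n) (hA0 : ∀ n, 0 ≤ A n)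
    (hA : Summable (fun n => (A n * β n) ^ 2)) (hB : Summable (fun n => (β n ^ 2)⁻¹)) :
    Summable A := by
  refine Summable.of_nonneg_of_le hA0 (fun n => ?_) ((hA.add hB).div_const 2)
  have h1 := hβ n
  have h2 : A n = (A n * β n) * (β n)⁻¹ := by field_simp
  have h3 : (β n ^ 2)⁻¹ = ((β n)⁻¹) ^ 2 := by rw [inv_pow]
  rw [h3]
  conv_lhs => rw [h2]
  nlinarith [sq_nonneg (A n * β n - (β n)⁻¹)]

lemma grow2 (β : ℕ → ℝ) (hβ : ∀ n, 0 < β n) (h : PolyGrowth β) :
    ∃ D : ℝ, 0 ≤ D ∧ ∀ j k, β (j + k) ≤ D * (β j + β k) := by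
  obtain ⟨K, κ, hK⟩ := h
  have key : ∀ j k, k ≤ j → β (j + k) ≤ (|K| * 2 ^ κ + 1) * β j := by
    intro j k hkj
    rcases Nat.eq_zero_or_pos j with h0 | h0
    · have hk : k = 0 := by omega
      subst h0
      subst hk
      have h1 : 0 ≤ |K| * 2 ^ κ := by positivity
      have h2 := hβ 0
      nlinarith
    · have h1 := hK j (j + k) h0 (by omega)
      have hj : (0 : ℝ) < j := by exact_mod_cast h0
      have h2 : (((j + k : ℕ) : ℝ) / j) ≤ 2 := by
        rw [div_le_iff₀ hj]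
        have : ((j + k : ℕ) : ℝ) ≤ ((2 * j : ℕ) : ℝ) := by exact_mod_cast (by omega)
        push_cast at this ⊢
        linarith
      have h3 : (((j + k : ℕ) : ℝ) / j) ^ κ ≤ 2 ^ κ := pow_le_pow_left₀ (by positivity) h2 κ
      calc β (j + k) ≤ K * (((j + k : ℕ) : ℝ) / j) ^ κ * β j := h1
        _ ≤ |K| * (((j + k : ℕ) : ℝ) / j) ^ κ * β j := by
            refine mul_le_mul_of_nonneg_right ?_ (hβ j).le
            exact mul_le_mul_of_nonneg_right (le_abs_self K) (by positivity)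
        _ ≤ |K| * 2 ^ κ * β j := by
            refine mul_le_mul_of_nonneg_right ?_ (hβ j).le
            exact mul_le_mul_of_nonneg_left h3 (abs_nonneg K)
        _ ≤ (|K| * 2 ^ κ + 1) * β j := by
            refine mul_le_mul_of_nonneg_right ?_ (hβ j).le
            linarith
  refine ⟨|K| * 2 ^ κ + 1, by positivity, fun j k => ?_⟩
  have hD : 0 ≤ |K| * 2 ^ κ + 1 := by positivity
  rcases le_total k j with h1 | h1
  · refine (key j k h1).trans (mul_le_mul_of_nonneg_left ?_ hD)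
    linarith [hβ k]
  · rw [add_comm j k]
    refine (key k j h1).trans (mul_le_mul_of_nonneg_left ?_ hD)
    linarith [hβ j]

/-- the weighted convolution -/
lemma conv (β A B : ℕ → ℝ) (hβ : ∀ n, 0 < β n) (h : PolyGrowth β)
    (hB : Summable (fun n => (β n ^ 2)⁻¹)) (hA0 : ∀ n, 0 ≤ A n) (hB0 : ∀ n, 0 ≤ B n)
    (hA2 : Summable (fun n => (A n * β n) ^ 2)) (hB2 : Summable (fun n => (B n * β n) ^ 2)) :
    Summable (fun n => ((∑ q ∈ antidiagonal n, A q.1 * B q.2) * β n) ^ 2) := by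
  obtain ⟨D, hD0, hD⟩ := grow2 β hβ h
  have h1 := young (fun n => A n * β n) B hB0 hA2 (l1 B β hβ hB0 hB2 hB)
  have h2 := young (fun n => B n * β n) A hA0 hB2 (l1 A β hβ hA0 hA2 hB)
  refine Summable.of_nonneg_of_le (fun n => sq_nonneg _) (fun n => ?_)
    ((h1.add h2).mul_left (2 * D ^ 2))
  have h3 : (∑ q ∈ antidiagonal n, A q.1 * B q.2) * β n ≤
      D * ((∑ q ∈ antidiagonal n, A q.1 * β q.1 * B q.2) +
        ∑ q ∈ antidiagonal n, B q.1 * β q.1 * A q.2) := by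
    rw [← Finset.Nat.sum_antidiagonal_swap (f := fun q : ℕ × ℕ => B q.1 * β q.1 * A q.2),
      ← sum_add_distrib, mul_sum, sum_mul]
    refine sum_le_sum fun q hq => ?_
    have hn : q.1 + q.2 = n := by simpa using hq
    have h4 := hD q.1 q.2
    rw [hn] at h4
    have h5 : 0 ≤ A q.1 * B q.2 := mul_nonneg (hA0 _) (hB0 _)
    calc A q.1 * B q.2 * β n ≤ A q.1 * B q.2 * (D * (β q.1 + β q.2)) :=
          mul_le_mul_of_nonneg_left h4 h5
      _ = D * (A q.1 * β q.1 * B q.2 + B q.swap.1 * β q.swap.1 * A q.swap.2) := by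
          simp only [Prod.fst_swap, Prod.snd_swap]
          ring
  have h0 : 0 ≤ (∑ q ∈ antidiagonal n, A q.1 * B q.2) * β n :=
    mul_nonneg (sum_nonneg fun q _ => mul_nonneg (hA0 _) (hB0 _)) (hβ n).le
  calc ((∑ q ∈ antidiagonal n, A q.1 * B q.2) * β n) ^ 2
      ≤ (D * ((∑ q ∈ antidiagonal n, A q.1 * β q.1 * B q.2) +
        ∑ q ∈ antidiagonal n, B q.1 * β q.1 * A q.2)) ^ 2 := pow_le_pow_left₀ h0 h3 2
    _ ≤ 2 * D ^ 2 * ((∑ q ∈ antidiagonal n, A q.1 * β q.1 * B q.2) ^ 2 +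
        (∑ q ∈ antidiagonal n, B q.1 * β q.1 * A q.2) ^ 2) := by
        rw [mul_pow]
        have h6 : ∀ s t : ℝ, (s + t) ^ 2 ≤ 2 * (s ^ 2 + t ^ 2) := fun s t => by
          nlinarith [sq_nonneg (s - t)]
        have h7 := mul_le_mul_of_nonneg_left (h6
          (∑ q ∈ antidiagonal n, A q.1 * β q.1 * B q.2)
          (∑ q ∈ antidiagonal n, B q.1 * β q.1 * A q.2)) (sq_nonneg D)
        linarith

end DAlg_

open DAlg_ in
theorem dalg (h1 : CompStmt) : DiscAlgStmt := by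
  intro Y iN iI iC B hG hP hS x y
  obtain ⟨hc1, hc2, hc3⟩ := h1 1 (Metric.ball 0 1) Y iN iI iC B hG
  obtain ⟨e, he⟩ : ∃ e : ℕ → Y, ∀ n, e n = B.poly (MvPolynomial.X 0 ^ n) := ⟨_, fun _ => rfl⟩
  have hfe : ∀ n, ∀ w ∈ Metric.ball (0 : Fin 1 → ℂ) 1, B.fn (e n) w = w 0 ^ n := by
    intro n w hw
    rw [he, B.fn_poly _ w hw, map_pow, MvPolynomial.eval_X]
  obtain ⟨β, hβd⟩ : ∃ β : ℕ → ℝ, β = fun n => ‖B.poly (MvPolynomial.X 0 ^ n)‖ := ⟨_, rfl⟩
  rw [← hβd] at hP
  have hS' : Summable (fun n => (β n ^ 2)⁻¹) := by rw [hβd]; exact hS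
  have hβe : ∀ n, β n = ‖e n‖ := fun n => by rw [hβd, he]
  have hβ : ∀ n, 0 < β n := by
    intro n
    rw [hβe, norm_pos_iff]
    intro h0
    have hw : (fun _ => (1 / 2 : ℂ)) ∈ Metric.ball (0 : Fin 1 → ℂ) 1 := by
      rw [mem_ball_zero_iff, pi_norm_lt_iff one_pos]
      intro i
      norm_num
    have h2 := hfe n _ hw
    rw [h0, map_zero, Pi.zero_apply] at h2
    exact absurd h2.symm (pow_ne_zero _ (by norm_num))
  -- coefficients
  have hco : ∀ u : Y, ∃ a : ℕ → ℂ, ∀ n, B.comp n u = a n • e n := by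
    intro u
    have : ∀ n, ∃ t : ℂ, B.comp n u = t • e n := by
      intro n
      obtain ⟨P, hP, hPu⟩ := B.comp_mem n u
      refine ⟨MvPolynomial.eval (fun _ => 1) P, ?_⟩
      rw [← hPu]
      refine B.fn_ext fun w hw => ?_
      rw [B.fn_poly _ w hw, map_smul, Pi.smul_apply, hfe n w hw, smul_eq_mul]
      have hwc : w = (w 0) • (fun _ : Fin 1 => (1 : ℂ)) := by
        funext i
        have : i = 0 := Subsingleton.elim _ _
        rw [this]
        simp
      conv_lhs => rw [hwc]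
      rw [eval_smul_hom hP, mul_comm]
    choose a ha using this
    exact ⟨a, ha⟩
  obtain ⟨a, ha⟩ := hco x
  obtain ⟨b, hb⟩ := hco y
  have hsq : ∀ (u : Y) (a : ℕ → ℂ), (∀ n, B.comp n u = a n • e n) →
      Summable (fun n => (‖a n‖ * β n) ^ 2) := by
    intro u a ha
    have h2 := (hc2 u).summable
    refine h2.congr fun n => ?_
    rw [ha, norm_smul, hβe]
  obtain ⟨c, hc⟩ : ∃ c : ℕ → ℂ, ∀ n, c n = ∑ q ∈ antidiagonal n, a q.1 * b q.2 :=
    ⟨_, fun _ => rfl⟩
  have hcs : Summable (fun n => ‖c n • e n‖ ^ 2) := by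
    have h2 := conv β (fun n => ‖a n‖) (fun n => ‖b n‖) hβ hP hS' (fun n => norm_nonneg _)
      (fun n => norm_nonneg _) (hsq x a ha) (hsq y b hb)
    refine Summable.of_nonneg_of_le (fun n => sq_nonneg _) (fun n => ?_) h2
    rw [norm_smul, ← hβe]
    refine pow_le_pow_left₀ (mul_nonneg (norm_nonneg _) (hβ n).le) ?_ 2
    refine mul_le_mul_of_nonneg_right ?_ (hβ n).le
    rw [hc]
    refine (norm_sum_le _ _).trans (sum_le_sum fun q _ => ?_)
    rw [norm_mul]
  obtain ⟨z, hz⟩ := hc3 (fun n => c n • e n) (fun n => by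
    refine Submodule.smul_mem _ _ (mem_hom.2 ⟨MvPolynomial.X 0 ^ n, ?_, (he n).symm⟩)
    simpa using (MvPolynomial.isHomogeneous_X ℂ (0 : Fin 1)).pow n) hcs
  refine ⟨z, fun w hw => ?_⟩
  obtain ⟨L, hL, -⟩ := B.exists_eval hw
  have hser : ∀ (u : Y) (a : ℕ → ℂ), (∀ n, B.comp n u = a n • e n) →
      HasSum (fun n => a n * w 0 ^ n) (B.fn u w) := by
    intro u a ha
    have h2 := (hc1 u).mapL L
    rw [hL] at h2
    have h3 : (fun n => a n * w 0 ^ n) = fun n => L (B.comp n u) := by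
      funext n
      rw [ha, map_smul, hL, hfe n w hw, smul_eq_mul]
    rw [h3]
    exact h2
  have hx := hser x a ha
  have hy := hser y b hb
  have hzz := hser z c hz
  rw [← hx.tsum_eq, ← hy.tsum_eq, ← hzz.tsum_eq,
    tsum_mul_tsum_eq_tsum_sum_antidiagonal_of_summable_norm hx.summable.norm hy.summable.norm]
  refine tsum_congr fun n => ?_
  rw [hc, sum_mul]
  refine sum_congr rfl fun q hq => ?_
  have hn : q.1 + q.2 = n := by simpa using hq
  rw [← hn, pow_add]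
  ring

end Pool.Agent.RadCP
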