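import Pool.Agent.CycP.PickF

set_option autoImplicit false

/-! Radial weights: targets of the project. -/

open Filter Topology Finset

namespace Pool.Agent.RadCP

open Pool.Agent.CycP Pool.Agent.CycP.AnSpace

/-- at most polynomial growth -/
def PolyGrowth (β : ℕ → ℝ) : Prop :=
  ∃ (K : ℝ) (κ : ℕ), ∀ n m : ℕ, 1 ≤ n → n ≤ m → β m ≤ K * ((m : ℝ) / n) ^ κ * β n

/-- the trapezoid -/
noncomputable def trap (N k : ℕ) : ℝ := min 1 (max 0 (2 - (k : ℝ) / N))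

/-- `N` is good for `β` with weights `u` -/
def Good (β : ℕ → ℝ) (C : ℝ) (N : ℕ) : Prop :=
  1 ≤ N ∧ ∃ u : ℕ → ℝ, (∀ t, 0 < u t) ∧ ∀ j, 1 ≤ j → j < N →
    (∑ t ∈ range N, (u t)⁻¹) * (∑ t ∈ range j, u t) * β N ^ 2 ≤ C * N ^ 2 * β j ^ 2

/-- the data of the core inequality: `p k j` is the product of the `k`-th component of the
bounded function and the `j`-th component of `g`, `G j` is the norm of the latter -/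
structure Sys (V : Type) [NormedAddCommGroup V] [NormedSpace ℝ V] (p : ℕ → ℕ → V) (G β : ℕ → ℝ)
    (R K : ℝ) (κ : ℕ) : Prop where
  R0 : 0 ≤ R
  K0 : 0 ≤ K
  β0 : ∀ n, 0 < β n
  grow : ∀ n m : ℕ, 1 ≤ n → n ≤ m → β m ≤ K * ((m : ℝ) / n) ^ κ * β n
  bd : ∀ (M : ℕ) (u : ℕ → ℝ), ∑ n ∈ range M, ‖∑ j ∈ range (n + 1), u j • p (n - j) j‖ ^ 2 ≤
    R ^ 2 * ∑ j ∈ range M, u j ^ 2 * G j ^ 2

/-- C, the weighted bound on a short window -/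
def WinStmt : Prop :=
  ∀ (V : Type) (_ : NormedAddCommGroup V) (_ : NormedSpace ℝ V) (p : ℕ → ℕ → V) (G β : ℕ → ℝ)
    (R K : ℝ) (κ : ℕ), Sys V p G β R K κ → ∀ (a b : ℕ) (u : ℕ → ℝ), 1 ≤ a → b ≤ 3 * a →
    (∀ j, j < a → u j = 0) →
    ∑ n ∈ Ico a b, β n ^ 2 * ‖∑ j ∈ range (n + 1), u j • p (n - j) j‖ ^ 2 ≤
      (K * 3 ^ κ) ^ 2 * R ^ 2 * ∑ j ∈ Ico a b, β j ^ 2 * (u j ^ 2 * G j ^ 2)

/-- W, the Fejer windows -/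
def FejStmt : Prop :=
  ∀ (V : Type) (_ : NormedAddCommGroup V) (_ : NormedSpace ℝ V) (p : ℕ → ℕ → V) (G β : ℕ → ℝ)
    (R K : ℝ) (κ : ℕ), Sys V p G β R K κ → ∀ N L M : ℕ, 1 ≤ N → 1 ≤ L → L ≤ 2 * N →
    ∑ n ∈ range M, β n ^ 2 * ‖∑ j ∈ range (n + 1),
      (if N ≤ j then max 0 (1 - ((n - j : ℕ) : ℝ) / L) else 0) • p (n - j) j‖ ^ 2 ≤
      (K * 3 ^ κ) ^ 2 * R ^ 2 * ∑ j ∈ range M, β j ^ 2 * G j ^ 2

/-- E, the error term -/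
def ErrStmt : Prop :=
  ∀ (V : Type) (_ : NormedAddCommGroup V) (_ : NormedSpace ℝ V) (p : ℕ → ℕ → V) (G β : ℕ → ℝ)
    (R K : ℝ) (κ : ℕ), Sys V p G β R K κ → ∀ (C : ℝ) (N M : ℕ), 0 ≤ C → Good β C N →
    ∑ n ∈ range M, β n ^ 2 * ‖∑ j ∈ range (n + 1),
      (if j < N then trap N (n - j) - trap N n else 0) • p (n - j) j‖ ^ 2 ≤
      (K * 3 ^ κ) ^ 2 * R ^ 2 * C * ∑ j ∈ range N, β j ^ 2 * G j ^ 2

/-- J1, the core inequality -/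
def CoreStmt : Prop :=
  ∀ (V : Type) (_ : NormedAddCommGroup V) (_ : NormedSpace ℝ V) (p : ℕ → ℕ → V) (G β : ℕ → ℝ)
    (R K : ℝ) (κ : ℕ), Sys V p G β R K κ → ∀ (C : ℝ) (N : ℕ), 0 ≤ C → Good β C N →
    ∀ (Ax Bg : ℝ),
    (∀ M, ∑ n ∈ range M, β n ^ 2 * ‖∑ j ∈ range (n + 1), p (n - j) j‖ ^ 2 ≤ Ax) →
    (∀ M, ∑ n ∈ range M, β n ^ 2 * G n ^ 2 ≤ Bg) →
    ∀ M, ∑ n ∈ range M, β n ^ 2 * ‖∑ j ∈ range (n + 1), trap N (n - j) • p (n - j) j‖ ^ 2 ≤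
      4 * (Ax + R ^ 2 * (K * 3 ^ κ) ^ 2 * (10 + C) * Bg)

/-- J2, infinitely many good indices -/
def GoodStmt : Prop :=
  ∀ (β : ℕ → ℝ), (∀ n, 0 < β n) → ∀ s : ℝ, s < 1 →
    ¬ Tendsto (fun n : ℕ => β n / (n : ℝ) ^ s) atTop atTop →
    ∃ C : ℝ, 0 ≤ C ∧ ∃ᶠ N in atTop, Good β C N

/-- `∑ c k` is the homogeneous expansion of `h` on `Ω` -/
def HomExp {d : ℕ} (Ω : Set (Fin d → ℂ)) (h : (Fin d → ℂ) → ℂ)
    (c : ℕ → MvPolynomial (Fin d) ℂ) : Prop :=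
  (∀ k, (c k).IsHomogeneous k) ∧ ∀ w ∈ Ω, HasSum (fun k => MvPolynomial.eval w (c k)) (h w)

/-- the causal operator given by the homogeneous polynomials `c k` is bounded by `R` -/
def Causal {d : ℕ} {V : Type} [NormedAddCommGroup V] [NormedSpace ℂ V]
    (ι : MvPolynomial (Fin d) ℂ →ₗ[ℂ] V) (c : ℕ → MvPolynomial (Fin d) ℂ) (R : ℝ) : Prop :=
  ∀ P : ℕ → MvPolynomial (Fin d) ℂ, (∀ j, (P j).IsHomogeneous j) → ∀ M : ℕ,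
    ∑ n ∈ range M, ‖ι (∑ j ∈ range (n + 1), c (n - j) * P j)‖ ^ 2 ≤
      R ^ 2 * ∑ j ∈ range M, ‖ι (P j)‖ ^ 2

/-- J3a, components of products -/
def ProdStmt : Prop :=
  ∀ (d : ℕ) (Ω : Set (Fin d → ℂ)), Balanced ℂ Ω → ∀ (Y : Type) (_ : NormedAddCommGroup Y)
    (_ : InnerProductSpace ℂ Y) (_ : CompleteSpace Y) (B : AnSpace d Ω Y), B.Graded →
    ∀ (h : (Fin d → ℂ) → ℂ) (c P : ℕ → MvPolynomial (Fin d) ℂ) (g x : Y), HomExp Ω h c →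
    (∀ w ∈ Ω, B.fn x w = h w * B.fn g w) → (∀ j, (P j).IsHomogeneous j) →
    (∀ j, B.poly (P j) = B.comp j g) →
    ∀ n, B.comp n x = B.poly (∑ j ∈ range (n + 1), c (n - j) * P j)

/-- J3c, expansion into components -/
def CompStmt : Prop :=
  ∀ (d : ℕ) (Ω : Set (Fin d → ℂ)) (Y : Type) (_ : NormedAddCommGroup Y)
    (_ : InnerProductSpace ℂ Y) (_ : CompleteSpace Y) (B : AnSpace d Ω Y), B.Graded →
    (∀ y : Y, HasSum (fun n => B.comp n y) y) ∧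
    (∀ y : Y, HasSum (fun n => ‖B.comp n y‖ ^ 2) (‖y‖ ^ 2)) ∧
    (∀ v : ℕ → Y, (∀ n, v n ∈ B.hom n) → Summable (fun n => ‖v n‖ ^ 2) →
      ∃ y : Y, ∀ n, B.comp n y = v n)

/-- J3b, the causal operators of bounded analytic functions in the space `H` -/
def CausalStmt : Prop :=
  ∀ (d : ℕ) (Ω : Set (Fin d → ℂ)), Balanced ℂ Ω → ∀ (H : Type) (_ : NormedAddCommGroup H)
    (_ : InnerProductSpace ℂ H) (_ : CompleteSpace H) (A : AnSpace d Ω H), A.Graded →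
    A.HInfMultiplier → ∀ (h : (Fin d → ℂ) → ℂ), AnalyticOnNhd ℂ h Ω →
    ∀ K : ℝ, (∀ w ∈ Ω, ‖h w‖ ≤ K) →
    ∃ (c : ℕ → MvPolynomial (Fin d) ℂ) (R : ℝ), 0 ≤ R ∧ HomExp Ω h c ∧ Causal A.polyL c R

/-- J4, the same on the disc (evaluation at 1 gives the coefficient) -/
def DiscStmt : Prop :=
  ∀ (h : (Fin 1 → ℂ) → ℂ), AnalyticOnNhd ℂ h (Metric.ball 0 1) →
    ∀ K : ℝ, (∀ w ∈ Metric.ball (0 : Fin 1 → ℂ) 1, ‖h w‖ ≤ K) →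
    ∃ (c : ℕ → MvPolynomial (Fin 1) ℂ) (R : ℝ), 0 ≤ R ∧ HomExp (Metric.ball 0 1) h c ∧
      Causal (MvPolynomial.aeval (fun _ : Fin 1 => (1 : ℂ))).toLinearMap c R

/-- J5, Banach spaces closed under products -/
def AlgStmt : Prop :=
  ∀ (d : ℕ) (Ω : Set (Fin d → ℂ)) (Y : Type) (_ : NormedAddCommGroup Y) (_ : NormedSpace ℂ Y)
    (_ : CompleteSpace Y) (B : AnSpace d Ω Y),
    (∀ x y : Y, ∃ z : Y, ∀ w ∈ Ω, B.fn z w = B.fn x w * B.fn y w) → B.CP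

/-- J6, the algebra case on the disc -/
def DiscAlgStmt : Prop :=
  ∀ (Y : Type) (_ : NormedAddCommGroup Y) (_ : InnerProductSpace ℂ Y) (_ : CompleteSpace Y)
    (B : AnSpace 1 (Metric.ball 0 1) Y), B.Graded →
    PolyGrowth (fun n => ‖B.poly (MvPolynomial.X 0 ^ n)‖) →
    Summable (fun n => (‖B.poly (MvPolynomial.X 0 ^ n)‖ ^ 2)⁻¹) →
    ∀ x y : Y, ∃ z : Y, ∀ w ∈ Metric.ball (0 : Fin 1 → ℂ) 1, B.fn z w = B.fn x w * B.fn y w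

/-- J7, membership in the closed orbit -/
def MemStmt : Prop :=
  ∀ (d : ℕ) (Ω : Set (Fin d → ℂ)), Balanced ℂ Ω → ∀ (Y : Type) (_ : NormedAddCommGroup Y)
    (_ : InnerProductSpace ℂ Y) (_ : CompleteSpace Y) (B : AnSpace d Ω Y), B.Graded →
    ∀ (V : Type) (_ : NormedAddCommGroup V) (_ : NormedSpace ℂ V)
    (ι : MvPolynomial (Fin d) ℂ →ₗ[ℂ] V) (β : ℕ → ℝ), (∀ n, 0 < β n) → PolyGrowth β →
    (∀ n P, P.IsHomogeneous n → ‖B.poly P‖ = β n * ‖ι P‖) →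
    ∀ C : ℝ, 0 ≤ C → (∃ᶠ N in atTop, Good β C N) →
    ∀ (h : (Fin d → ℂ) → ℂ) (c : ℕ → MvPolynomial (Fin d) ℂ) (R : ℝ), 0 ≤ R → HomExp Ω h c →
    Causal ι c R → ∀ g x : Y, (∀ w ∈ Ω, B.fn x w = h w * B.fn g w) → x ∈ closure (B.orbit g)

/-- the theorem -/
def Final : Prop :=
  (∀ (d : ℕ) (Ω : Set (Fin d → ℂ)) (Y : Type) (_ : NormedAddCommGroup Y) (_ : NormedSpace ℂ Y)
    (_ : CompleteSpace Y) (B : AnSpace d Ω Y),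
    (∀ x y : Y, ∃ z : Y, ∀ w ∈ Ω, B.fn z w = B.fn x w * B.fn y w) → B.CP) ∧
  (∀ (d : ℕ) (Ω : Set (Fin d → ℂ)) (H Y : Type) (_ : NormedAddCommGroup H)
    (_ : InnerProductSpace ℂ H) (_ : CompleteSpace H) (_ : NormedAddCommGroup Y)
    (_ : InnerProductSpace ℂ Y) (_ : CompleteSpace Y) (A : AnSpace d Ω H) (B : AnSpace d Ω Y)
    (β : ℕ → ℝ) (s : ℝ), Balanced ℂ Ω → A.Graded → A.HInfMultiplier → B.Graded →
    (∀ n, 0 < β n) → (∀ n P, P.IsHomogeneous n → ‖B.poly P‖ = β n * ‖A.poly P‖) →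
    PolyGrowth β → s < 1 → ¬ Tendsto (fun n : ℕ => β n / (n : ℝ) ^ s) atTop atTop → B.CP) ∧
  (∀ (Y : Type) (_ : NormedAddCommGroup Y) (_ : InnerProductSpace ℂ Y) (_ : CompleteSpace Y)
    (B : AnSpace 1 (Metric.ball 0 1) Y),
    (∀ m n : ℕ, m ≠ n → inner ℂ (B.poly (MvPolynomial.X 0 ^ m))
      (B.poly (MvPolynomial.X 0 ^ n)) = 0) →
    PolyGrowth (fun n => ‖B.poly (MvPolynomial.X 0 ^ n)‖) → B.CP)

end Pool.Agent.RadCP
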