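import Pool.Agent.RadCP.Defs

set_option autoImplicit false

/-! Radial weights, second series of targets: averages of trapezoids. -/

open Filter Topology Finset

namespace Pool.Agent.RadCP

open Pool.Agent.CycP Pool.Agent.CycP.AnSpace

/-- the weight of a dyadic block -/
noncomputable def rr (β : ℕ → ℝ) (i : ℕ) : ℝ := 4 ^ i / β (2 ^ i) ^ 2

/-- the sum of the weights -/
noncomputable def RR (β : ℕ → ℝ) (l : ℕ) : ℝ := ∑ i ∈ range (l + 1), rr β i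

/-- ERR2, the error term of the trapezoid at `2 ^ l` -/
def Err2Stmt : Prop :=
  ∀ (V : Type) (_ : NormedAddCommGroup V) (_ : NormedSpace ℝ V) (p : ℕ → ℕ → V) (G β : ℕ → ℝ)
    (R K : ℝ) (κ : ℕ), Sys V p G β R K κ → ∀ l M : ℕ,
    ∑ n ∈ range M, β n ^ 2 * ‖∑ j ∈ range (n + 1),
      (if j < 2 ^ l then trap (2 ^ l) (n - j) - trap (2 ^ l) n else 0) • p (n - j) j‖ ^ 2 ≤
      (K * 3 ^ κ) ^ 4 * R ^ 2 * (RR β l / rr β l) * ∑ j ∈ range (2 ^ l), β j ^ 2 * G j ^ 2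

/-- the average of the trapezoids -/
noncomputable def avg (c : ℕ → ℝ) (a b k : ℕ) : ℝ := ∑ l ∈ Ico a b, c l * trap (2 ^ l) k

/-- CORE2, the core inequality for averages -/
def Core2Stmt : Prop :=
  ∀ (V : Type) (_ : NormedAddCommGroup V) (_ : NormedSpace ℝ V) (p : ℕ → ℕ → V) (G β : ℕ → ℝ)
    (R K : ℝ) (κ : ℕ), Sys V p G β R K κ → ∀ (c : ℕ → ℝ) (a b : ℕ), (∀ l, 0 ≤ c l) →
    ∑ l ∈ Ico a b, c l = 1 → ∑ l ∈ Ico a b, c l ^ 2 * (RR β l / rr β l) ≤ 1 →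
    ∀ (Ax Bg : ℝ),
    (∀ M, ∑ n ∈ range M, β n ^ 2 * ‖∑ j ∈ range (n + 1), p (n - j) j‖ ^ 2 ≤ Ax) →
    (∀ M, ∑ n ∈ range M, β n ^ 2 * G n ^ 2 ≤ Bg) →
    ∀ M, ∑ n ∈ range M, β n ^ 2 * ‖∑ j ∈ range (n + 1), avg c a b (n - j) • p (n - j) j‖ ^ 2 ≤
      6 * (Ax + 10 * (R ^ 2 * (K * 3 ^ κ) ^ 2 * Bg)) + 4 * ((K * 3 ^ κ) ^ 4 * R ^ 2 * Bg)

/-- DINI, choice of the weights -/
def DiniStmt : Prop :=
  ∀ (β : ℕ → ℝ), (∀ n, 0 < β n) → PolyGrowth β → ¬ Summable (fun n : ℕ => (n : ℝ) / β n ^ 2) →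
    ∀ a : ℕ, ∃ (b : ℕ) (c : ℕ → ℝ), (∀ l, 0 ≤ c l) ∧ ∑ l ∈ Ico a b, c l = 1 ∧
      ∑ l ∈ Ico a b, c l ^ 2 * (RR β l / rr β l) ≤ 1

/-- MEM2, membership in the closed orbit -/
def Mem2Stmt : Prop :=
  ∀ (d : ℕ) (Ω : Set (Fin d → ℂ)), Balanced ℂ Ω → ∀ (Y : Type) (_ : NormedAddCommGroup Y)
    (_ : InnerProductSpace ℂ Y) (_ : CompleteSpace Y) (B : AnSpace d Ω Y), B.Graded →
    ∀ (V : Type) (_ : NormedAddCommGroup V) (_ : NormedSpace ℂ V)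
    (ι : MvPolynomial (Fin d) ℂ →ₗ[ℂ] V) (β : ℕ → ℝ), (∀ n, 0 < β n) → PolyGrowth β →
    (∀ n P, P.IsHomogeneous n → ‖B.poly P‖ = β n * ‖ι P‖) →
    ¬ Summable (fun n : ℕ => (n : ℝ) / β n ^ 2) →
    ∀ (h : (Fin d → ℂ) → ℂ) (c : ℕ → MvPolynomial (Fin d) ℂ) (R : ℝ), 0 ≤ R → HomExp Ω h c →
    Causal ι c R → ∀ g x : Y, (∀ w ∈ Ω, B.fn x w = h w * B.fn g w) → x ∈ closure (B.orbit g)

/-- SUB2, closure under products -/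
def Sub2Stmt : Prop :=
  ∀ (d : ℕ) (Ω : Set (Fin d → ℂ)) (Y : Type) (_ : NormedAddCommGroup Y)
    (_ : InnerProductSpace ℂ Y) (_ : CompleteSpace Y) (B : AnSpace d Ω Y), B.Graded →
    ∀ (V : Type) (_ : NormedAddCommGroup V) (_ : NormedSpace ℂ V)
    (ι : MvPolynomial (Fin d) ℂ →ₗ[ℂ] V) (β : ℕ → ℝ), (∀ n, 0 < β n) → PolyGrowth β →
    (∀ n P, P.IsHomogeneous n → ‖B.poly P‖ = β n * ‖ι P‖) →
    Summable (fun n : ℕ => (n : ℝ) / β n ^ 2) → ∀ C : ℝ,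
    (∀ (j k : ℕ) (P Q : MvPolynomial (Fin d) ℂ), P.IsHomogeneous j → Q.IsHomogeneous k →
      ‖ι (P * Q)‖ ≤ C * √(j + 1) * (‖ι P‖ * ‖ι Q‖)) →
    ∀ x y : Y, ∃ z : Y, ∀ w ∈ Ω, B.fn z w = B.fn x w * B.fn y w

end Pool.Agent.RadCP
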