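import Pool.Agent.RadCP.Defs2

set_option autoImplicit false

/-! Choice of the weights. -/

open Filter Topology Finset

namespace Pool.Agent.RadCP

namespace DiniH_

lemma rr_pos {β : ℕ → ℝ} (hβ : ∀ n, 0 < β n) (i : ℕ) : 0 < rr β i := by
  unfold rr
  have := hβ (2 ^ i)
  positivity

lemma RR_succ (β : ℕ → ℝ) (i : ℕ) : RR β (i + 1) = RR β i + rr β (i + 1) := by
  unfold RR
  rw [sum_range_succ]

lemma RR_pos {β : ℕ → ℝ} (hβ : ∀ n, 0 < β n) (i : ℕ) : 0 < RR β i :=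
  sum_pos (fun j _ => rr_pos hβ j) ⟨0, by simp⟩

lemma RR_mono {β : ℕ → ℝ} (hβ : ∀ n, 0 < β n) : Monotone (RR β) :=
  monotone_nat_of_le_succ fun i => by
    rw [RR_succ]
    have := rr_pos hβ (i + 1)
    linarith

lemma block {β : ℕ → ℝ} (hβ : ∀ n, 0 < β n) {K : ℝ} {κ : ℕ}
    (hK : ∀ n m : ℕ, 1 ≤ n → n ≤ m → β m ≤ K * ((m : ℝ) / n) ^ κ * β n) (hK0 : 0 ≤ K) (i : ℕ) :
    ∑ n ∈ range (2 ^ i), (n : ℝ) / β n ^ 2 ≤ (K * 2 ^ κ) ^ 2 / 2 * RR β i := by
  induction i with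
  | zero =>
    have := RR_pos hβ 0
    simp
    positivity
  | succ i ih =>
    rw [← sum_range_add_sum_Ico _ (Nat.pow_le_pow_right (by norm_num : 0 < 2) (Nat.le_succ i)),
      RR_succ, mul_add]
    refine add_le_add ih ?_
    have h1 : ∀ n ∈ Ico (2 ^ i : ℕ) (2 ^ (i + 1)), (n : ℝ) / β n ^ 2 ≤
        2 ^ (i + 1) * (K * 2 ^ κ) ^ 2 / β (2 ^ (i + 1)) ^ 2 := by
      intro n hn
      rw [mem_Ico] at hn
      have h2 : 1 ≤ n := Nat.one_le_two_pow.trans hn.1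
      have hn0 : (0 : ℝ) < n := by exact_mod_cast h2
      have h3 := hK n (2 ^ (i + 1)) h2 hn.2.le
      have h4 : (((2 ^ (i + 1) : ℕ) : ℝ) / n) ≤ 2 := by
        rw [div_le_iff₀ hn0]
        have : (((2 ^ (i + 1) : ℕ) : ℝ)) = 2 * (2 ^ i : ℕ) := by push_cast; ring
        rw [this]
        have h5 : (((2 ^ i : ℕ) : ℝ)) ≤ n := by exact_mod_cast hn.1
        linarith
      have h5 : (((2 ^ (i + 1) : ℕ) : ℝ) / n) ^ κ ≤ 2 ^ κ := pow_le_pow_left₀ (by positivity) h4 κ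
      have hb := hβ n
      have hb2 := hβ (2 ^ (i + 1))
      have h6 : β (2 ^ (i + 1)) ≤ K * 2 ^ κ * β n := by
        refine h3.trans ?_
        gcongr
      have h7 : β (2 ^ (i + 1)) ^ 2 ≤ (K * 2 ^ κ) ^ 2 * β n ^ 2 := by
        rw [← mul_pow]
        exact pow_le_pow_left₀ hb2.le h6 2
      have h8 : (n : ℝ) ≤ 2 ^ (i + 1) := by
        have : ((n : ℕ) : ℝ) ≤ ((2 ^ (i + 1) : ℕ) : ℝ) := by exact_mod_cast hn.2.le
        push_cast at this
        exact this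
      rw [div_le_div_iff₀ (by positivity) (by positivity)]
      calc (n : ℝ) * β (2 ^ (i + 1)) ^ 2 ≤ 2 ^ (i + 1) * ((K * 2 ^ κ) ^ 2 * β n ^ 2) := by
            gcongr
        _ = _ := by ring
    refine (sum_le_card_nsmul _ _ _ h1).trans (le_of_eq ?_)
    have hb2 := (hβ (2 ^ (i + 1))).ne'
    rw [Nat.card_Ico, nsmul_eq_mul, show 2 ^ (i + 1) - 2 ^ i = 2 ^ i by rw [pow_succ]; omega]
    unfold rr
    have h4 : (4 : ℝ) ^ (i + 1) = 2 ^ (i + 1) * 2 ^ (i + 1) := by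
      rw [← mul_pow]
      norm_num
    rw [h4]
    push_cast
    field_simp
    ring

lemma unbounded {β : ℕ → ℝ} (hβ : ∀ n, 0 < β n) (hgr : PolyGrowth β)
    (hdiv : ¬ Summable (fun n : ℕ => (n : ℝ) / β n ^ 2)) (C : ℝ) : ∃ i, C ≤ RR β i := by
  obtain ⟨K, κ, hK⟩ := hgr
  have hK0 : 0 ≤ K := by
    have h1 := hK 1 1 le_rfl le_rfl
    have h2 := hβ 1
    by_contra h3
    rw [not_le] at h3
    simp at h1
    nlinarith
  by_contra h
  push Not at h
  apply hdiv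
  refine summable_of_sum_range_le (c := (K * 2 ^ κ) ^ 2 / 2 * C) (fun n => ?_) fun n => ?_
  · have := hβ n
    positivity
  · refine le_trans (sum_le_sum_of_subset_of_nonneg (range_mono (Nat.lt_two_pow_self (n := n)).le)
      fun i _ _ => ?_) ((block hβ hK hK0 n).trans ?_)
    · have := hβ i
      positivity
    · exact mul_le_mul_of_nonneg_left (h n).le (by positivity)

lemma half {β : ℕ → ℝ} (hβ : ∀ n, 0 < β n) (hgr : PolyGrowth β)
    (hdiv : ¬ Summable (fun n : ℕ => (n : ℝ) / β n ^ 2)) (x : ℕ) :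
    ∃ y, x < y ∧ 1 / 2 ≤ ∑ l ∈ Ico (x + 1) (y + 1), rr β l / RR β l := by
  obtain ⟨y, hy⟩ := unbounded hβ hgr hdiv (2 * RR β x)
  have hx := RR_pos hβ x
  have hxy : x < y := by
    by_contra h
    rw [not_lt] at h
    have := RR_mono hβ h
    linarith
  refine ⟨y, hxy, ?_⟩
  have hy0 := RR_pos hβ y
  have h1 : ∑ l ∈ Ico (x + 1) (y + 1), rr β l = RR β y - RR β x := by
    unfold RR
    rw [← sum_range_add_sum_Ico _ (show x + 1 ≤ y + 1 by omega)]
    ring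
  have h2 : (RR β y - RR β x) / RR β y ≤ ∑ l ∈ Ico (x + 1) (y + 1), rr β l / RR β l := by
    rw [← h1, sum_div]
    refine sum_le_sum fun l hl => ?_
    rw [mem_Ico] at hl
    exact div_le_div_of_nonneg_left (rr_pos hβ l).le (RR_pos hβ l) (RR_mono hβ (by omega))
  refine le_trans ?_ h2
  rw [div_le_div_iff₀ (by norm_num) hy0]
  linarith

end DiniH_

open DiniH_ in
theorem diniH : DiniStmt := by
  intro β hβ hgr hdiv a
  obtain ⟨y, hy1, hy2⟩ := half hβ hgr hdiv a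
  obtain ⟨z, hz1, hz2⟩ := half hβ hgr hdiv y
  set Z : ℝ := ∑ l ∈ Ico a (z + 1), rr β l / RR β l with hZ
  have hpos : ∀ l, 0 < rr β l / RR β l := fun l => div_pos (rr_pos hβ l) (RR_pos hβ l)
  have hZ1 : 1 ≤ Z := by
    rw [hZ, ← sum_Ico_consecutive _ (show a ≤ a + 1 by omega) (show a + 1 ≤ z + 1 by omega),
      ← sum_Ico_consecutive _ (show a + 1 ≤ y + 1 by omega) (show y + 1 ≤ z + 1 by omega)]
    have : 0 ≤ ∑ l ∈ Ico a (a + 1), rr β l / RR β l := sum_nonneg fun l _ => (hpos l).le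
    linarith
  have hZ0 : 0 < Z := by linarith
  refine ⟨z + 1, fun l => rr β l / RR β l / Z, fun l => div_nonneg (hpos l).le hZ0.le, ?_, ?_⟩
  · rw [← sum_div, ← hZ, div_self hZ0.ne']
  · have h1 : ∀ l ∈ Ico a (z + 1), (rr β l / RR β l / Z) ^ 2 * (RR β l / rr β l) =
        (rr β l / RR β l) / Z ^ 2 := by
      intro l _
      have h2 := (rr_pos hβ l).ne'
      have h3 := (RR_pos hβ l).ne'
      field_simp
    rw [sum_congr rfl h1, ← sum_div, ← hZ, div_le_one (by positivity)]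
    nlinarith

end Pool.Agent.RadCP
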