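import Pool.Agent.RadCP.Defs

set_option autoImplicit false

/-! Bounded analytic functions on the unit disc act contractively on the square summable
sequences. -/

open Filter Topology Finset ComplexConjugate

namespace Pool.Agent.RadCP

open Pool.Agent.CycP Pool.Agent.CycP.AnSpace

namespace Disc_

lemma orth {m : ℕ} (hm : m ≠ 0) {ζ : ℂ} (hζ : IsPrimitiveRoot ζ m) {n l : ℕ} (hn : n < m)
    (hl : l < m) :
    ∑ k ∈ range m, (ζ ^ k) ^ n * conj ((ζ ^ k) ^ l) = if n = l then (m : ℂ) else 0 := by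
  have h0 : ‖ζ‖ = 1 := hζ.norm'_eq_one hm
  have hζ0 : ζ ≠ 0 := by
    intro h
    rw [h, norm_zero] at h0
    exact zero_ne_one h0
  have hc : conj ζ = ζ⁻¹ := (Complex.inv_eq_conj h0).symm
  have h1 : ∀ k ∈ range m, (ζ ^ k) ^ n * conj ((ζ ^ k) ^ l) = (ζ ^ n * (ζ ^ l)⁻¹) ^ k := by
    intro k _
    rw [map_pow, map_pow, hc, mul_pow, inv_pow, inv_pow, inv_pow, ← pow_mul, ← pow_mul,
      ← pow_mul, ← pow_mul, mul_comm k n, mul_comm k l]
  rw [sum_congr rfl h1]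
  split_ifs with h
  · subst h
    rw [mul_inv_cancel₀ (pow_ne_zero _ hζ0)]
    simp
  · have hq : ζ ^ n * (ζ ^ l)⁻¹ ≠ 1 := by
      intro hq
      apply h
      apply hζ.pow_inj hn hl
      field_simp at hq
      exact hq
    rw [geom_sum_eq hq, mul_pow, inv_pow, ← pow_mul, ← pow_mul, mul_comm n m, mul_comm l m,
      pow_mul, pow_mul, hζ.pow_eq_one]
    simp

lemma parseval {m : ℕ} (hm : m ≠ 0) {ζ : ℂ} (hζ : IsPrimitiveRoot ζ m) (b : ℕ → ℂ) :
    ∑ k ∈ range m, ‖∑ n ∈ range m, b n * (ζ ^ k) ^ n‖ ^ 2 = m * ∑ n ∈ range m, ‖b n‖ ^ 2 := by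
  have h1 : ∀ z : ℂ, ((‖z‖ ^ 2 : ℝ) : ℂ) = z * conj z := fun z => by
    rw [Complex.mul_conj, Complex.normSq_eq_norm_sq]
  have h2 : (((∑ k ∈ range m, ‖∑ n ∈ range m, b n * (ζ ^ k) ^ n‖ ^ 2 : ℝ)) : ℂ) =
      ((m * ∑ n ∈ range m, ‖b n‖ ^ 2 : ℝ) : ℂ) := by
    rw [Complex.ofReal_sum, Complex.ofReal_mul, Complex.ofReal_sum, Complex.ofReal_natCast]
    simp only [h1, map_sum, map_mul, sum_mul_sum]
    rw [sum_comm, mul_sum]
    refine sum_congr rfl fun n hn => ?_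
    rw [sum_comm]
    have h3 : ∀ l ∈ range m, ∑ k ∈ range m, b n * (ζ ^ k) ^ n * (conj (b l) * conj ((ζ ^ k) ^ l)) =
        if n = l then b n * conj (b l) * m else 0 := by
      intro l hl
      have h4 := orth hm hζ (mem_range.1 hn) (mem_range.1 hl)
      have h5 : ∀ k ∈ range m, b n * (ζ ^ k) ^ n * (conj (b l) * conj ((ζ ^ k) ^ l)) =
          b n * conj (b l) * ((ζ ^ k) ^ n * conj ((ζ ^ k) ^ l)) := fun k _ => by ring
      rw [sum_congr rfl h5, ← mul_sum, h4]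
      split_ifs <;> simp
    rw [sum_congr rfl h3, sum_ite_eq, if_pos hn]
    ring
  exact_mod_cast h2

open Polynomial in
lemma poly_bound (A G : ℂ[X]) {K : ℝ} (hK : ∀ z : ℂ, ‖z‖ = 1 → ‖A.eval z‖ ≤ K) (M : ℕ)
    (hG : G.natDegree < M) :
    ∑ n ∈ range M, ‖(A * G).coeff n‖ ^ 2 ≤ K ^ 2 * ∑ j ∈ range M, ‖G.coeff j‖ ^ 2 := by
  have hK0 : 0 ≤ K := (norm_nonneg _).trans (hK 1 (by simp))
  set m := A.natDegree + M + 1 with hmdef
  have hm : m ≠ 0 := by omega
  have hζ := Complex.isPrimitiveRoot_exp m hm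
  set ζ := Complex.exp (2 * Real.pi * Complex.I / m) with hζdef
  have h0 : ‖ζ‖ = 1 := hζ.norm'_eq_one hm
  have h1 := parseval hm hζ (fun n => (A * G).coeff n)
  have h2 := parseval hm hζ (fun n => G.coeff n)
  have hd : (A * G).natDegree < m := (natDegree_mul_le).trans_lt (by omega)
  have e1 : ∀ x : ℂ, ∑ n ∈ range m, (A * G).coeff n * x ^ n = A.eval x * G.eval x := fun x => by
    rw [← eval_mul, eval_eq_sum_range' hd]
  have e2 : ∀ x : ℂ, ∑ n ∈ range m, G.coeff n * x ^ n = G.eval x := fun x => by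
    rw [eval_eq_sum_range' (show G.natDegree < m by omega)]
  simp only [e1] at h1
  simp only [e2] at h2
  have h3 : (m : ℝ) * ∑ n ∈ range m, ‖(A * G).coeff n‖ ^ 2 ≤
      K ^ 2 * (m * ∑ n ∈ range m, ‖G.coeff n‖ ^ 2) := by
    rw [← h1, ← h2, mul_sum]
    refine sum_le_sum fun k _ => ?_
    rw [norm_mul, mul_pow]
    have h4 : ‖ζ ^ k‖ = 1 := by rw [norm_pow, h0, one_pow]
    have h5 := hK _ h4
    gcongr
  have hm' : (0 : ℝ) < m := by
    have : 0 < m := by omega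
    exact_mod_cast this
  have h4 : ∑ n ∈ range m, ‖(A * G).coeff n‖ ^ 2 ≤ K ^ 2 * ∑ n ∈ range m, ‖G.coeff n‖ ^ 2 := by
    have h5 : (m : ℝ) * ∑ n ∈ range m, ‖(A * G).coeff n‖ ^ 2 ≤
        m * (K ^ 2 * ∑ n ∈ range m, ‖G.coeff n‖ ^ 2) := by
      refine h3.trans (le_of_eq ?_)
      ring
    exact le_of_mul_le_mul_left h5 hm'
  have h5 : ∑ n ∈ range m, ‖G.coeff n‖ ^ 2 = ∑ j ∈ range M, ‖G.coeff j‖ ^ 2 := by
    symm
    apply sum_subset
    · intro j hj
      rw [mem_range] at hj ⊢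
      omega
    · intro j _ hj
      rw [mem_range, not_lt] at hj
      rw [coeff_eq_zero_of_natDegree_lt (hG.trans_le hj)]
      simp
  rw [h5] at h4
  refine le_trans ?_ h4
  apply sum_le_sum_of_subset_of_nonneg
  · intro j hj
    rw [mem_range] at hj ⊢
    omega
  · intro j _ _
    positivity

open Polynomial in
lemma coeff_sum (a : ℕ → ℂ) (N k : ℕ) :
    (∑ i ∈ range N, C (a i) * X ^ i : ℂ[X]).coeff k = if k < N then a k else 0 := by
  rw [finsetSum_coeff]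
  simp only [coeff_C_mul_X_pow]
  rw [sum_ite_eq]
  simp [mem_range]

open Polynomial in
lemma toeplitz_aux {a g : ℕ → ℂ} {K : ℝ} {N M : ℕ} (hNM : M ≤ N)
    (hK : ∀ z : ℂ, ‖z‖ = 1 → ‖∑ k ∈ range N, a k * z ^ k‖ ≤ K) :
    ∑ n ∈ range M, ‖∑ j ∈ range (n + 1), a (n - j) * g j‖ ^ 2 ≤
      K ^ 2 * ∑ j ∈ range M, ‖g j‖ ^ 2 := by
  rcases Nat.eq_zero_or_pos M with rfl | hM
  · simp
  have h1 := poly_bound (∑ i ∈ range N, C (a i) * X ^ i) (∑ i ∈ range M, C (g i) * X ^ i)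
    (K := K) (fun z hz => by
      rw [eval_finsetSum]
      simp only [eval_mul, eval_C, eval_pow, eval_X]
      exact hK z hz) M (by
      have h0 : (∑ i ∈ range M, C (g i) * X ^ i : ℂ[X]).natDegree ≤ M - 1 :=
        natDegree_le_iff_coeff_eq_zero.2 fun k hk => by rw [coeff_sum, if_neg (by omega)]
      omega)
  have h2 : ∀ j ∈ range M, ‖(∑ i ∈ range M, C (g i) * X ^ i : ℂ[X]).coeff j‖ ^ 2 =
      ‖g j‖ ^ 2 := by
    intro j hj
    rw [coeff_sum, if_pos (mem_range.1 hj)]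
  rw [sum_congr rfl h2] at h1
  refine le_trans (le_of_eq ?_) h1
  refine sum_congr rfl fun n hn => ?_
  rw [mem_range] at hn
  rw [coeff_mul, Finset.Nat.sum_antidiagonal_eq_sum_range_succ
    (f := fun i j => (∑ i ∈ range N, C (a i) * X ^ i : ℂ[X]).coeff i *
      (∑ i ∈ range M, C (g i) * X ^ i : ℂ[X]).coeff j)]
  congr 2
  rw [← sum_range_reflect]
  refine sum_congr rfl fun j hj => ?_
  rw [mem_range] at hj
  rw [coeff_sum, coeff_sum, if_pos (by omega), if_pos (by omega)]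
  congr 2
  omega

lemma toeplitz {f : ℂ → ℂ} {a : ℕ → ℂ} (g : ℕ → ℂ) {K : ℝ}
    (ha : ∀ z : ℂ, ‖z‖ < 1 → HasSum (fun k => a k * z ^ k) (f z))
    (hK : ∀ z : ℂ, ‖z‖ < 1 → ‖f z‖ ≤ K) (M : ℕ) :
    ∑ n ∈ range M, ‖∑ j ∈ range (n + 1), a (n - j) * g j‖ ^ 2 ≤
      K ^ 2 * ∑ j ∈ range M, ‖g j‖ ^ 2 := by
  have key : ∀ r ε : ℝ, 0 < r → r < 1 → 0 < ε →
      ∑ n ∈ range M, ‖∑ j ∈ range (n + 1), a (n - j) * (r : ℂ) ^ (n - j) * g j‖ ^ 2 ≤
      (K + ε) ^ 2 * ∑ j ∈ range M, ‖g j‖ ^ 2 := by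
    intro r ε hr0 hr1 hε
    have hrn : ‖(r : ℂ)‖ = r := by rw [Complex.norm_real, Real.norm_of_nonneg hr0.le]
    have hs : Summable fun k => ‖a k‖ * r ^ k := by
      have h1 := (ha r (by rw [hrn]; exact hr1)).summable.norm
      refine h1.congr fun k => ?_
      rw [norm_mul, norm_pow, hrn]
    have ht := tendsto_sum_nat_add fun k => ‖a k‖ * r ^ k
    obtain ⟨N₀, hN₀⟩ := (ht.eventually (gt_mem_nhds hε)).exists_forall_of_atTop
    set N := max N₀ M with hN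
    have hN1 := hN₀ N (le_max_left _ _)
    refine toeplitz_aux (a := fun k => a k * (r : ℂ) ^ k) (le_max_right N₀ M) fun z hz => ?_
    have hrz : ‖(r : ℂ) * z‖ < 1 := by rw [norm_mul, hrn, hz, mul_one]; exact hr1
    have h1 := ha _ hrz
    have h2 := h1.summable.sum_add_tsum_nat_add N
    rw [h1.tsum_eq] at h2
    have h3 : ∑ k ∈ range N, a k * (r : ℂ) ^ k * z ^ k =
        f (r * z) - ∑' k, a (k + N) * ((r : ℂ) * z) ^ (k + N) := by
      rw [← h2, add_sub_cancel_right]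
      refine sum_congr rfl fun k _ => ?_
      rw [mul_pow]
      ring
    rw [h3]
    refine (norm_sub_le _ _).trans (add_le_add (hK _ hrz) ?_)
    have h4 : Summable fun k => ‖a (k + N)‖ * r ^ (k + N) := (summable_nat_add_iff N).2 hs
    refine (tsum_of_norm_bounded h4.hasSum fun k => le_of_eq ?_).trans hN1.le
    rw [norm_mul, norm_pow, norm_mul, hrn, hz, mul_one]
  have h1 : Tendsto (fun n : ℕ => 1 - 1 / ((n : ℝ) + 2)) atTop (𝓝 1) := by
    have h2 : Tendsto (fun n : ℕ => (1 : ℝ) / (n + 2)) atTop (𝓝 0) := by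
      have h3 := (tendsto_one_div_add_atTop_nhds_zero_nat (𝕜 := ℝ)).comp (tendsto_add_atTop_nat 1)
      refine h3.congr fun n => ?_
      simp only [Function.comp_apply]
      push_cast
      ring
    have h4 := h2.const_sub 1
    rwa [sub_zero] at h4
  have h2 : Continuous fun r : ℝ =>
      ∑ n ∈ range M, ‖∑ j ∈ range (n + 1), a (n - j) * (r : ℂ) ^ (n - j) * g j‖ ^ 2 := by
    fun_prop
  have h3 := (h2.tendsto 1).comp h1
  have h4 : Tendsto (fun n : ℕ => (K + 1 / ((n : ℝ) + 1)) ^ 2 * ∑ j ∈ range M, ‖g j‖ ^ 2) atTop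
      (𝓝 ((K + 0) ^ 2 * ∑ j ∈ range M, ‖g j‖ ^ 2)) :=
    (((tendsto_one_div_add_atTop_nhds_zero_nat (𝕜 := ℝ)).const_add K).pow 2).mul_const _
  have h5 := le_of_tendsto_of_tendsto' h3 h4 fun n => by
    have h6 : (0 : ℝ) < 1 / ((n : ℝ) + 2) := by positivity
    have h7 : (1 : ℝ) / ((n : ℝ) + 2) < 1 := by
      rw [div_lt_one (by positivity)]
      have : (0 : ℝ) ≤ n := Nat.cast_nonneg n
      linarith
    exact key _ _ (by linarith) (by linarith) (by positivity)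
  simp only [Complex.ofReal_one, one_pow, mul_one, add_zero] at h5
  exact h5

end Disc_

open Disc_ in
theorem disc : DiscStmt := by
  intro h hh K hK
  set L : ℂ →L[ℂ] (Fin 1 → ℂ) := ContinuousLinearMap.pi fun _ => ContinuousLinearMap.id ℂ ℂ
    with hL
  have hLa : ∀ z, L z = fun _ => z := fun z => rfl
  have hLn : ∀ z : ℂ, ‖z‖ < 1 → L z ∈ Metric.ball (0 : Fin 1 → ℂ) 1 := by
    intro z hz
    rw [mem_ball_zero_iff, pi_norm_lt_iff one_pos]
    intro i
    exact hz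
  set f : ℂ → ℂ := fun z => h (L z) with hf
  have hfd : DifferentiableOn ℂ f (Metric.ball 0 1) := by
    intro z hz
    rw [mem_ball_zero_iff] at hz
    exact ((hh _ (hLn z hz)).differentiableAt.comp z L.differentiableAt).differentiableWithinAt
  set a : ℕ → ℂ := fun n => ((n.factorial : ℂ))⁻¹ * iteratedDeriv n f 0 with ha
  have hsum : ∀ z : ℂ, ‖z‖ < 1 → HasSum (fun k => a k * z ^ k) (f z) := by
    intro z hz
    have h1 := Complex.hasSum_taylorSeries_on_ball hfd (mem_ball_zero_iff.2 hz)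
    have h2 : (fun n : ℕ => ((n.factorial : ℂ))⁻¹ • (z - 0) ^ n • iteratedDeriv n f 0) =
        fun k => a k * z ^ k := by
      funext n
      rw [ha, sub_zero, smul_eq_mul, smul_eq_mul]
      ring
    rw [h2] at h1
    exact h1
  have hX : ∀ w : Fin 1 → ℂ, L (w 0) = w := by
    intro w
    funext i
    rw [hLa, Fin.fin_one_eq_zero i]
  refine ⟨fun k => MvPolynomial.C (a k) * MvPolynomial.X 0 ^ k, |K|, abs_nonneg K, ⟨?_, ?_⟩, ?_⟩
  · intro k
    have h1 := (MvPolynomial.isHomogeneous_C (Fin 1) (a k)).mul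
      ((MvPolynomial.isHomogeneous_X ℂ (0 : Fin 1)).pow k)
    simpa using h1
  · intro w hw
    have hw0 : ‖w 0‖ < 1 := by
      rw [mem_ball_zero_iff] at hw
      exact (norm_le_pi_norm w 0).trans_lt hw
    have h1 := hsum (w 0) hw0
    rw [hf] at h1
    simp only [hX] at h1
    simpa using h1
  · intro P hP M
    have h1 := toeplitz (fun j => MvPolynomial.aeval (fun _ : Fin 1 => (1 : ℂ)) (P j)) hsum
      (fun z hz => hK _ (hLn z hz)) M
    rw [sq_abs]
    refine le_trans (le_of_eq ?_) h1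
    refine sum_congr rfl fun n _ => ?_
    congr 2
    simp only [AlgHom.toLinearMap_apply, map_sum, map_mul, map_pow, MvPolynomial.aeval_X,
      one_pow, mul_one, MvPolynomial.algHom_C]
    rfl

end Pool.Agent.RadCP
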