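import Pool.Agent.RadCP.Defs

set_option autoImplicit false

/-! RadCP, block ERR: the error term of the core inequality. -/

open Filter Topology Finset

namespace Pool.Agent.RadCP

open Pool.Agent.CycP Pool.Agent.CycP.AnSpace

namespace Err_

theorem trap_one {N k : ℕ} (hN : 1 ≤ N) (h : k ≤ N) : trap N k = 1 := by
  have hN' : (0 : ℝ) < N := by exact_mod_cast hN
  have h1 : (k : ℝ) / N ≤ 1 := by
    rw [div_le_one hN']
    exact_mod_cast h
  unfold trap
  rw [max_eq_right (by linarith), min_eq_left (by linarith)]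

theorem trap_zero {N k : ℕ} (hN : 1 ≤ N) (h : 2 * N ≤ k) : trap N k = 0 := by
  have hN' : (0 : ℝ) < N := by exact_mod_cast hN
  have h1 : 2 ≤ (k : ℝ) / N := by
    rw [le_div_iff₀ hN']
    exact_mod_cast h
  unfold trap
  rw [max_eq_left (by linarith), min_eq_right (by norm_num)]

theorem trap_succ {N : ℕ} (hN : 1 ≤ N) (k : ℕ) :
    0 ≤ trap N k - trap N (k + 1) ∧ trap N k - trap N (k + 1) ≤ 1 / N := by
  have hN' : (0 : ℝ) < N := by exact_mod_cast hN
  have h1 : ((k + 1 : ℕ) : ℝ) / N = (k : ℝ) / N + 1 / N := by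
    push_cast
    rw [add_div]
  have h2 : (0 : ℝ) < 1 / N := by positivity
  unfold trap
  rw [h1]
  set x := (k : ℝ) / N
  set y := (1 : ℝ) / N
  constructor
  · have : min 1 (max 0 (2 - (x + y))) ≤ min 1 (max 0 (2 - x)) :=
      min_le_min le_rfl (max_le_max le_rfl (by linarith))
    linarith
  · rcases le_total 0 (2 - x) with h | h <;> rcases le_total 0 (2 - (x + y)) with h' | h' <;>
      rcases le_total 1 (2 - x) with h3 | h3 <;> rcases le_total 1 (2 - (x + y)) with h4 | h4 <;>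
      simp only [max_eq_left, max_eq_right, min_eq_left, min_eq_right, h, h', h3, h4,
        zero_le_one] <;> linarith

theorem D_bd {N : ℕ} (hN : 1 ≤ N) (n t : ℕ) :
    0 ≤ trap N (n - (t + 1)) - trap N (n - t) ∧
      trap N (n - (t + 1)) - trap N (n - t) ≤ 1 / N := by
  rcases Nat.lt_or_ge t n with h | h
  · have h1 : n - t = (n - (t + 1)) + 1 := by omega
    rw [h1]
    exact trap_succ hN _
  · have h1 : n - t = 0 := by omega
    have h2 : n - (t + 1) = 0 := by omega
    rw [h1, h2]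
    simp

/-- the mask of the window `(t, N)` -/
noncomputable def msk (N t j : ℕ) : ℝ := if t < j ∧ j < N then 1 else 0

theorem tele {N : ℕ} (n j : ℕ) (hj : j < N) :
    trap N (n - j) - trap N n
      = ∑ t ∈ range N, (trap N (n - (t + 1)) - trap N (n - t)) * msk N t j := by
  have h1 : ∑ t ∈ range j, (trap N (n - (t + 1)) - trap N (n - t))
      = trap N (n - j) - trap N (n - 0) :=
    Finset.sum_range_sub (fun t => trap N (n - t)) j
  rw [Nat.sub_zero] at h1
  rw [← h1]
  rw [← Finset.sum_subset (Finset.range_subset_range.2 hj.le)]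
  · refine Finset.sum_congr rfl fun t ht => ?_
    rw [Finset.mem_range] at ht
    simp [msk, ht, hj]
  · intro t _ ht
    rw [Finset.mem_range] at ht
    simp [msk, ht]

theorem E_eq {V : Type} [NormedAddCommGroup V] [NormedSpace ℝ V] (p : ℕ → ℕ → V) (N n : ℕ) :
    ∑ j ∈ range (n + 1), (if j < N then trap N (n - j) - trap N n else 0) • p (n - j) j
      = ∑ t ∈ range N, (trap N (n - (t + 1)) - trap N (n - t)) •
          ∑ j ∈ range (n + 1), msk N t j • p (n - j) j := by
  have h1 : ∀ j, (if j < N then trap N (n - j) - trap N n else 0)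
      = ∑ t ∈ range N, (trap N (n - (t + 1)) - trap N (n - t)) * msk N t j := by
    intro j
    split_ifs with h
    · exact tele n j h
    · symm
      refine Finset.sum_eq_zero fun t _ => ?_
      simp [msk, h]
  simp_rw [h1, Finset.sum_smul, Finset.smul_sum]
  rw [Finset.sum_comm]
  refine Finset.sum_congr rfl fun t _ => Finset.sum_congr rfl fun j _ => ?_
  rw [mul_smul]

theorem E_zero {V : Type} [NormedAddCommGroup V] [NormedSpace ℝ V] (p : ℕ → ℕ → V) (N n : ℕ)
    (hN : 1 ≤ N) (h : n ≤ N ∨ 3 * N ≤ n) :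
    ∑ j ∈ range (n + 1), (if j < N then trap N (n - j) - trap N n else 0) • p (n - j) j = 0 := by
  refine Finset.sum_eq_zero fun j hj => ?_
  rw [Finset.mem_range] at hj
  split_ifs with hjN
  · rcases h with h | h
    · rw [trap_one hN (by omega), trap_one hN h]
      simp
    · rw [trap_zero hN (by omega), trap_zero hN (by omega)]
      simp
  · simp

end Err_

open Err_ in
theorem err : ErrStmt := by
  intro V _ _ p G β R K κ S C N M hC hG
  obtain ⟨hN, u, hu, hgood⟩ := hG
  have hN' : (0 : ℝ) < N := by exact_mod_cast hN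
  set Y : ℕ → ℕ → V := fun t n => ∑ j ∈ range (n + 1), msk N t j • p (n - j) j with hY
  set E : ℕ → V := fun n =>
    ∑ j ∈ range (n + 1), (if j < N then trap N (n - j) - trap N n else 0) • p (n - j) j with hE
  set U : ℝ := ∑ t ∈ range N, (u t)⁻¹ with hU
  have hU0 : 0 ≤ U := Finset.sum_nonneg fun t _ => (inv_pos.2 (hu t)).le
  have hnorm : ∀ n, ‖E n‖ ^ 2 ≤ (1 / (N : ℝ) ^ 2) * (U * ∑ t ∈ range N, u t * ‖Y t n‖ ^ 2) := by
    intro n
    have h1 : ‖E n‖ ≤ (1 / (N : ℝ)) * ∑ t ∈ range N, ‖Y t n‖ := by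
      simp only [hE]
      rw [E_eq, Finset.mul_sum]
      refine (norm_sum_le _ _).trans (Finset.sum_le_sum fun t _ => ?_)
      rw [norm_smul, Real.norm_of_nonneg (D_bd hN n t).1]
      exact mul_le_mul_of_nonneg_right (D_bd hN n t).2 (norm_nonneg _)
    have h2 : (∑ t ∈ range N, ‖Y t n‖) ^ 2 ≤ U * ∑ t ∈ range N, u t * ‖Y t n‖ ^ 2 := by
      refine Finset.sum_sq_le_sum_mul_sum_of_sq_eq_mul _ (fun t _ => (inv_pos.2 (hu t)).le)
        (fun t _ => mul_nonneg (hu t).le (sq_nonneg _)) (fun t _ => ?_)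
      have := (hu t).ne'
      field_simp
    calc ‖E n‖ ^ 2 ≤ ((1 / (N : ℝ)) * ∑ t ∈ range N, ‖Y t n‖) ^ 2 :=
          pow_le_pow_left₀ (norm_nonneg _) h1 2
      _ = (1 / (N : ℝ) ^ 2) * (∑ t ∈ range N, ‖Y t n‖) ^ 2 := by ring
      _ ≤ _ := mul_le_mul_of_nonneg_left h2 (by positivity)
  have hβ : ∀ n, N < n → n < 3 * N → β n ^ 2 ≤ (K * 3 ^ κ) ^ 2 * β N ^ 2 := by
    intro n h1 h2
    have h3 : β n ≤ K * 3 ^ κ * β N := by
      refine (S.grow N n hN h1.le).trans ?_
      refine mul_le_mul_of_nonneg_right ?_ (S.β0 N).le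
      refine mul_le_mul_of_nonneg_left ?_ S.K0
      refine pow_le_pow_left₀ (by positivity) ?_ κ
      rw [div_le_iff₀ hN']
      exact_mod_cast h2.le
    calc β n ^ 2 ≤ (K * 3 ^ κ * β N) ^ 2 := pow_le_pow_left₀ (S.β0 n).le h3 2
      _ = _ := by ring
  have hterm : ∀ n, β n ^ 2 * ‖E n‖ ^ 2 ≤
      (K * 3 ^ κ) ^ 2 * β N ^ 2 *
        ((1 / (N : ℝ) ^ 2) * (U * ∑ t ∈ range N, u t * ‖Y t n‖ ^ 2)) := by
    intro n
    have hpos : 0 ≤ (1 / (N : ℝ) ^ 2) * (U * ∑ t ∈ range N, u t * ‖Y t n‖ ^ 2) := by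
      refine mul_nonneg (by positivity) (mul_nonneg hU0 (Finset.sum_nonneg fun t _ => ?_))
      exact mul_nonneg (hu t).le (sq_nonneg _)
    by_cases h : N < n ∧ n < 3 * N
    · exact mul_le_mul (hβ n h.1 h.2) (hnorm n) (sq_nonneg _) (by positivity)
    · have h0 : E n = 0 := E_zero p N n hN (by omega)
      rw [h0, norm_zero]
      simp only [ne_eq, OfNat.ofNat_ne_zero, not_false_eq_true, zero_pow, mul_zero]
      exact mul_nonneg (by positivity) hpos
  have hsumY : ∑ n ∈ range M, ∑ t ∈ range N, u t * ‖Y t n‖ ^ 2 ≤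
      R ^ 2 * ∑ j ∈ range N, G j ^ 2 * ∑ t ∈ range j, u t := by
    rw [Finset.sum_comm]
    have h1 : ∀ t, ∑ n ∈ range M, u t * ‖Y t n‖ ^ 2 ≤
        u t * (R ^ 2 * ∑ j ∈ range N, msk N t j * G j ^ 2) := by
      intro t
      rw [← Finset.mul_sum]
      refine mul_le_mul_of_nonneg_left ((S.bd M (msk N t)).trans ?_) (hu t).le
      refine mul_le_mul_of_nonneg_left ?_ (sq_nonneg R)
      have h2 : ∀ j, msk N t j ^ 2 = msk N t j := by
        intro j
        unfold msk
        split_ifs <;> simp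
      have h3 : ∀ j, 0 ≤ msk N t j := by
        intro j
        unfold msk
        split_ifs <;> simp
      simp_rw [h2]
      calc ∑ j ∈ range M, msk N t j * G j ^ 2
          ≤ ∑ j ∈ range (max M N), msk N t j * G j ^ 2 :=
            Finset.sum_le_sum_of_subset_of_nonneg
              (Finset.range_subset_range.2 (le_max_left _ _))
              (fun j _ _ => mul_nonneg (h3 j) (sq_nonneg _))
        _ = ∑ j ∈ range N, msk N t j * G j ^ 2 := by
            symm
            refine Finset.sum_subset (Finset.range_subset_range.2 (le_max_right _ _)) ?_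
            intro j _ hj
            rw [Finset.mem_range] at hj
            simp [msk, hj]
    refine (Finset.sum_le_sum fun t _ => h1 t).trans (le_of_eq ?_)
    have h4 : ∀ t, u t * (R ^ 2 * ∑ j ∈ range N, msk N t j * G j ^ 2)
        = ∑ j ∈ range N, R ^ 2 * (G j ^ 2 * (msk N t j * u t)) := by
      intro t
      rw [Finset.mul_sum, Finset.mul_sum]
      refine Finset.sum_congr rfl fun j _ => ?_
      ring
    simp_rw [h4]
    rw [Finset.sum_comm, Finset.mul_sum]
    refine Finset.sum_congr rfl fun j hj => ?_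
    rw [Finset.mem_range] at hj
    rw [← Finset.mul_sum, ← Finset.mul_sum]
    congr 2
    rw [← Finset.sum_subset (Finset.range_subset_range.2 hj.le)]
    · refine Finset.sum_congr rfl fun t ht => ?_
      rw [Finset.mem_range] at ht
      simp [msk, ht, hj]
    · intro t _ ht
      rw [Finset.mem_range] at ht
      simp [msk, ht]
  have hfin : β N ^ 2 * ((1 / (N : ℝ) ^ 2) * (U * ∑ j ∈ range N, G j ^ 2 * ∑ t ∈ range j, u t)) ≤
      C * ∑ j ∈ range N, β j ^ 2 * G j ^ 2 := by
    rw [Finset.mul_sum, Finset.mul_sum, Finset.mul_sum, Finset.mul_sum]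
    refine Finset.sum_le_sum fun j hj => ?_
    rw [Finset.mem_range] at hj
    rcases Nat.eq_zero_or_pos j with h0 | h0
    · subst h0
      simp only [Finset.range_zero, Finset.sum_empty, mul_zero]
      positivity
    · have h1 := hgood j h0 hj
      have h2 : β N ^ 2 * (1 / (N : ℝ) ^ 2 * (U * (G j ^ 2 * ∑ t ∈ range j, u t)))
          = (U * (∑ t ∈ range j, u t) * β N ^ 2) * (G j ^ 2 / (N : ℝ) ^ 2) := by ring
      have h3 : C * (β j ^ 2 * G j ^ 2) =
          (C * (N : ℝ) ^ 2 * β j ^ 2) * (G j ^ 2 / (N : ℝ) ^ 2) := by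
        field_simp
      rw [h2, h3]
      exact mul_le_mul_of_nonneg_right h1 (by positivity)
  calc ∑ n ∈ range M, β n ^ 2 * ‖E n‖ ^ 2
      ≤ ∑ n ∈ range M, (K * 3 ^ κ) ^ 2 * β N ^ 2 *
          ((1 / (N : ℝ) ^ 2) * (U * ∑ t ∈ range N, u t * ‖Y t n‖ ^ 2)) :=
        Finset.sum_le_sum fun n _ => hterm n
    _ = (K * 3 ^ κ) ^ 2 * β N ^ 2 *
          ((1 / (N : ℝ) ^ 2) * (U * ∑ n ∈ range M, ∑ t ∈ range N, u t * ‖Y t n‖ ^ 2)) := by
        rw [← Finset.mul_sum, ← Finset.mul_sum, ← Finset.mul_sum]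
    _ ≤ (K * 3 ^ κ) ^ 2 * β N ^ 2 *
          ((1 / (N : ℝ) ^ 2) * (U * (R ^ 2 * ∑ j ∈ range N, G j ^ 2 * ∑ t ∈ range j, u t))) := by
        refine mul_le_mul_of_nonneg_left ?_ (by positivity)
        refine mul_le_mul_of_nonneg_left ?_ (by positivity)
        exact mul_le_mul_of_nonneg_left hsumY hU0
    _ = (K * 3 ^ κ) ^ 2 * R ^ 2 * (β N ^ 2 *
          ((1 / (N : ℝ) ^ 2) * (U * ∑ j ∈ range N, G j ^ 2 * ∑ t ∈ range j, u t))) := by ring
    _ ≤ (K * 3 ^ κ) ^ 2 * R ^ 2 * (C * ∑ j ∈ range N, β j ^ 2 * G j ^ 2) :=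
        mul_le_mul_of_nonneg_left hfin (by positivity)
    _ = _ := by ring

end Pool.Agent.RadCP
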