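import Pool.Agent.RadCP.Defs2

set_option autoImplicit false

/-! Block ERR2 of the project RadCP: the error term of the trapezoid at a power of two. -/

open Filter Topology Finset

namespace Pool.Agent.RadCP

open Pool.Agent.CycP Pool.Agent.CycP.AnSpace Finset

namespace Err2_

theorem trap_one {N k : ℕ} (hN : 1 ≤ N) (hk : k ≤ N) : trap N k = 1 := by
  unfold trap
  have hN' : (0 : ℝ) < N := by exact_mod_cast hN
  have hk' : (k : ℝ) / N ≤ 1 := by
    rw [div_le_one hN']
    exact_mod_cast hk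
  rw [max_eq_right (by linarith), min_eq_left (by linarith)]

theorem trap_zero {N k : ℕ} (hN : 1 ≤ N) (hk : 2 * N ≤ k) : trap N k = 0 := by
  unfold trap
  have hN' : (0 : ℝ) < N := by exact_mod_cast hN
  have hk' : (2 : ℝ) * N ≤ k := by exact_mod_cast hk
  have h : (2 : ℝ) ≤ k / N := by
    rw [le_div_iff₀ hN']
    exact hk'
  rw [max_eq_left (by linarith), min_eq_right zero_le_one]

theorem trap_step {N : ℕ} (hN : 1 ≤ N) (n t : ℕ) :
    (trap N (n - (t + 1)) - trap N (n - t)) ^ 2 ≤ 1 / (N : ℝ) ^ 2 := by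
  have hN' : (0 : ℝ) < N := by exact_mod_cast hN
  rcases Nat.lt_or_ge t n with h | h
  · obtain ⟨k, hk⟩ : ∃ k, n - (t + 1) = k := ⟨_, rfl⟩
    have hk2 : n - t = k + 1 := by omega
    rw [hk, hk2]
    have e : ((k + 1 : ℕ) : ℝ) / N = (k : ℝ) / N + 1 / N := by
      push_cast
      ring
    have hδ : 0 < 1 / (N : ℝ) := by positivity
    have key : 0 ≤ trap N k - trap N (k + 1) ∧ trap N k - trap N (k + 1) ≤ 1 / N := by
      unfold trap
      rw [e]
      set x : ℝ := (k : ℝ) / N
      set δ : ℝ := 1 / (N : ℝ)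
      rcases le_total (2 - x) 0 with h1 | h1
      · rw [max_eq_left h1, max_eq_left (by linarith : 2 - (x + δ) ≤ 0)]
        constructor <;> linarith
      · rw [max_eq_right h1]
        rcases le_total (2 - (x + δ)) 0 with h2 | h2
        · rw [max_eq_left h2, min_eq_right zero_le_one]
          constructor
          · have : (0 : ℝ) ≤ min 1 (2 - x) := le_min zero_le_one h1
            linarith
          · have : min 1 (2 - x) ≤ 2 - x := min_le_right _ _
            linarith
        · rw [max_eq_right h2]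
          rcases le_total 1 (2 - x) with h3 | h3
          · rw [min_eq_left h3]
            rcases le_total 1 (2 - (x + δ)) with h4 | h4
            · rw [min_eq_left h4]
              constructor <;> linarith
            · rw [min_eq_right h4]
              constructor <;> linarith
          · rw [min_eq_right h3, min_eq_right (by linarith : 2 - (x + δ) ≤ 1)]
            constructor <;> linarith
    calc (trap N k - trap N (k + 1)) ^ 2 ≤ (1 / (N : ℝ)) ^ 2 :=
          pow_le_pow_left₀ key.1 key.2 2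
      _ = 1 / (N : ℝ) ^ 2 := by rw [div_pow, one_pow]
  · have h1 : n - (t + 1) = 0 := by omega
    have h2 : n - t = 0 := by omega
    rw [h1, h2, sub_self]
    simp

/-- the mask of a pair -/
noncomputable def msk (i t j : ℕ) : ℝ :=
  if 2 ^ i ≤ j ∧ j < 2 ^ (i + 1) ∧ t < j then 1 else 0

theorem msk_sq (i t j : ℕ) : msk i t j ^ 2 = msk i t j := by
  unfold msk
  split_ifs <;> norm_num

theorem coef (m : ℕ → ℝ) (l n j : ℕ) :
    (if j < 2 ^ l then m (n - j) - m n else 0) =
      ∑ s ∈ (range l).sigma (fun i => range (2 ^ (i + 1))),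
        (m (n - (s.2 + 1)) - m (n - s.2)) * msk s.1 s.2 j := by
  rw [sum_sigma]
  rcases Nat.eq_zero_or_pos j with hj | hj
  · subst hj
    have : ∑ i ∈ range l, ∑ t ∈ range (2 ^ (i + 1)),
        (m (n - (t + 1)) - m (n - t)) * msk i t 0 = 0 := by
      refine sum_eq_zero fun i _ => sum_eq_zero fun t _ => ?_
      have : msk i t 0 = 0 := by
        unfold msk
        rw [if_neg]
        intro h
        omega
      rw [this, mul_zero]
    rw [this]
    simp
  · by_cases hjl : j < 2 ^ l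
    · rw [if_pos hjl]
      have hi1 : 2 ^ Nat.log 2 j ≤ j := Nat.pow_log_le_self 2 hj.ne'
      have hi2 : j < 2 ^ (Nat.log 2 j + 1) := Nat.lt_pow_succ_log_self one_lt_two j
      have hi3 : Nat.log 2 j < l := Nat.log_lt_of_lt_pow hj.ne' hjl
      rw [sum_eq_single_of_mem (Nat.log 2 j) (mem_range.mpr hi3)]
      · have e : ∀ t ∈ range (2 ^ (Nat.log 2 j + 1)),
            (m (n - (t + 1)) - m (n - t)) * msk (Nat.log 2 j) t j =
              if t < j then m (n - (t + 1)) - m (n - t) else 0 := by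
          intro t _
          unfold msk
          by_cases ht : t < j
          · rw [if_pos ⟨hi1, hi2, ht⟩, if_pos ht, mul_one]
          · rw [if_neg (fun h => ht h.2.2), if_neg ht, mul_zero]
        rw [sum_congr rfl e, ← sum_filter]
        have e2 : (range (2 ^ (Nat.log 2 j + 1))).filter (fun t => t < j) = range j := by
          ext t
          simp only [mem_filter, mem_range]
          constructor
          · exact fun h => h.2
          · exact fun h => ⟨h.trans hi2, h⟩
        rw [e2, sum_range_sub (fun t => m (n - t))]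
        rfl
      · intro i _ hi
        refine sum_eq_zero fun t _ => ?_
        have : msk i t j = 0 := by
          unfold msk
          rw [if_neg]
          rintro ⟨h1, h2, _⟩
          exact hi (Nat.log_eq_of_pow_le_of_lt_pow h1 h2).symm
        rw [this, mul_zero]
    · rw [if_neg hjl]
      symm
      refine sum_eq_zero fun i hi => sum_eq_zero fun t _ => ?_
      have : msk i t j = 0 := by
        unfold msk
        rw [if_neg]
        rintro ⟨_, h2, _⟩
        have : 2 ^ (i + 1) ≤ 2 ^ l :=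
          Nat.pow_le_pow_right (by norm_num) (mem_range.mp hi)
        omega
      rw [this, mul_zero]

section

variable {V : Type} [NormedAddCommGroup V] [NormedSpace ℝ V]

theorem expand (p : ℕ → ℕ → V) (m : ℕ → ℝ) (l n : ℕ) :
    ∑ j ∈ range (n + 1), (if j < 2 ^ l then m (n - j) - m n else 0) • p (n - j) j =
      ∑ s ∈ (range l).sigma (fun i => range (2 ^ (i + 1))),
        (m (n - (s.2 + 1)) - m (n - s.2)) •
          ∑ j ∈ range (n + 1), msk s.1 s.2 j • p (n - j) j := by
  simp_rw [smul_sum, smul_smul]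
  rw [sum_comm]
  refine sum_congr rfl fun j _ => ?_
  rw [coef m l n j, sum_smul]

theorem cs {ι : Type} (S : Finset ι) (v d : ι → ℝ) (y : ι → V) (hv : ∀ s ∈ S, 0 < v s) :
    ‖∑ s ∈ S, d s • y s‖ ^ 2 ≤ (∑ s ∈ S, (v s)⁻¹) * ∑ s ∈ S, v s * d s ^ 2 * ‖y s‖ ^ 2 := by
  have h1 : ‖∑ s ∈ S, d s • y s‖ ≤ ∑ s ∈ S, |d s| * ‖y s‖ := by
    refine (norm_sum_le _ _).trans (le_of_eq ?_)
    refine sum_congr rfl fun s _ => ?_
    rw [norm_smul, Real.norm_eq_abs]
  refine (pow_le_pow_left₀ (norm_nonneg _) h1 2).trans ?_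
  refine sum_sq_le_sum_mul_sum_of_sq_le_mul S (fun s hs => (inv_pos.mpr (hv s hs)).le)
    (fun s hs => by have := hv s hs; positivity) fun s hs => le_of_eq ?_
  have := (hv s hs).ne'
  rw [mul_pow, sq_abs]
  field_simp

end

end Err2_

open Err2_

theorem err2 : Err2Stmt := by
  intro V _ _ p G β R K κ hS l M
  set D : ℝ := K * 3 ^ κ with hD
  have hK := hS.K0
  have hD0 : 0 ≤ D := by rw [hD]; positivity
  set N : ℕ := 2 ^ l with hNdef
  have hN : 1 ≤ N := Nat.one_le_two_pow
  have hNr : (0 : ℝ) < N := by exact_mod_cast hN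
  have hβN : 0 < β N := hS.β0 N
  set S : Finset (Sigma fun _ : ℕ => ℕ) := (range l).sigma (fun i => range (2 ^ (i + 1)))
    with hSdef
  set v : ℕ → ℝ := fun i => β (2 ^ (i + 1)) ^ 2 / 2 ^ (i + 1) with hv
  have hv0 : ∀ i, 0 < v i := by
    intro i
    have := hS.β0 (2 ^ (i + 1))
    rw [hv]
    positivity
  set y : (Sigma fun _ : ℕ => ℕ) → ℕ → V := fun s n =>
    ∑ j ∈ range (n + 1), msk s.1 s.2 j • p (n - j) j with hy
  have hgrow : ∀ n m : ℕ, 1 ≤ n → n ≤ m → m ≤ 3 * n → β m ≤ D * β n := by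
    intro n m h1 h2 h3
    refine (hS.grow n m h1 h2).trans ?_
    have hn : (0 : ℝ) < n := by exact_mod_cast h1
    have : (m : ℝ) / n ≤ 3 := by
      rw [div_le_iff₀ hn]
      exact_mod_cast h3
    have h4 : ((m : ℝ) / n) ^ κ ≤ 3 ^ κ := pow_le_pow_left₀ (by positivity) this κ
    have := hS.β0 n
    rw [hD]
    gcongr
  -- the sum of the inverse weights
  have hRR : ∑ s ∈ S, (v s.1)⁻¹ ≤ RR β l := by
    rw [hSdef, sum_sigma]
    have e : ∀ i ∈ range l, ∑ t ∈ range (2 ^ (i + 1)), (v i)⁻¹ = rr β (i + 1) := by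
      intro i _
      rw [sum_const, card_range, nsmul_eq_mul, hv, rr]
      have := (hS.β0 (2 ^ (i + 1))).ne'
      have e4 : (4 : ℝ) ^ (i + 1) = 2 ^ (i + 1) * 2 ^ (i + 1) := by
        rw [← mul_pow]
        norm_num
      rw [e4]
      push_cast
      field_simp
    rw [sum_congr rfl e, RR, sum_range_succ']
    have : 0 ≤ rr β 0 := by
      rw [rr]
      positivity
    linarith
  have hRR0 : 0 ≤ RR β l := by
    rw [RR]
    exact sum_nonneg fun i _ => by rw [rr]; positivity
  -- the pointwise bound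
  have hpt : ∀ n, β n ^ 2 * ‖∑ j ∈ range (n + 1),
      (if j < N then trap N (n - j) - trap N n else 0) • p (n - j) j‖ ^ 2 ≤
      D ^ 2 * β N ^ 2 * RR β l * (1 / (N : ℝ) ^ 2) * ∑ s ∈ S, v s.1 * ‖y s n‖ ^ 2 := by
    intro n
    have hrhs : 0 ≤ D ^ 2 * β N ^ 2 * RR β l * (1 / (N : ℝ) ^ 2) *
        ∑ s ∈ S, v s.1 * ‖y s n‖ ^ 2 := by
      have : 0 ≤ ∑ s ∈ S, v s.1 * ‖y s n‖ ^ 2 :=
        sum_nonneg fun s _ => mul_nonneg (hv0 _).le (sq_nonneg _)
      positivity
    by_cases h1 : n ≤ N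
    · have : ∑ j ∈ range (n + 1),
          (if j < N then trap N (n - j) - trap N n else 0) • p (n - j) j = 0 := by
        refine sum_eq_zero fun j _ => ?_
        rw [trap_one hN h1, trap_one hN (by omega : n - j ≤ N), sub_self, ite_self, zero_smul]
      rw [this]
      simpa using hrhs
    by_cases h2 : 3 * N ≤ n
    · have : ∑ j ∈ range (n + 1),
          (if j < N then trap N (n - j) - trap N n else 0) • p (n - j) j = 0 := by
        refine sum_eq_zero fun j _ => ?_
        by_cases hj : j < N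
        · rw [if_pos hj, trap_zero hN (by omega : 2 * N ≤ n), trap_zero hN (by omega), sub_self,
            zero_smul]
        · rw [if_neg hj, zero_smul]
      rw [this]
      simpa using hrhs
    have hβ : β n ^ 2 ≤ D ^ 2 * β N ^ 2 := by
      rw [← mul_pow]
      exact pow_le_pow_left₀ (hS.β0 n).le (hgrow N n hN (by omega) (by omega)) 2
    have hE : ‖∑ j ∈ range (n + 1),
        (if j < N then trap N (n - j) - trap N n else 0) • p (n - j) j‖ ^ 2 ≤
        RR β l * (1 / (N : ℝ) ^ 2 * ∑ s ∈ S, v s.1 * ‖y s n‖ ^ 2) := by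
      rw [hNdef, expand p (trap (2 ^ l)) l n, ← hNdef, ← hSdef]
      refine (cs S (fun s => v s.1) (fun s => trap N (n - (s.2 + 1)) - trap N (n - s.2))
        (fun s => y s n) fun s _ => hv0 s.1).trans ?_
      have h3 : ∑ s ∈ S, v s.1 * (trap N (n - (s.2 + 1)) - trap N (n - s.2)) ^ 2 *
          ‖y s n‖ ^ 2 ≤ 1 / (N : ℝ) ^ 2 * ∑ s ∈ S, v s.1 * ‖y s n‖ ^ 2 := by
        rw [mul_sum]
        refine sum_le_sum fun s _ => ?_
        have h4 := trap_step hN n s.2
        have h5 := (hv0 s.1).le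
        calc v s.1 * (trap N (n - (s.2 + 1)) - trap N (n - s.2)) ^ 2 * ‖y s n‖ ^ 2
            ≤ v s.1 * (1 / (N : ℝ) ^ 2) * ‖y s n‖ ^ 2 := by gcongr
          _ = _ := by ring
      exact mul_le_mul hRR h3 (sum_nonneg fun s _ => by have := (hv0 s.1).le; positivity) hRR0
    calc _ ≤ (D ^ 2 * β N ^ 2) * (RR β l * (1 / (N : ℝ) ^ 2 *
          ∑ s ∈ S, v s.1 * ‖y s n‖ ^ 2)) := mul_le_mul hβ hE (sq_nonneg _) (by positivity)
      _ = _ := by ring
  -- the sum over n
  have hbd : ∀ s ∈ S, ∑ n ∈ range M, ‖y s n‖ ^ 2 ≤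
      R ^ 2 * ∑ j ∈ Ico (2 ^ s.1) (2 ^ (s.1 + 1)), G j ^ 2 := by
    intro s _
    refine (hS.bd M (msk s.1 s.2)).trans ?_
    refine mul_le_mul_of_nonneg_left ?_ (sq_nonneg R)
    have e : ∀ j ∈ range M, msk s.1 s.2 j ^ 2 * G j ^ 2 ≤
        if j ∈ Ico (2 ^ s.1) (2 ^ (s.1 + 1)) then G j ^ 2 else 0 := by
      intro j _
      unfold msk
      by_cases hj : 2 ^ s.1 ≤ j ∧ j < 2 ^ (s.1 + 1) ∧ s.2 < j
      · rw [if_pos hj, if_pos (mem_Ico.mpr ⟨hj.1, hj.2.1⟩)]
        simp
      · rw [if_neg hj]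
        split_ifs <;> simp [sq_nonneg]
    refine (sum_le_sum e).trans ?_
    rw [← sum_filter]
    refine sum_le_sum_of_subset_of_nonneg ?_ fun j _ _ => sq_nonneg _
    intro j hj
    exact (mem_filter.mp hj).2
  have htot : ∑ s ∈ S, v s.1 * ∑ n ∈ range M, ‖y s n‖ ^ 2 ≤
      R ^ 2 * D ^ 2 * ∑ j ∈ range N, β j ^ 2 * G j ^ 2 := by
    calc ∑ s ∈ S, v s.1 * ∑ n ∈ range M, ‖y s n‖ ^ 2
        ≤ ∑ s ∈ S, v s.1 * (R ^ 2 * ∑ j ∈ Ico (2 ^ s.1) (2 ^ (s.1 + 1)), G j ^ 2) :=
          sum_le_sum fun s hs => mul_le_mul_of_nonneg_left (hbd s hs) (hv0 s.1).le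
      _ = ∑ i ∈ range l, R ^ 2 *
          ∑ j ∈ Ico (2 ^ i) (2 ^ (i + 1)), β (2 ^ (i + 1)) ^ 2 * G j ^ 2 := by
          rw [hSdef, sum_sigma]
          refine sum_congr rfl fun i _ => ?_
          dsimp only
          rw [sum_const, card_range, nsmul_eq_mul, ← mul_sum, hv]
          push_cast
          field_simp
      _ ≤ ∑ i ∈ range l, R ^ 2 *
          ∑ j ∈ Ico (2 ^ i) (2 ^ (i + 1)), D ^ 2 * (β j ^ 2 * G j ^ 2) := by
          refine sum_le_sum fun i _ => mul_le_mul_of_nonneg_left ?_ (sq_nonneg R)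
          refine sum_le_sum fun j hj => ?_
          rw [mem_Ico] at hj
          have hj1 : 1 ≤ j := Nat.one_le_two_pow.trans hj.1
          have h3 : 2 ^ (i + 1) ≤ 3 * j := by
            rw [pow_succ]
            omega
          have h4 := hgrow j (2 ^ (i + 1)) hj1 hj.2.le h3
          have h5 : β (2 ^ (i + 1)) ^ 2 ≤ D ^ 2 * β j ^ 2 := by
            rw [← mul_pow]
            exact pow_le_pow_left₀ (hS.β0 _).le h4 2
          calc β (2 ^ (i + 1)) ^ 2 * G j ^ 2 ≤ D ^ 2 * β j ^ 2 * G j ^ 2 := by gcongr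
            _ = _ := by ring
      _ = R ^ 2 * D ^ 2 * ∑ i ∈ range l,
          ∑ j ∈ Ico (2 ^ i) (2 ^ (i + 1)), β j ^ 2 * G j ^ 2 := by
          rw [mul_sum]
          refine sum_congr rfl fun i _ => ?_
          rw [← mul_sum]
          ring
      _ = R ^ 2 * D ^ 2 * ∑ j ∈ Ico 1 N, β j ^ 2 * G j ^ 2 := by
          congr 1
          have : ∀ k, ∑ i ∈ range k, ∑ j ∈ Ico (2 ^ i) (2 ^ (i + 1)), β j ^ 2 * G j ^ 2 =
              ∑ j ∈ Ico 1 (2 ^ k), β j ^ 2 * G j ^ 2 := by
            intro k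
            induction k with
            | zero => simp
            | succ k ih =>
              rw [sum_range_succ, ih, sum_Ico_consecutive _ Nat.one_le_two_pow
                (Nat.pow_le_pow_right (by norm_num) (Nat.le_succ k))]
          rw [this l, hNdef]
      _ ≤ _ := by
          refine mul_le_mul_of_nonneg_left ?_ (by positivity)
          refine sum_le_sum_of_subset_of_nonneg ?_ fun j _ _ => by positivity
          intro j hj
          rw [mem_Ico] at hj
          exact mem_range.mpr hj.2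
  calc ∑ n ∈ range M, β n ^ 2 * ‖∑ j ∈ range (n + 1),
        (if j < N then trap N (n - j) - trap N n else 0) • p (n - j) j‖ ^ 2
      ≤ ∑ n ∈ range M, D ^ 2 * β N ^ 2 * RR β l * (1 / (N : ℝ) ^ 2) *
        ∑ s ∈ S, v s.1 * ‖y s n‖ ^ 2 := sum_le_sum fun n _ => hpt n
    _ = D ^ 2 * β N ^ 2 * RR β l * (1 / (N : ℝ) ^ 2) *
        ∑ s ∈ S, v s.1 * ∑ n ∈ range M, ‖y s n‖ ^ 2 := by
        rw [← mul_sum, sum_comm]
        simp_rw [mul_sum]
    _ ≤ D ^ 2 * β N ^ 2 * RR β l * (1 / (N : ℝ) ^ 2) *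
        (R ^ 2 * D ^ 2 * ∑ j ∈ range N, β j ^ 2 * G j ^ 2) :=
        mul_le_mul_of_nonneg_left htot (by positivity)
    _ = D ^ 4 * R ^ 2 * (RR β l / rr β l) * ∑ j ∈ range N, β j ^ 2 * G j ^ 2 := by
        have e : RR β l / rr β l = β N ^ 2 * RR β l * (1 / (N : ℝ) ^ 2) := by
          have e4 : (4 : ℝ) ^ l = (N : ℝ) ^ 2 := by
            rw [hNdef]
            push_cast
            rw [← pow_mul, mul_comm l 2, pow_mul]
            norm_num
          rw [rr, e4, ← hNdef]
          have := hβN.ne'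
          field_simp
        rw [e]
        ring

end Pool.Agent.RadCP
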