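import Pool.Agent.RadCP.Defs

set_option autoImplicit false

/-! Fejer windows. -/

open Filter Topology Finset

namespace Pool.Agent.RadCP

open Pool.Agent.CycP Pool.Agent.CycP.AnSpace

namespace Fej_

/-- the weights of the windows -/
theorem weight (N L n j : ℕ) (hL : 1 ≤ L) (hj : j ≤ n) :
    (if N ≤ j then max 0 (1 - ((n - j : ℕ) : ℝ) / L) else 0) =
      (L : ℝ)⁻¹ * ∑ u ∈ Finset.Ioc n (n + L), (if max N (u - L) ≤ j then (1 : ℝ) else 0) := by
  have hL0 : (0 : ℝ) < L := by exact_mod_cast hL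
  by_cases hN : N ≤ j
  · rw [if_pos hN]
    have h1 : ∑ u ∈ Finset.Ioc n (n + L), (if max N (u - L) ≤ j then (1 : ℝ) else 0) =
        ((j + L - n : ℕ) : ℝ) := by
      rw [← Finset.sum_filter, Finset.sum_const, nsmul_eq_mul, mul_one]
      congr 1
      have h2 : (Finset.Ioc n (n + L)).filter (fun u => max N (u - L) ≤ j) =
          Finset.Ioc n (j + L) := by
        ext u
        simp only [Finset.mem_filter, Finset.mem_Ioc, max_le_iff]
        omega
      rw [h2, Nat.card_Ioc]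
    rw [h1]
    rcases le_or_gt n (j + L) with h | h
    · rw [Nat.cast_sub h, Nat.cast_sub hj]
      push_cast
      have h3 : ((n : ℝ) - j) / L ≤ 1 := by
        rw [div_le_one hL0]
        have : (n : ℝ) ≤ j + L := by exact_mod_cast h
        linarith
      rw [max_eq_right (by linarith)]
      field_simp
      ring
    · have h2 : j + L - n = 0 := by omega
      rw [h2, Nat.cast_zero, mul_zero, Nat.cast_sub hj]
      apply max_eq_left
      have h3 : 1 ≤ ((n : ℝ) - j) / L := by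
        rw [one_le_div hL0]
        have : (j : ℝ) + L < n := by exact_mod_cast h
        linarith
      linarith
  · rw [if_neg hN]
    have h1 : ∑ u ∈ Finset.Ioc n (n + L), (if max N (u - L) ≤ j then (1 : ℝ) else 0) = 0 := by
      refine Finset.sum_eq_zero fun u _ => ?_
      rw [if_neg]
      intro h
      exact hN ((le_max_left _ _).trans h)
    rw [h1, mul_zero]

/-- counting the windows that contain `n` -/
theorem count (n L U : ℕ) (c : ℝ) (h : n + L < U) :
    ∑ u ∈ Finset.range U, (if n < u ∧ u ≤ n + L then c else 0) = L * c := by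
  rw [← Finset.sum_filter, Finset.sum_const, nsmul_eq_mul]
  have h2 : (Finset.range U).filter (fun u => n < u ∧ u ≤ n + L) = Finset.Ioc n (n + L) := by
    ext u
    simp only [Finset.mem_filter, Finset.mem_Ioc, Finset.mem_range]
    omega
  rw [h2, Nat.card_Ioc, Nat.add_sub_cancel_left]

theorem range_ioc (n L U : ℕ) (f : ℕ → ℝ) (h : n + L < U) :
    ∑ u ∈ Finset.Ioc n (n + L), f u =
      ∑ u ∈ Finset.range U, (if n < u ∧ u ≤ n + L then f u else 0) := by
  rw [← Finset.sum_filter]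
  have h2 : (Finset.range U).filter (fun u => n < u ∧ u ≤ n + L) = Finset.Ioc n (n + L) := by
    ext u
    simp only [Finset.mem_filter, Finset.mem_Ioc, Finset.mem_range]
    omega
  rw [h2]

/-- the square of the norm of a mean -/
theorem norm_mean {V : Type} [NormedAddCommGroup V] [NormedSpace ℝ V] (n L : ℕ) (hL : 1 ≤ L)
    (f : ℕ → V) : ‖(L : ℝ)⁻¹ • ∑ u ∈ Finset.Ioc n (n + L), f u‖ ^ 2 ≤
      (L : ℝ)⁻¹ * ∑ u ∈ Finset.Ioc n (n + L), ‖f u‖ ^ 2 := by
  have hL0 : (0 : ℝ) < L := by exact_mod_cast hL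
  have h1 : ‖∑ u ∈ Finset.Ioc n (n + L), f u‖ ≤ ∑ u ∈ Finset.Ioc n (n + L), ‖f u‖ :=
    norm_sum_le _ _
  have h2 : (∑ u ∈ Finset.Ioc n (n + L), ‖f u‖) ^ 2 ≤
      (L : ℝ) * ∑ u ∈ Finset.Ioc n (n + L), ‖f u‖ ^ 2 := by
    have h3 := sq_sum_le_card_mul_sum_sq (s := Finset.Ioc n (n + L)) (f := fun u => ‖f u‖)
    rwa [Nat.card_Ioc, Nat.add_sub_cancel_left] at h3
  have h4 : ‖∑ u ∈ Finset.Ioc n (n + L), f u‖ ^ 2 ≤
      (L : ℝ) * ∑ u ∈ Finset.Ioc n (n + L), ‖f u‖ ^ 2 :=
    (pow_le_pow_left₀ (norm_nonneg _) h1 2).trans h2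
  rw [norm_smul, mul_pow, Real.norm_of_nonneg (by positivity)]
  calc (L : ℝ)⁻¹ ^ 2 * ‖∑ u ∈ Finset.Ioc n (n + L), f u‖ ^ 2
      ≤ (L : ℝ)⁻¹ ^ 2 * ((L : ℝ) * ∑ u ∈ Finset.Ioc n (n + L), ‖f u‖ ^ 2) :=
        mul_le_mul_of_nonneg_left h4 (by positivity)
    _ = (L : ℝ)⁻¹ * ∑ u ∈ Finset.Ioc n (n + L), ‖f u‖ ^ 2 := by
        field_simp

end Fej_

open Fej_ in
theorem fej (h1 : WinStmt) : FejStmt := by
  intro V _ _ p G β R K κ hS N L M hN hL hL2
  have hL0 : (0 : ℝ) < L := by exact_mod_cast hL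
  -- the windows
  let T : ℕ → ℕ → V := fun u n =>
    ∑ j ∈ range (n + 1), (if max N (u - L) ≤ j then (1 : ℝ) else 0) • p (n - j) j
  have hrep : ∀ n : ℕ, (∑ j ∈ range (n + 1),
      (if N ≤ j then max 0 (1 - ((n - j : ℕ) : ℝ) / L) else 0) • p (n - j) j) =
      (L : ℝ)⁻¹ • ∑ u ∈ Finset.Ioc n (n + L), T u n := by
    intro n
    simp only [T]
    rw [Finset.sum_comm, Finset.smul_sum]
    refine Finset.sum_congr rfl fun j hj => ?_
    rw [weight N L n j hL (by have := mem_range.1 hj; omega), mul_smul, Finset.sum_smul]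
  have hwin : ∀ u : ℕ, ∑ n ∈ range M, (if n < u ∧ u ≤ n + L then β n ^ 2 * ‖T u n‖ ^ 2 else 0) ≤
      (K * 3 ^ κ) ^ 2 * R ^ 2 *
        ∑ j ∈ range M, (if j < u ∧ u ≤ j + L then β j ^ 2 * G j ^ 2 else 0) := by
    intro u
    obtain ⟨a, ha⟩ : ∃ a, a = max N (u - L) := ⟨_, rfl⟩
    obtain ⟨b, hb⟩ : ∃ b, b = min u M := ⟨_, rfl⟩
    have haN : N ≤ a := by rw [ha]; exact le_max_left _ _
    have hau : u - L ≤ a := by rw [ha]; exact le_max_right _ _
    have hbu : b ≤ u := by rw [hb]; exact min_le_left _ _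
    have hbM : b ≤ M := by rw [hb]; exact min_le_right _ _
    have h3 := h1 V _ _ p G β R K κ hS a b (fun j => if a ≤ j then 1 else 0) (by omega)
      (by omega) (fun j hj => if_neg (by omega))
    have e1 : ∑ n ∈ range M, (if n < u ∧ u ≤ n + L then β n ^ 2 * ‖T u n‖ ^ 2 else 0) ≤
        ∑ n ∈ Finset.Ico a b, β n ^ 2 * ‖∑ j ∈ range (n + 1),
          (if a ≤ j then (1 : ℝ) else 0) • p (n - j) j‖ ^ 2 := by
      rw [← Finset.sum_filter]
      have e2 : ∀ n ∈ (range M).filter (fun n => n < u ∧ u ≤ n + L), n ∉ Finset.Ico a b →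
          β n ^ 2 * ‖T u n‖ ^ 2 = 0 := by
        intro n hn hn2
        rw [mem_filter, mem_range] at hn
        rw [Finset.mem_Ico] at hn2
        have hna : n < a := by
          by_contra hcon
          apply hn2
          refine ⟨by omega, ?_⟩
          rw [hb, lt_min_iff]
          exact ⟨hn.2.1, hn.1⟩
        have : T u n = 0 := by
          simp only [T]
          refine Finset.sum_eq_zero fun j hj => ?_
          rw [if_neg, zero_smul]
          rw [← ha]
          have := mem_range.1 hj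
          omega
        rw [this, norm_zero]
        ring
      have e3 : Finset.Ico a b ⊆ (range M).filter (fun n => n < u ∧ u ≤ n + L) := by
        intro n hn
        rw [Finset.mem_Ico] at hn
        rw [mem_filter, mem_range]
        omega
      rw [← Finset.sum_subset e3 e2]
      refine Finset.sum_le_sum fun n _ => ?_
      simp only [T, ← ha]
      exact le_rfl
    have e4 : ∑ j ∈ Finset.Ico a b, β j ^ 2 * ((if a ≤ j then (1 : ℝ) else 0) ^ 2 * G j ^ 2) ≤
        ∑ j ∈ range M, (if j < u ∧ u ≤ j + L then β j ^ 2 * G j ^ 2 else 0) := by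
      rw [← Finset.sum_filter]
      have e3 : Finset.Ico a b ⊆ (range M).filter (fun n => n < u ∧ u ≤ n + L) := by
        intro n hn
        rw [Finset.mem_Ico] at hn
        rw [mem_filter, mem_range]
        omega
      refine le_trans (le_of_eq ?_) (Finset.sum_le_sum_of_subset_of_nonneg e3
        (fun j _ _ => by positivity))
      refine Finset.sum_congr rfl fun j hj => ?_
      rw [Finset.mem_Ico] at hj
      rw [if_pos hj.1, one_pow, one_mul]
    refine e1.trans (h3.trans ?_)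
    exact mul_le_mul_of_nonneg_left e4 (by positivity)
  calc ∑ n ∈ range M, β n ^ 2 * ‖∑ j ∈ range (n + 1),
        (if N ≤ j then max 0 (1 - ((n - j : ℕ) : ℝ) / L) else 0) • p (n - j) j‖ ^ 2
      ≤ ∑ n ∈ range M, (L : ℝ)⁻¹ * ∑ u ∈ range (M + L),
          (if n < u ∧ u ≤ n + L then β n ^ 2 * ‖T u n‖ ^ 2 else 0) := by
        refine Finset.sum_le_sum fun n hn => ?_
        have hn' := mem_range.1 hn
        rw [hrep n, ← range_ioc n L (M + L) (fun u => β n ^ 2 * ‖T u n‖ ^ 2) (by omega),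
          ← Finset.mul_sum]
        calc β n ^ 2 * ‖(L : ℝ)⁻¹ • ∑ u ∈ Finset.Ioc n (n + L), T u n‖ ^ 2
            ≤ β n ^ 2 * ((L : ℝ)⁻¹ * ∑ u ∈ Finset.Ioc n (n + L), ‖T u n‖ ^ 2) :=
              mul_le_mul_of_nonneg_left (norm_mean n L hL _) (by positivity)
          _ = (L : ℝ)⁻¹ * (β n ^ 2 * ∑ u ∈ Finset.Ioc n (n + L), ‖T u n‖ ^ 2) := by ring
    _ = (L : ℝ)⁻¹ * ∑ u ∈ range (M + L), ∑ n ∈ range M,
          (if n < u ∧ u ≤ n + L then β n ^ 2 * ‖T u n‖ ^ 2 else 0) := by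
        rw [← Finset.mul_sum, Finset.sum_comm]
    _ ≤ (L : ℝ)⁻¹ * ∑ u ∈ range (M + L), ((K * 3 ^ κ) ^ 2 * R ^ 2 *
          ∑ j ∈ range M, (if j < u ∧ u ≤ j + L then β j ^ 2 * G j ^ 2 else 0)) :=
        mul_le_mul_of_nonneg_left (Finset.sum_le_sum fun u _ => hwin u) (by positivity)
    _ = (K * 3 ^ κ) ^ 2 * R ^ 2 * ((L : ℝ)⁻¹ * ∑ j ∈ range M, ∑ u ∈ range (M + L),
          (if j < u ∧ u ≤ j + L then β j ^ 2 * G j ^ 2 else 0)) := by
        rw [← Finset.mul_sum, Finset.sum_comm]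
        ring
    _ = (K * 3 ^ κ) ^ 2 * R ^ 2 * ((L : ℝ)⁻¹ * ∑ j ∈ range M, (L * (β j ^ 2 * G j ^ 2))) := by
        congr 2
        refine Finset.sum_congr rfl fun j hj => ?_
        have hj' := mem_range.1 hj
        exact count j L (M + L) _ (by omega)
    _ = (K * 3 ^ κ) ^ 2 * R ^ 2 * ∑ j ∈ range M, β j ^ 2 * G j ^ 2 := by
        rw [← Finset.mul_sum]
        field_simp

end Pool.Agent.RadCP
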