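import Pool.Agent.RadCP.Defs

set_option autoImplicit false

/-! Infinitely many good indices (helper84). -/

open Filter Topology Finset

namespace Pool.Agent.RadCP

namespace Good_

/-- `∑ (t+1)^(c-1) ≤ N^c / c` -/
lemma sum_le (c : ℝ) (hc0 : 0 < c) (hc1 : c ≤ 1) (N : ℕ) :
    ∑ t ∈ range N, ((t : ℝ) + 1) ^ (c - 1) ≤ (N : ℝ) ^ c / c := by
  induction N with
  | zero => simp [Real.zero_rpow hc0.ne']
  | succ N ih =>
    rw [sum_range_succ]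
    have hN : (0 : ℝ) < (N : ℝ) + 1 := by positivity
    have h1 : (1 + -(1 / ((N : ℝ) + 1))) ^ c ≤ 1 + c * (-(1 / ((N : ℝ) + 1))) := by
      apply rpow_one_add_le_one_add_mul_self _ hc0.le hc1
      have : 1 / ((N : ℝ) + 1) ≤ 1 := by
        rw [div_le_one hN]
        have : (0 : ℝ) ≤ N := Nat.cast_nonneg N
        linarith
      linarith
    have h2 : 1 + -(1 / ((N : ℝ) + 1)) = (N : ℝ) / (N + 1) := by
      field_simp
      ring
    rw [h2, Real.div_rpow (Nat.cast_nonneg N) hN.le] at h1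
    have h3 : (0 : ℝ) < ((N : ℝ) + 1) ^ c := Real.rpow_pos_of_pos hN c
    rw [div_le_iff₀ h3] at h1
    have h4 : ((N : ℝ) + 1) ^ (c - 1) = ((N : ℝ) + 1) ^ c / (N + 1) := by
      rw [Real.rpow_sub hN, Real.rpow_one]
    have h5 : (1 + c * (-(1 / ((N : ℝ) + 1)))) * ((N : ℝ) + 1) ^ c =
        ((N : ℝ) + 1) ^ c - c * (((N : ℝ) + 1) ^ c / (N + 1)) := by
      ring
    rw [h5] at h1
    rw [h4]
    push_cast
    rw [le_div_iff₀ hc0]
    rw [le_div_iff₀ hc0] at ih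
    nlinarith

/-- `∑_{t<j} (t+1)^(1-c) ≤ j^(2-c)` -/
lemma sum_le' (c : ℝ) (hc1 : c ≤ 1) (j : ℕ) (hj : 1 ≤ j) :
    ∑ t ∈ range j, ((t : ℝ) + 1) ^ (1 - c) ≤ (j : ℝ) ^ (2 - c) := by
  have hj0 : (0 : ℝ) < j := by exact_mod_cast hj
  calc ∑ t ∈ range j, ((t : ℝ) + 1) ^ (1 - c) ≤ ∑ _t ∈ range j, (j : ℝ) ^ (1 - c) := by
        refine sum_le_sum fun t ht => ?_
        apply Real.rpow_le_rpow (by positivity) _ (by linarith)
        have := mem_range.1 ht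
        exact_mod_cast this
    _ = (j : ℝ) ^ (2 - c) := by
        rw [sum_const, card_range, nsmul_eq_mul]
        have : (2 - c) = 1 + (1 - c) := by ring
        rw [this, Real.rpow_add hj0, Real.rpow_one]

/-- comparison gives a good index -/
lemma good_of (β : ℕ → ℝ) (s C1 : ℝ) (hs : 1 / 2 ≤ s) (hs1 : s < 1)
    (hC : 1 ≤ C1) (hβ : ∀ n, 0 < β n) (N : ℕ) (hN : 1 ≤ N)
    (h : ∀ j : ℕ, 1 ≤ j → j ≤ N → β N / (N : ℝ) ^ s ≤ C1 * (β j / (j : ℝ) ^ s)) :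
    Good β (C1 ^ 2 / (2 - 2 * s)) N := by
  have hc0 : 0 < 2 - 2 * s := by linarith
  have hc1 : 2 - 2 * s ≤ 1 := by linarith
  set c := 2 - 2 * s with hc
  refine ⟨hN, fun t => ((t : ℝ) + 1) ^ (1 - c), fun t => Real.rpow_pos_of_pos (by positivity) _,
    fun j hj hjN => ?_⟩
  have hN0 : (0 : ℝ) < N := by exact_mod_cast hN
  have hj0 : (0 : ℝ) < j := by exact_mod_cast hj
  have e1 : ∑ t ∈ range N, (((t : ℝ) + 1) ^ (1 - c))⁻¹ ≤ (N : ℝ) ^ c / c := by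
    have : ∀ t ∈ range N, (((t : ℝ) + 1) ^ (1 - c))⁻¹ = ((t : ℝ) + 1) ^ (c - 1) := by
      intro t _
      rw [← Real.rpow_neg (by positivity)]
      congr 1
      ring
    rw [sum_congr rfl this]
    exact sum_le c hc0 hc1 N
  have e2 := sum_le' c hc1 j hj
  have e3 := h j hj hjN.le
  have hNs : (0 : ℝ) < (N : ℝ) ^ s := Real.rpow_pos_of_pos hN0 s
  have hjs : (0 : ℝ) < (j : ℝ) ^ s := Real.rpow_pos_of_pos hj0 s
  have e4 : β N ≤ C1 * (β j * ((N : ℝ) ^ s / (j : ℝ) ^ s)) := by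
    rw [div_le_iff₀ hNs] at e3
    calc β N ≤ C1 * (β j / (j : ℝ) ^ s) * (N : ℝ) ^ s := e3
      _ = _ := by ring
  have e5 : β N ^ 2 ≤ C1 ^ 2 * (β j ^ 2 * (((N : ℝ) ^ s) ^ 2 / ((j : ℝ) ^ s) ^ 2)) := by
    calc β N ^ 2 ≤ (C1 * (β j * ((N : ℝ) ^ s / (j : ℝ) ^ s))) ^ 2 :=
          pow_le_pow_left₀ (hβ N).le e4 2
      _ = _ := by ring
  have e6 : (N : ℝ) ^ c * ((N : ℝ) ^ s) ^ 2 = (N : ℝ) ^ 2 := by
    rw [← Real.rpow_natCast ((N : ℝ) ^ s) 2, ← Real.rpow_mul hN0.le, ← Real.rpow_add hN0]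
    rw [← Real.rpow_natCast (N : ℝ) 2]
    congr 1
    rw [hc]
    push_cast
    ring
  have e7 : (j : ℝ) ^ (2 - c) = ((j : ℝ) ^ s) ^ 2 := by
    rw [← Real.rpow_natCast ((j : ℝ) ^ s) 2, ← Real.rpow_mul hj0.le]
    congr 1
    rw [hc]
    push_cast
    ring
  have p1 : 0 ≤ ∑ t ∈ range j, ((t : ℝ) + 1) ^ (1 - c) :=
    sum_nonneg fun t _ => Real.rpow_nonneg (by positivity) _
  have p2 : (0 : ℝ) ≤ (N : ℝ) ^ c / c := by positivity
  calc (∑ t ∈ range N, (((t : ℝ) + 1) ^ (1 - c))⁻¹) *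
        (∑ t ∈ range j, ((t : ℝ) + 1) ^ (1 - c)) * β N ^ 2
      ≤ ((N : ℝ) ^ c / c * (j : ℝ) ^ (2 - c)) *
        (C1 ^ 2 * (β j ^ 2 * (((N : ℝ) ^ s) ^ 2 / ((j : ℝ) ^ s) ^ 2))) := by
        apply mul_le_mul _ e5 (by positivity) (by positivity)
        exact mul_le_mul e1 e2 p1 p2
    _ = C1 ^ 2 / c * ((N : ℝ) ^ c * ((N : ℝ) ^ s) ^ 2) * β j ^ 2 := by
        rw [e7]
        field_simp
    _ = C1 ^ 2 / c * (N : ℝ) ^ 2 * β j ^ 2 := by rw [e6]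

/-- infinitely many indices at which `f` is comparable with its minimum -/
lemma freq (f : ℕ → ℝ) (hf : ∀ n, 1 ≤ n → 0 < f n) (L : ℝ)
    (hL : ∃ᶠ N in atTop, f N ≤ L) :
    ∃ C1 : ℝ, 1 ≤ C1 ∧ ∃ᶠ N in atTop, 1 ≤ N ∧ ∀ j : ℕ, 1 ≤ j → j ≤ N → f N ≤ C1 * f j := by
  by_cases hi : ∃ i : ℝ, 0 < i ∧ ∀ n, 1 ≤ n → i ≤ f n
  · obtain ⟨i, hi0, hi⟩ := hi
    refine ⟨max 1 (L / i), le_max_left _ _, ?_⟩
    refine (hL.and_eventually (eventually_ge_atTop 1)).mono ?_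
    rintro N ⟨hN, hN1⟩
    refine ⟨hN1, fun j hj _ => ?_⟩
    have h1 := hi j hj
    calc f N ≤ L := hN
      _ = L / i * i := by field_simp
      _ ≤ max 1 (L / i) * i := mul_le_mul_of_nonneg_right (le_max_right _ _) hi0.le
      _ ≤ max 1 (L / i) * f j := mul_le_mul_of_nonneg_left h1 (by positivity)
  · push Not at hi
    refine ⟨1, le_refl _, ?_⟩
    rw [frequently_atTop]
    intro M
    have hne : (Icc 1 (M + 1)).Nonempty := ⟨1, mem_Icc.2 ⟨le_refl _, by omega⟩⟩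
    obtain ⟨m, hm, hmin⟩ := exists_min_image (Icc 1 (M + 1)) f hne
    obtain ⟨n, hn1, hn⟩ := hi (f m) (hf m (mem_Icc.1 hm).1)
    have hne2 : (Icc 1 n).Nonempty := ⟨1, mem_Icc.2 ⟨le_refl _, hn1⟩⟩
    obtain ⟨N, hN, hNmin⟩ := exists_min_image (Icc 1 n) f hne2
    have hN' := mem_Icc.1 hN
    have h1 : f N < f m := lt_of_le_of_lt (hNmin n (mem_Icc.2 ⟨hn1, le_refl _⟩)) hn
    have h2 : M ≤ N := by
      by_contra hlt
      push Not at hlt
      have := hmin N (mem_Icc.2 ⟨hN'.1, by omega⟩)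
      linarith
    refine ⟨N, h2, hN'.1, fun j hj hjN => ?_⟩
    rw [one_mul]
    exact hNmin j (mem_Icc.2 ⟨hj, by omega⟩)

end Good_

theorem good : GoodStmt := by
  intro β hβ s hs hT
  set s' : ℝ := max s (1 / 2) with hs'
  have h1 : 1 / 2 ≤ s' := le_max_right _ _
  have h2 : s' < 1 := max_lt hs (by norm_num)
  have h3 : s ≤ s' := le_max_left _ _
  have hT' : ¬ Tendsto (fun n : ℕ => β n / (n : ℝ) ^ s') atTop atTop := by
    intro h
    refine hT (tendsto_atTop_mono' _ ?_ h)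
    filter_upwards [eventually_ge_atTop 1] with n hn
    have hn1 : (1 : ℝ) ≤ n := by exact_mod_cast hn
    have hn0 : (0 : ℝ) < n := by linarith
    apply div_le_div_of_nonneg_left (hβ n).le (Real.rpow_pos_of_pos hn0 s)
    exact Real.rpow_le_rpow_of_exponent_le hn1 h3
  have hL : ∃ L : ℝ, ∃ᶠ N : ℕ in atTop, β N / (N : ℝ) ^ s' ≤ L := by
    by_contra hcon
    push Not at hcon
    apply hT'
    rw [tendsto_atTop]
    intro b
    have := hcon b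
    filter_upwards [this] with n hn
    exact hn.le
  obtain ⟨L, hL⟩ := hL
  obtain ⟨C1, hC1, hfr⟩ := Good_.freq (fun n : ℕ => β n / (n : ℝ) ^ s')
    (fun n hn => by
      have hn0 : (0 : ℝ) < n := by exact_mod_cast hn
      exact div_pos (hβ n) (Real.rpow_pos_of_pos hn0 s')) L hL
  refine ⟨C1 ^ 2 / (2 - 2 * s'), ?_, ?_⟩
  · have : 0 < 2 - 2 * s' := by linarith
    positivity
  · refine hfr.mono ?_
    rintro N ⟨hN, hj⟩
    exact Good_.good_of β s' C1 h1 h2 hC1 hβ N hN hj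

end Pool.Agent.RadCP
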