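import Pool.Agent.RadCP.Defs

set_option autoImplicit false

/-! Radial weights: the components of a product. -/

open Filter Topology Finset

namespace Pool.Agent.RadCP

open Pool.Agent.CycP Pool.Agent.CycP.AnSpace

namespace Prod_

lemma eval_smul_hom {d : ℕ} {P : MvPolynomial (Fin d) ℂ} {j : ℕ} (hP : P.IsHomogeneous j)
    (c : ℂ) (z : Fin d → ℂ) :
    MvPolynomial.eval (c • z) P = c ^ j * MvPolynomial.eval z P := by
  rw [MvPolynomial.eval_eq, MvPolynomial.eval_eq, Finset.mul_sum]
  refine Finset.sum_congr rfl fun s hs => ?_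
  have h1 := hP.degree_eq_sum_deg_support hs
  rw [h1, Finset.prod_congr rfl fun i _ => show (c • z) i ^ s i = c ^ s i * z i ^ s i by
    rw [Pi.smul_apply, smul_eq_mul, mul_pow], Finset.prod_mul_distrib, Finset.prod_pow_eq_pow_sum]
  ring

/-- uniqueness of power series -/
lemma coeff_zero {z : ℕ → ℂ} (hz : ∀ t : ℂ, ‖t‖ ≤ 1 → HasSum (fun n => t ^ n * z n) 0) (n : ℕ) :
    z n = 0 := by
  have h1 : HasFPowerSeriesAt (0 : ℂ → ℂ) (FormalMultilinearSeries.ofScalars ℂ z) 0 := by
    rw [hasFPowerSeriesAt_iff]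
    filter_upwards [Metric.closedBall_mem_nhds (0 : ℂ) one_pos] with t ht
    simpa using hz t (by simpa using ht)
  have h3 := congrArg (fun p => p.coeff n) h1.eq_zero
  simp only [FormalMultilinearSeries.coeff_ofScalars] at h3
  rw [h3]
  simp [FormalMultilinearSeries.coeff]

/-- the Cauchy product of two scaled series -/
lemma hasSum_cauchy {a b : ℕ → ℂ} {t A B : ℂ} (ha : HasSum (fun n => t ^ n * a n) A)
    (hb : HasSum (fun n => t ^ n * b n) B) :
    HasSum (fun n => t ^ n * ∑ j ∈ range (n + 1), a (n - j) * b j) (A * B) := by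
  have h1 : Summable fun n => ‖t ^ n * a n‖ := ha.summable.norm
  have h2 : Summable fun n => ‖t ^ n * b n‖ := hb.summable.norm
  have h3 := tsum_mul_tsum_eq_tsum_sum_range_of_summable_norm h2 h1
  have h4 := (summable_norm_sum_mul_range_of_summable_norm h2 h1).of_norm
  rw [ha.tsum_eq, hb.tsum_eq] at h3
  have h5 := h4.hasSum
  rw [← h3, mul_comm B A] at h5
  have key : (fun n => t ^ n * ∑ j ∈ range (n + 1), a (n - j) * b j) =
      fun n => ∑ k ∈ range (n + 1), t ^ k * b k * (t ^ (n - k) * a (n - k)) := by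
    funext n
    rw [mul_sum]
    refine sum_congr rfl fun j hj => ?_
    have hj' : j ≤ n := by
      rw [mem_range] at hj
      omega
    have h6 : t ^ n = t ^ j * t ^ (n - j) := by
      rw [← pow_add]
      congr 1
      omega
    rw [h6]
    ring
  rw [key]
  exact h5

/-- the components give a series in `t` at `t • w` -/
lemma hasSum_comp (h1 : CompStmt) {d : ℕ} {Ω : Set (Fin d → ℂ)} (hbal : Balanced ℂ Ω) {Y : Type}
    [NormedAddCommGroup Y] [InnerProductSpace ℂ Y] [CompleteSpace Y] {B : AnSpace d Ω Y}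
    (hG : B.Graded) (y : Y) {w : Fin d → ℂ} (hw : w ∈ Ω) {t : ℂ} (ht : ‖t‖ ≤ 1) :
    HasSum (fun n => t ^ n * B.fn (B.comp n y) w) (B.fn y (t • w)) := by
  have hwt : t • w ∈ Ω := hbal.smul_mem ht hw
  obtain ⟨C, hC⟩ := B.fn_bounded (t • w) hwt
  let E : Y →L[ℂ] ℂ := LinearMap.mkContinuous
    { toFun := fun y => B.fn y (t • w)
      map_add' := fun a b => by rw [map_add, Pi.add_apply]
      map_smul' := fun a b => by rw [map_smul, Pi.smul_apply, RingHom.id_apply] } C hC
  have h2 : HasSum (fun n => E (B.comp n y)) (E y) :=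
    ((h1 d Ω Y inferInstance inferInstance inferInstance B hG).1 y).mapL E
  have key : (fun n => t ^ n * B.fn (B.comp n y) w) = fun n => E (B.comp n y) := by
    funext n
    obtain ⟨P, hP, hP'⟩ := B.comp_mem n y
    rw [← hP', B.fn_poly _ w hw]
    change _ = B.fn (B.poly P) (t • w)
    rw [B.fn_poly _ _ hwt, eval_smul_hom hP]
  rw [key]
  exact h2

end Prod_

theorem prod (h1 : CompStmt) : ProdStmt := by
  intro d Ω hbal Y _ _ _ B hG h c P g x hexp hx hP hPg n
  obtain ⟨hc, hexp⟩ := hexp
  apply B.fn_ext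
  intro w hw
  rw [B.fn_poly _ w hw, map_sum]
  rw [← sub_eq_zero]
  revert n
  apply Prod_.coeff_zero
  intro t ht
  have hwt : t • w ∈ Ω := hbal.smul_mem ht hw
  have e1 : HasSum (fun k => t ^ k * MvPolynomial.eval w (c k)) (h (t • w)) := by
    have := hexp _ hwt
    simpa only [Prod_.eval_smul_hom (hc _)] using this
  have e2 : HasSum (fun j => t ^ j * MvPolynomial.eval w (P j)) (B.fn g (t • w)) := by
    have := Prod_.hasSum_comp h1 hbal hG g hw ht
    simpa only [← hPg, B.fn_poly _ w hw] using this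
  have e3 := Prod_.hasSum_comp h1 hbal hG x hw ht
  have e4 := Prod_.hasSum_cauchy e1 e2
  rw [hx _ hwt] at e3
  have e5 := e3.sub e4
  rw [sub_self] at e5
  simpa only [mul_sub, map_mul] using e5

end Pool.Agent.RadCP
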