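import Pool.Agent.RadCP.DAlg

set_option autoImplicit false

/-! Products in spaces with submultiplicative norms of homogeneous polynomials. -/

open Finset

namespace Pool.Agent.RadCP

open Pool.Agent.CycP Pool.Agent.CycP.AnSpace

open DAlg_ in
theorem subalg (h1 : CompStmt) {d : ℕ} {Ω : Set (Fin d → ℂ)} {Y : Type} [NormedAddCommGroup Y]
    [InnerProductSpace ℂ Y] [CompleteSpace Y] (B : AnSpace d Ω Y) (hG : B.Graded)
    {V : Type} [NormedAddCommGroup V] [NormedSpace ℂ V] (ι : MvPolynomial (Fin d) ℂ →ₗ[ℂ] V)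
    (β : ℕ → ℝ) (hβ0 : ∀ n, 0 < β n) (hgr : PolyGrowth β)
    (hβ : ∀ n P, P.IsHomogeneous n → ‖B.poly P‖ = β n * ‖ι P‖)
    (hS : Summable (fun n => (β n ^ 2)⁻¹)) {C : ℝ}
    (hC : ∀ (j k : ℕ) (P Q : MvPolynomial (Fin d) ℂ), P.IsHomogeneous j → Q.IsHomogeneous k →
      ‖ι (P * Q)‖ ≤ C * (‖ι P‖ * ‖ι Q‖)) (x y : Y) :
    ∃ z : Y, ∀ w ∈ Ω, B.fn z w = B.fn x w * B.fn y w := by
  obtain ⟨hc1, hc2, hc3⟩ := h1 d Ω Y _ _ inferInstance B hG
  choose P hP hP' using fun n => B.comp_mem n x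
  choose Q hQ hQ' using fun n => B.comp_mem n y
  have hsq : ∀ (u : Y) (P : ℕ → MvPolynomial (Fin d) ℂ), (∀ n, (P n).IsHomogeneous n) →
      (∀ n, B.poly (P n) = B.comp n u) → Summable (fun n => (‖ι (P n)‖ * β n) ^ 2) := by
    intro u P hP hP'
    refine (hc2 u).summable.congr fun n => ?_
    rw [← hP', hβ n _ (hP n), mul_comm]
  have hh : ∀ n, (∑ q ∈ antidiagonal n, P q.1 * Q q.2).IsHomogeneous n := by
    intro n
    refine MvPolynomial.IsHomogeneous.sum _ _ _ fun q hq => ?_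
    have hn : q.1 + q.2 = n := by simpa using hq
    rw [← hn]
    exact (hP q.1).mul (hQ q.2)
  have hcs : Summable (fun n => ‖B.poly (∑ q ∈ antidiagonal n, P q.1 * Q q.2)‖ ^ 2) := by
    have h2 := conv β (fun n => ‖ι (P n)‖) (fun n => ‖ι (Q n)‖) hβ0 hgr hS
      (fun n => norm_nonneg _) (fun n => norm_nonneg _) (hsq x P hP hP') (hsq y Q hQ hQ')
    refine Summable.of_nonneg_of_le (fun n => sq_nonneg _) (fun n => ?_) (h2.mul_left (C ^ 2))
    rw [hβ n _ (hh n), mul_comm (β n), mul_pow, mul_pow, ← mul_assoc]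
    refine mul_le_mul_of_nonneg_right ?_ (sq_nonneg _)
    rw [← mul_pow]
    refine pow_le_pow_left₀ (norm_nonneg _) ?_ 2
    rw [map_sum, mul_sum]
    exact (norm_sum_le _ _).trans (sum_le_sum fun q _ => hC _ _ _ _ (hP _) (hQ _))
  obtain ⟨z, hz⟩ := hc3 _ (fun n => mem_hom.2 ⟨_, hh n, rfl⟩) hcs
  refine ⟨z, fun w hw => ?_⟩
  obtain ⟨L, hL, -⟩ := B.exists_eval hw
  have hser : ∀ (u : Y) (P : ℕ → MvPolynomial (Fin d) ℂ), (∀ n, B.comp n u = B.poly (P n)) →
      HasSum (fun n => MvPolynomial.eval w (P n)) (B.fn u w) := by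
    intro u P hP
    have h2 := (hc1 u).mapL L
    rw [hL] at h2
    have h3 : (fun n => MvPolynomial.eval w (P n)) = fun n => L (B.comp n u) := by
      funext n
      rw [hP, hL, B.fn_poly _ w hw]
    rw [h3]
    exact h2
  have hx := hser x P fun n => (hP' n).symm
  have hy := hser y Q fun n => (hQ' n).symm
  have hzz := hser z _ hz
  rw [← hx.tsum_eq, ← hy.tsum_eq, ← hzz.tsum_eq,
    tsum_mul_tsum_eq_tsum_sum_antidiagonal_of_summable_norm hx.summable.norm hy.summable.norm]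
  refine tsum_congr fun n => ?_
  rw [map_sum]
  refine sum_congr rfl fun q _ => ?_
  rw [map_mul]

end Pool.Agent.RadCP
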