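import Pool.Agent.RadCP.Defs

/-!
# WIN: the weighted bound on a short window (helper67)
-/

set_option autoImplicit false

namespace Pool.Agent.RadCP

open Finset
open Pool.Agent.CycP Pool.Agent.CycP.AnSpace

namespace Win_

/-- Abel summation: nonincreasing weights keep an inequality between all partial sums -/
lemma abel (c x y : ℕ → ℝ) (hc0 : ∀ n, 0 ≤ c n) (hc : Antitone c)
    (h : ∀ M, ∑ n ∈ range M, x n ≤ ∑ n ∈ range M, y n) (M : ℕ) :
    ∑ n ∈ range M, c n * x n ≤ ∑ n ∈ range M, c n * y n := by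
  have key : ∀ M, c M * (∑ n ∈ range M, y n - ∑ n ∈ range M, x n) ≤
      ∑ n ∈ range M, c n * y n - ∑ n ∈ range M, c n * x n := by
    intro M
    induction M with
    | zero => simp
    | succ M ih =>
      have h1 := h (M + 1)
      have h2 : c (M + 1) ≤ c M := hc (Nat.le_succ M)
      have h3 : c (M + 1) * (∑ n ∈ range (M + 1), y n - ∑ n ∈ range (M + 1), x n) ≤
          c M * (∑ n ∈ range (M + 1), y n - ∑ n ∈ range (M + 1), x n) :=
        mul_le_mul_of_nonneg_right h2 (by linarith)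
      refine le_trans h3 ?_
      simp only [sum_range_succ]
      nlinarith [ih]
  have h4 := key M
  have h5 : 0 ≤ c M * (∑ n ∈ range M, y n - ∑ n ∈ range M, x n) :=
    mul_nonneg (hc0 M) (by linarith [h M])
  linarith

/-- the least square of the weights on `[a, max a n]` -/
noncomputable def gam (β : ℕ → ℝ) (a n : ℕ) : ℝ :=
  (Icc a (max a n)).inf' ⟨a, by simp⟩ fun j => β j ^ 2

lemma gam_nonneg (β : ℕ → ℝ) (a n : ℕ) : 0 ≤ gam β a n := by
  unfold gam
  rw [le_inf'_iff]
  intro j _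
  positivity

lemma gam_anti (β : ℕ → ℝ) (a : ℕ) : Antitone (gam β a) := by
  intro m n hmn
  unfold gam
  apply inf'_mono
  intro j hj
  rw [mem_Icc] at hj ⊢
  exact ⟨hj.1, hj.2.trans (max_le_max le_rfl hmn)⟩

lemma gam_le {β : ℕ → ℝ} {a n : ℕ} (h : a ≤ n) : gam β a n ≤ β n ^ 2 := by
  unfold gam
  exact inf'_le _ (mem_Icc.mpr ⟨h, le_max_right _ _⟩)

end Win_

open Win_ in
theorem win : WinStmt := by
  intro V _ _ p G β R K κ hS a b u ha hb hu
  rcases Nat.lt_or_ge b a with hba | hab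
  · have : Ico a b = ∅ := Ico_eq_empty (by omega)
    simp [this]
  set x : ℕ → ℝ := fun n => ‖∑ j ∈ range (n + 1), u j • p (n - j) j‖ ^ 2 with hx
  set y : ℕ → ℝ := fun n => R ^ 2 * (u n ^ 2 * G n ^ 2) with hy
  have hx0 : ∀ n, 0 ≤ x n := fun n => by rw [hx]; positivity
  have hy0 : ∀ n, 0 ≤ y n := fun n => by rw [hy]; positivity
  have hxy : ∀ M, ∑ n ∈ range M, x n ≤ ∑ n ∈ range M, y n := by
    intro M
    have := hS.bd M u
    rw [hx, hy]
    simp only
    rw [← mul_sum]
    exact this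
  have hab' := abel (gam β a) x y (gam_nonneg β a) (gam_anti β a) hxy b
  -- the weights on the window
  have hD : ∀ n ∈ Ico a b, β n ^ 2 ≤ (K * 3 ^ κ) ^ 2 * gam β a n := by
    intro n hn
    rw [mem_Ico] at hn
    obtain ⟨j, hj, hje⟩ := exists_mem_eq_inf' (s := Icc a (max a n)) ⟨a, by simp⟩
      (fun j => β j ^ 2)
    have e : gam β a n = β j ^ 2 := hje
    rw [e]
    rw [mem_Icc, max_eq_right hn.1] at hj
    have h1 := hS.grow j n (by omega) hj.2
    have hj0 : (0 : ℝ) < j := by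
      have : 1 ≤ j := by omega
      exact_mod_cast this
    have h2 : (n : ℝ) / j ≤ 3 := by
      rw [div_le_iff₀ hj0]
      have : n ≤ 3 * j := by omega
      exact_mod_cast this
    have h3 : β n ≤ K * 3 ^ κ * β j := by
      refine h1.trans ?_
      have h4 : ((n : ℝ) / j) ^ κ ≤ 3 ^ κ := pow_le_pow_left₀ (by positivity) h2 κ
      have h5 := hS.K0
      have h6 := (hS.β0 j).le
      exact mul_le_mul_of_nonneg_right (mul_le_mul_of_nonneg_left h4 h5) h6
    calc β n ^ 2 ≤ (K * 3 ^ κ * β j) ^ 2 := pow_le_pow_left₀ (hS.β0 n).le h3 2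
      _ = (K * 3 ^ κ) ^ 2 * β j ^ 2 := by ring
  calc ∑ n ∈ Ico a b, β n ^ 2 * x n
      ≤ ∑ n ∈ Ico a b, (K * 3 ^ κ) ^ 2 * (gam β a n * x n) := by
        refine sum_le_sum fun n hn => ?_
        calc β n ^ 2 * x n ≤ (K * 3 ^ κ) ^ 2 * gam β a n * x n :=
              mul_le_mul_of_nonneg_right (hD n hn) (hx0 n)
          _ = _ := by ring
    _ = (K * 3 ^ κ) ^ 2 * ∑ n ∈ Ico a b, gam β a n * x n := by rw [mul_sum]
    _ ≤ (K * 3 ^ κ) ^ 2 * ∑ n ∈ range b, gam β a n * x n := by
        refine mul_le_mul_of_nonneg_left ?_ (by positivity)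
        refine sum_le_sum_of_subset_of_nonneg ?_
          (fun n _ _ => mul_nonneg (gam_nonneg β a n) (hx0 n))
        intro n hn
        rw [mem_Ico] at hn
        exact mem_range.mpr hn.2
    _ ≤ (K * 3 ^ κ) ^ 2 * ∑ n ∈ range b, gam β a n * y n :=
        mul_le_mul_of_nonneg_left hab' (by positivity)
    _ = (K * 3 ^ κ) ^ 2 * ∑ n ∈ Ico a b, gam β a n * y n := by
        congr 1
        symm
        apply sum_subset
        · intro n hn
          rw [mem_Ico] at hn
          exact mem_range.mpr hn.2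
        · intro n hn hn'
          rw [mem_range] at hn
          rw [mem_Ico, not_and'] at hn'
          have h7 : n < a := by
            have := hn' hn
            omega
          rw [hy]
          simp [hu n h7]
    _ ≤ (K * 3 ^ κ) ^ 2 * ∑ n ∈ Ico a b, β n ^ 2 * y n := by
        refine mul_le_mul_of_nonneg_left ?_ (by positivity)
        refine sum_le_sum fun n hn => ?_
        rw [mem_Ico] at hn
        exact mul_le_mul_of_nonneg_right (gam_le hn.1) (hy0 n)
    _ = (K * 3 ^ κ) ^ 2 * R ^ 2 * ∑ j ∈ Ico a b, β j ^ 2 * (u j ^ 2 * G j ^ 2) := by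
        rw [mul_assoc, mul_sum (Ico a b) (fun j => β j ^ 2 * (u j ^ 2 * G j ^ 2)) (R ^ 2)]
        refine congrArg (fun z => (K * 3 ^ κ) ^ 2 * z) ?_
        refine sum_congr rfl fun n _ => ?_
        rw [hy]
        ring

end Pool.Agent.RadCP
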