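import Pool.Agent.RadCP.Mem
import Pool.Agent.RadCP.Win
import Pool.Agent.RadCP.Fej
import Pool.Agent.RadCP.Good
import Pool.Agent.RadCP.Comp
import Pool.Agent.RadCP.Prod
import Pool.Agent.RadCP.Caus
import Pool.Agent.RadCP.Disc
import Pool.Agent.RadCP.Alg
import Pool.Agent.RadCP.SubAlg

set_option autoImplicit false

/-! Assembly. -/

open Filter Topology Finset

namespace Pool.Agent.RadCP

open Pool.Agent.CycP Pool.Agent.CycP.AnSpace

namespace Main_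

/-- the quotient of a dominated function -/
lemma quot {d : ℕ} {Ω : Set (Fin d → ℂ)} {Y : Type} [NormedAddCommGroup Y] [NormedSpace ℂ Y]
    (B : AnSpace d Ω Y) {g x : Y} (hg : ∀ w ∈ B.maxDomain, B.ext g w ≠ 0)
    (hx : ∃ C : ℝ, ∀ w ∈ B.maxDomain, ‖B.ext x w‖ ≤ C * ‖B.ext g w‖) :
    ∃ (h : (Fin d → ℂ) → ℂ) (K : ℝ), AnalyticOnNhd ℂ h Ω ∧ (∀ w ∈ Ω, ‖h w‖ ≤ K) ∧
      ∀ w ∈ Ω, B.fn x w = h w * B.fn g w := by
  obtain ⟨C, hC⟩ := hx
  have hg0 : ∀ w ∈ Ω, B.fn g w ≠ 0 := by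
    intro w hw
    have := hg w (B.subset_maxDomain hw)
    rwa [B.ext_of_mem hw] at this
  refine ⟨fun w => B.fn x w / B.fn g w, C, (B.fn_analytic _).div (B.fn_analytic _) hg0,
    fun w hw => ?_, fun w hw => ?_⟩
  · have h1 := hC w (B.subset_maxDomain hw)
    rw [B.ext_of_mem hw, B.ext_of_mem hw] at h1
    rw [norm_div, div_le_iff₀ (norm_pos_iff.2 (hg0 w hw))]
    exact h1
  · rw [div_mul_cancel₀ _ (hg0 w hw)]

/-- homogeneous polynomials in one variable -/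
lemma hom_one {P : MvPolynomial (Fin 1) ℂ} {n : ℕ} (hP : P.IsHomogeneous n) :
    P = MvPolynomial.C (MvPolynomial.aeval (fun _ : Fin 1 => (1 : ℂ)) P) *
      MvPolynomial.X 0 ^ n := by
  apply MvPolynomial.funext
  intro w
  have h1 : w = (w 0) • (fun _ : Fin 1 => (1 : ℂ)) := by
    funext i
    rw [Fin.fin_one_eq_zero i]
    simp
  conv_lhs => rw [h1, DAlg_.eval_smul_hom hP]
  rw [map_mul, MvPolynomial.eval_C, map_pow, MvPolynomial.eval_X, MvPolynomial.aeval_eq_eval,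
    mul_comm]

lemma norm_hom {Y : Type} [NormedAddCommGroup Y] [InnerProductSpace ℂ Y] {Ω : Set (Fin 1 → ℂ)}
    (B : AnSpace 1 Ω Y) (n : ℕ) (P : MvPolynomial (Fin 1) ℂ) (hP : P.IsHomogeneous n) :
    ‖B.poly P‖ = ‖B.poly (MvPolynomial.X 0 ^ n)‖ *
      ‖(MvPolynomial.aeval (fun _ : Fin 1 => (1 : ℂ))).toLinearMap P‖ := by
  conv_lhs => rw [hom_one hP, ← MvPolynomial.smul_eq_C_mul, ← B.polyL_apply, map_smul, norm_smul]
  rw [mul_comm]
  rfl

end Main_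

open Main_ in
/-- The conclusion of (CP) for weights below order one. -/
theorem cp_low (hcore : CoreStmt) {d : ℕ} {Ω : Set (Fin d → ℂ)} {H Y : Type}
    [NormedAddCommGroup H] [InnerProductSpace ℂ H] [CompleteSpace H] [NormedAddCommGroup Y]
    [InnerProductSpace ℂ Y] [CompleteSpace Y] (A : AnSpace d Ω H) (B : AnSpace d Ω Y)
    (hbal : Balanced ℂ Ω) (hA : A.Graded) (hH : A.HInfMultiplier) (hB : B.Graded) (β : ℕ → ℝ)
    (hβ0 : ∀ n, 0 < β n) (hβ : ∀ n P, P.IsHomogeneous n → ‖B.poly P‖ = β n * ‖A.poly P‖)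
    (hgr : PolyGrowth β) (s : ℝ) (hs : s < 1)
    (hlim : ¬ Tendsto (fun n : ℕ => β n / (n : ℝ) ^ s) atTop atTop) : B.CP := by
  have hmem := mem hcore comp_stmt (prod comp_stmt)
  obtain ⟨C, hC, hgood⟩ := good β hβ0 s hs hlim
  apply cp_of_domination
  intro g x hg hx
  obtain ⟨h, K, han, hK, hq⟩ := quot B hg hx
  obtain ⟨c, R, hR, hexp, hcau⟩ := caus comp_stmt (prod comp_stmt) d Ω hbal H _ _ inferInstance
    A hA hH h han K hK
  exact hmem d Ω hbal Y _ _ inferInstance B hB H _ _ A.polyL β hβ0 hgr hβ C hC hgood h c R hR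
    hexp hcau g x hq

lemma summable_of_tendsto {β : ℕ → ℝ}
    (hlim : Tendsto (fun n : ℕ => β n / (n : ℝ) ^ (3 / 4 : ℝ)) atTop atTop) :
    Summable (fun n => (β n ^ 2)⁻¹) := by
  have h1 : ∀ᶠ n : ℕ in atTop, ((β n) ^ 2)⁻¹ ≤ ((n : ℝ) ^ (3 / 2 : ℝ))⁻¹ := by
    filter_upwards [hlim.eventually_ge_atTop 1, eventually_ge_atTop 1] with n hn hn1
    have hn0 : (0 : ℝ) < n := by exact_mod_cast hn1
    have h2 : (0 : ℝ) < (n : ℝ) ^ (3 / 4 : ℝ) := Real.rpow_pos_of_pos hn0 _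
    rw [le_div_iff₀ h2, one_mul] at hn
    have h3 : (n : ℝ) ^ (3 / 2 : ℝ) = ((n : ℝ) ^ (3 / 4 : ℝ)) ^ 2 := by
      rw [← Real.rpow_natCast, ← Real.rpow_mul hn0.le]
      norm_num
    rw [h3]
    gcongr
  refine Summable.of_norm_bounded_eventually_nat (Real.summable_nat_rpow_inv.2
    (by norm_num : (1 : ℝ) < 3 / 2)) ?_
  filter_upwards [h1] with n hn
  rw [Real.norm_of_nonneg (by positivity)]
  exact hn

/-- The general theorem. -/
theorem cp_radial (hcore : CoreStmt) {d : ℕ} {Ω : Set (Fin d → ℂ)} {H Y : Type}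
    [NormedAddCommGroup H] [InnerProductSpace ℂ H] [CompleteSpace H] [NormedAddCommGroup Y]
    [InnerProductSpace ℂ Y] [CompleteSpace Y] (A : AnSpace d Ω H) (B : AnSpace d Ω Y)
    (hbal : Balanced ℂ Ω) (hA : A.Graded) (hH : A.HInfMultiplier) (hB : B.Graded) (β : ℕ → ℝ)
    (hβ0 : ∀ n, 0 < β n) (hβ : ∀ n P, P.IsHomogeneous n → ‖B.poly P‖ = β n * ‖A.poly P‖)
    (hgr : PolyGrowth β)
    (hcase : (∃ s : ℝ, s < 1 ∧ ¬ Tendsto (fun n : ℕ => β n / (n : ℝ) ^ s) atTop atTop) ∨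
      (∀ x y : Y, ∃ z : Y, ∀ w ∈ Ω, B.fn z w = B.fn x w * B.fn y w) ∨
      ∃ C : ℝ, ∀ (j k : ℕ) (P Q : MvPolynomial (Fin d) ℂ), P.IsHomogeneous j →
        Q.IsHomogeneous k → ‖A.poly (P * Q)‖ ≤ C * (‖A.poly P‖ * ‖A.poly Q‖)) : B.CP := by
  rcases hcase with ⟨s, hs, hlim⟩ | hprod | ⟨C, hC⟩
  · exact cp_low hcore A B hbal hA hH hB β hβ0 hβ hgr s hs hlim
  · exact alg d Ω Y _ _ inferInstance B hprod
  · by_cases hlim : Tendsto (fun n : ℕ => β n / (n : ℝ) ^ (3 / 4 : ℝ)) atTop atTop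
    · exact alg d Ω Y _ _ inferInstance B (subalg comp_stmt B hB A.polyL β hβ0 hgr hβ
        (summable_of_tendsto hlim) hC)
    · exact cp_low hcore A B hbal hA hH hB β hβ0 hβ hgr (3 / 4) (by norm_num) hlim

open Main_ in
/-- Every Hilbert space of analytic functions on the unit disc in which the monomials are
orthogonal and have norms of polynomial growth has (CP). -/
theorem cp_disc (hcore : CoreStmt) {Y : Type} [NormedAddCommGroup Y] [InnerProductSpace ℂ Y]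
    [CompleteSpace Y] (B : AnSpace 1 (Metric.ball 0 1) Y)
    (horth : ∀ m n : ℕ, m ≠ n → inner ℂ (B.poly (MvPolynomial.X 0 ^ m))
      (B.poly (MvPolynomial.X 0 ^ n)) = 0)
    (hgr : PolyGrowth (fun n => ‖B.poly (MvPolynomial.X 0 ^ n)‖)) : B.CP := by
  set β : ℕ → ℝ := fun n => ‖B.poly (MvPolynomial.X 0 ^ n)‖ with hβ
  have hbal : Balanced ℂ (Metric.ball (0 : Fin 1 → ℂ) 1) := balanced_ball_zero
  have hB : B.Graded := by
    intro j l P Q hP hQ hjl
    rw [hom_one hP, hom_one hQ, ← MvPolynomial.smul_eq_C_mul, ← MvPolynomial.smul_eq_C_mul,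
      ← B.polyL_apply, ← B.polyL_apply, map_smul, map_smul, inner_smul_left, inner_smul_right,
      B.polyL_apply, B.polyL_apply, horth j l hjl]
    simp
  have hβ0 : ∀ n, 0 < β n := by
    intro n
    rw [hβ]
    simp only
    rw [norm_pos_iff]
    intro h0
    have hw : (fun _ : Fin 1 => (1 / 2 : ℂ)) ∈ Metric.ball (0 : Fin 1 → ℂ) 1 := by
      rw [mem_ball_zero_iff, pi_norm_lt_iff one_pos]
      intro i
      norm_num
    have h1 := B.fn_poly (MvPolynomial.X 0 ^ n) _ hw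
    rw [h0, map_zero, map_pow, MvPolynomial.eval_X] at h1
    exact pow_ne_zero n (by norm_num : (1 / 2 : ℂ) ≠ 0) h1.symm
  by_cases hlim : Tendsto (fun n : ℕ => β n / (n : ℝ) ^ (3 / 4 : ℝ)) atTop atTop
  · exact alg 1 _ Y _ _ inferInstance B (dalg comp_stmt Y _ _ inferInstance B hB hgr
      (summable_of_tendsto hlim))
  · obtain ⟨C, hC, hgood⟩ := good β hβ0 (3 / 4) (by norm_num) hlim
    apply cp_of_domination
    intro g x hg hx
    obtain ⟨h, K, han, hK, hq⟩ := quot B hg hx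
    obtain ⟨c, R, hR, hexp, hcau⟩ := disc h han K hK
    exact mem hcore comp_stmt (prod comp_stmt) 1 _ hbal Y _ _ inferInstance B hB ℂ _ _
      (MvPolynomial.aeval (fun _ : Fin 1 => (1 : ℂ))).toLinearMap β hβ0 hgr (norm_hom B) C hC
      hgood h c R hR hexp hcau g x hq

end Pool.Agent.RadCP
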