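import Pool.Agent.RadCP.Defs

set_option autoImplicit false

/-! Membership in the closed orbit. -/

open Filter Topology Finset

namespace Pool.Agent.RadCP

open Pool.Agent.CycP Pool.Agent.CycP.AnSpace

namespace Mem_

lemma trap_nonneg (N k : ℕ) : 0 ≤ trap N k := le_min zero_le_one (le_max_left _ _)

lemma trap_le (N k : ℕ) : trap N k ≤ 1 := min_le_left _ _

lemma trap_one {N k : ℕ} (hN : 1 ≤ N) (hk : k ≤ N) : trap N k = 1 := by
  unfold trap
  have h1 : (k : ℝ) / N ≤ 1 := by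
    have h2 : (0 : ℝ) < N := by exact_mod_cast hN
    rw [div_le_one h2]
    exact_mod_cast hk
  rw [min_eq_left]
  exact le_max_of_le_right (by linarith)

lemma trap_zero {N k : ℕ} (hN : 1 ≤ N) (hk : 2 * N ≤ k) : trap N k = 0 := by
  unfold trap
  have h1 : 2 ≤ (k : ℝ) / N := by
    have h2 : (0 : ℝ) < N := by exact_mod_cast hN
    rw [le_div_iff₀ h2]
    exact_mod_cast hk
  rw [max_eq_left (by linarith), min_eq_right zero_le_one]

/-- the cut off polynomial -/
noncomputable def cut {d : ℕ} (c : ℕ → MvPolynomial (Fin d) ℂ) (N : ℕ) :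
    MvPolynomial (Fin d) ℂ := ∑ k ∈ range (2 * N), ((trap N k : ℝ) : ℂ) • c k

lemma eval_cut {d : ℕ} (c : ℕ → MvPolynomial (Fin d) ℂ) (N : ℕ) (w : Fin d → ℂ) :
    MvPolynomial.eval w (cut c N) =
      ∑ k ∈ range (2 * N), ((trap N k : ℝ) : ℂ) * MvPolynomial.eval w (c k) := by
  unfold cut
  rw [map_sum]
  refine sum_congr rfl fun k _ => ?_
  rw [MvPolynomial.smul_eval]

lemma homExp_cut {d : ℕ} {Ω : Set (Fin d → ℂ)} {c : ℕ → MvPolynomial (Fin d) ℂ}
    (hc : ∀ k, (c k).IsHomogeneous k) {N : ℕ} (hN : 1 ≤ N) :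
    HomExp Ω (fun w => MvPolynomial.eval w (cut c N)) (fun k => ((trap N k : ℝ) : ℂ) • c k) := by
  refine ⟨fun k => ?_, fun w _ => ?_⟩
  · exact (MvPolynomial.homogeneousSubmodule (Fin d) ℂ k).smul_mem _ (hc k)
  · simp only [MvPolynomial.smul_eval, eval_cut]
    apply hasSum_sum_of_ne_finset_zero
    intro k hk
    rw [mem_range, not_lt] at hk
    rw [trap_zero hN hk]
    simp

lemma tendsto_cut {d : ℕ} {c : ℕ → MvPolynomial (Fin d) ℂ} {w : Fin d → ℂ} {a : ℂ}
    (h : HasSum (fun k => MvPolynomial.eval w (c k)) a) :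
    Tendsto (fun N => MvPolynomial.eval w (cut c N)) atTop (𝓝 a) := by
  have h1 : Tendsto (fun N => ∑' k, ((trap N k : ℝ) : ℂ) * MvPolynomial.eval w (c k)) atTop
      (𝓝 (∑' k, MvPolynomial.eval w (c k))) := by
    refine tendsto_tsum_of_dominated_convergence h.summable.norm (fun k => ?_) ?_
    · refine tendsto_const_nhds.congr' ?_
      filter_upwards [eventually_ge_atTop (max k 1)] with N hN
      rw [trap_one ((le_max_right _ _).trans hN) ((le_max_left _ _).trans hN)]
      simp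
    · refine Eventually.of_forall fun N k => ?_
      rw [norm_mul, Complex.norm_real, Real.norm_of_nonneg (trap_nonneg N k)]
      exact mul_le_of_le_one_left (norm_nonneg _) (trap_le N k)
  rw [h.tsum_eq] at h1
  refine h1.congr' ?_
  filter_upwards [eventually_ge_atTop 1] with N hN
  rw [eval_cut]
  apply tsum_eq_sum
  intro k hk
  rw [mem_range, not_lt] at hk
  rw [trap_zero hN hk]
  simp

end Mem_

open Mem_ in
theorem mem (hcore : CoreStmt) (hcomp : CompStmt) (hprod : ProdStmt) : MemStmt := by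
  intro d Ω hbal Y _ _ _ B hG V _ _ ι β hβ0 hgr hβ C hC hgood h c R hR hexp hcau g x hx
  obtain ⟨-, hsq, -⟩ := hcomp d Ω Y _ _ inferInstance B hG
  obtain ⟨K, κ, hK⟩ := hgr
  choose P hP hP' using fun j => B.comp_mem j g
  have hK0 : 0 ≤ K := by
    have h1 := hK 1 1 le_rfl le_rfl
    have h2 := hβ0 1
    by_contra h3
    rw [not_le] at h3
    simp at h1
    nlinarith
  set p : ℕ → ℕ → V := fun k j => ι (c k * P j) with hp
  have hsys : Sys V p (fun j => ‖ι (P j)‖) β R K κ := by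
    refine ⟨hR, hK0, hβ0, hK, fun M u => ?_⟩
    have h1 := hcau (fun j => ((u j : ℝ) : ℂ) • P j)
      (fun j => (MvPolynomial.homogeneousSubmodule (Fin d) ℂ j).smul_mem _ (hP j)) M
    refine (le_of_eq ?_).trans (h1.trans (le_of_eq ?_))
    · refine sum_congr rfl fun n _ => ?_
      congr 2
      rw [map_sum]
      refine sum_congr rfl fun j _ => ?_
      rw [mul_smul_comm, map_smul, hp, Complex.coe_smul]
    · congr 1
      refine sum_congr rfl fun j _ => ?_
      rw [map_smul, norm_smul, mul_pow, Complex.norm_real, Real.norm_eq_abs, sq_abs]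
  -- norms of components
  have hnorm : ∀ (z : Y) (n : ℕ) (Q : MvPolynomial (Fin d) ℂ), Q.IsHomogeneous n →
      B.comp n z = B.poly Q → β n ^ 2 * ‖ι Q‖ ^ 2 = ‖B.comp n z‖ ^ 2 := by
    intro z n Q hQ hz
    rw [hz, hβ n Q hQ, mul_pow]
  have hhom : ∀ (c' : ℕ → MvPolynomial (Fin d) ℂ), (∀ k, (c' k).IsHomogeneous k) → ∀ n,
      (∑ j ∈ range (n + 1), c' (n - j) * P j).IsHomogeneous n := by
    intro c' hc' n
    refine MvPolynomial.IsHomogeneous.sum _ _ _ fun j hj => ?_
    rw [mem_range] at hj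
    have h1 := (hc' (n - j)).mul (hP j)
    rwa [Nat.sub_add_cancel (by omega)] at h1
  have hAx : ∀ M, ∑ n ∈ range M, β n ^ 2 * ‖∑ j ∈ range (n + 1), p (n - j) j‖ ^ 2 ≤
      ‖x‖ ^ 2 := by
    intro M
    refine le_trans (le_of_eq ?_) (sum_le_hasSum (range M) (fun n _ => by positivity) (hsq x))
    refine sum_congr rfl fun n _ => ?_
    rw [← hnorm x n _ (hhom c hexp.1 n)
      (hprod d Ω hbal Y _ _ inferInstance B hG h c P g x hexp hx hP hP' n), map_sum]
  have hBg : ∀ M, ∑ n ∈ range M, β n ^ 2 * ‖ι (P n)‖ ^ 2 ≤ ‖g‖ ^ 2 := by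
    intro M
    refine le_trans (le_of_eq ?_) (sum_le_hasSum (range M) (fun n _ => by positivity) (hsq g))
    refine sum_congr rfl fun n _ => ?_
    exact hnorm g n _ (hP n) (hP' n).symm
  set D : ℝ := 4 * (‖x‖ ^ 2 + R ^ 2 * (K * 3 ^ κ) ^ 2 * (10 + C) * ‖g‖ ^ 2) with hD
  have hcr := fun N (hN : Good β C N) => hcore V _ _ p (fun j => ‖ι (P j)‖) β R K κ hsys C N hC
    hN (‖x‖ ^ 2) (‖g‖ ^ 2) hAx hBg
  choose MN hMN using fun N => B.exists_mul (cut c N)
  have hy : ∀ N, Good β C N → ‖MN N g‖ ^ 2 ≤ D := by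
    intro N hN
    refine le_of_tendsto' (hsq (MN N g)).tendsto_sum_nat fun M => ?_
    refine le_trans (le_of_eq ?_) (hcr N hN M)
    refine sum_congr rfl fun n _ => ?_
    rw [← hnorm (MN N g) n _ (hhom _ (homExp_cut (Ω := Ω) hexp.1 hN.1).1 n)
      (hprod d Ω hbal Y _ _ inferInstance B hG _ _ P g (MN N g) (homExp_cut hexp.1 hN.1)
        (hMN N g) hP hP' n), map_sum]
    congr 3
    refine sum_congr rfl fun j _ => ?_
    rw [smul_mul_assoc, map_smul, hp, Complex.coe_smul]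
  obtain ⟨φ, hφ, hφg⟩ := extraction_of_frequently_atTop hgood
  obtain ⟨k, hk, tot⟩ := B.exists_kernel
  have hcl : x ∈ (B.orbitSub g).topologicalClosure := by
    refine Pick.weak_mem tot (Submodule.isClosed_topologicalClosure _)
      (x := fun n => MN (φ n) g) (fun n => ?_) (C := √D) (fun n => ?_) fun w => ?_
    · exact Submodule.le_topologicalClosure _ ⟨cut c (φ n), hMN (φ n) g⟩
    · exact Real.le_sqrt_of_sq_le (hy _ (hφg n))
    · have h1 := ((tendsto_cut (hexp.2 w w.2)).comp hφ.tendsto_atTop).mul_const (B.fn g w)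
      rw [hk, hx _ w.2]
      refine h1.congr fun n => ?_
      rw [hk, hMN (φ n) g _ w.2]
      rfl
  exact hcl

end Pool.Agent.RadCP
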