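import Pool.Agent.RadCP.Defs2
import Pool.Agent.RadCP.DAlg

set_option autoImplicit false

/-! Products in spaces with nearly submultiplicative norms of homogeneous polynomials. -/

open Finset

namespace Pool.Agent.RadCP

open Pool.Agent.CycP Pool.Agent.CycP.AnSpace Finset

namespace Sub2_

open DAlg_

lemma summable_succ (β : ℕ → ℝ)
    (hS : Summable (fun n : ℕ => (n : ℝ) / β n ^ 2)) :
    Summable (fun n : ℕ => ((n : ℝ) + 1) / β n ^ 2) := by
  rw [← summable_nat_add_iff 1]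
  have h1 := ((summable_nat_add_iff 1).2 hS).mul_left 2
  refine Summable.of_nonneg_of_le (fun n => by positivity) (fun n => ?_) h1
  rw [← mul_div_assoc]
  refine div_le_div_of_nonneg_right ?_ (sq_nonneg _)
  push_cast
  have : (0 : ℝ) ≤ n := Nat.cast_nonneg n
  linarith

lemma l2 (A β : ℕ → ℝ) (hβ : ∀ n, 0 < β n) (hA0 : ∀ n, 0 ≤ A n)
    (hA : Summable (fun n => (A n * β n) ^ 2))
    (hS : Summable (fun n : ℕ => (n : ℝ) / β n ^ 2)) :
    Summable (fun n : ℕ => √((n : ℝ) + 1) * A n) := by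
  have hs : ∀ n : ℕ, 0 < √((n : ℝ) + 1) := fun n => Real.sqrt_pos.2 (by positivity)
  refine l1 (fun n : ℕ => √((n : ℝ) + 1) * A n) (fun n : ℕ => β n / √((n : ℝ) + 1))
    (fun n => div_pos (hβ n) (hs n)) (fun n => mul_nonneg (hs n).le (hA0 n)) ?_ ?_
  · refine hA.congr fun n => ?_
    have h1 := (hs n).ne'
    congr 1
    field_simp
  · refine (summable_succ β hS).congr fun n => ?_
    rw [div_pow, Real.sq_sqrt (by positivity), inv_div]

/-- the weighted convolution with a loss -/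
lemma conv2 (β A B : ℕ → ℝ) (hβ : ∀ n, 0 < β n) (h : PolyGrowth β)
    (hS : Summable (fun n : ℕ => (n : ℝ) / β n ^ 2)) (hA0 : ∀ n, 0 ≤ A n)
    (hB0 : ∀ n, 0 ≤ B n)
    (hA2 : Summable (fun n => (A n * β n) ^ 2)) (hB2 : Summable (fun n => (B n * β n) ^ 2)) :
    Summable (fun n : ℕ => ((∑ q ∈ antidiagonal n,
      min (√((q.1 : ℝ) + 1)) (√((q.2 : ℝ) + 1)) * (A q.1 * B q.2)) * β n) ^ 2) := by
  obtain ⟨D, hD0, hD⟩ := grow2 β hβ h
  have h1 := young (fun n => A n * β n) (fun n : ℕ => √((n : ℝ) + 1) * B n)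
    (fun n => mul_nonneg (Real.sqrt_nonneg _) (hB0 n)) hA2 (l2 B β hβ hB0 hB2 hS)
  have h2 := young (fun n => B n * β n) (fun n : ℕ => √((n : ℝ) + 1) * A n)
    (fun n => mul_nonneg (Real.sqrt_nonneg _) (hA0 n)) hB2 (l2 A β hβ hA0 hA2 hS)
  refine Summable.of_nonneg_of_le (fun n => sq_nonneg _) (fun n => ?_)
    ((h1.add h2).mul_left (2 * D ^ 2))
  have hw0 : ∀ q : ℕ × ℕ, 0 ≤ min (√((q.1 : ℝ) + 1)) (√((q.2 : ℝ) + 1)) := fun q =>
    le_min (Real.sqrt_nonneg _) (Real.sqrt_nonneg _)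
  have h3 : (∑ q ∈ antidiagonal n,
      min (√((q.1 : ℝ) + 1)) (√((q.2 : ℝ) + 1)) * (A q.1 * B q.2)) * β n ≤
      D * ((∑ q ∈ antidiagonal n, A q.1 * β q.1 * (√((q.2 : ℝ) + 1) * B q.2)) +
        ∑ q ∈ antidiagonal n, B q.1 * β q.1 * (√((q.2 : ℝ) + 1) * A q.2)) := by
    rw [← Finset.Nat.sum_antidiagonal_swap
        (f := fun q : ℕ × ℕ => B q.1 * β q.1 * (√((q.2 : ℝ) + 1) * A q.2)),
      ← sum_add_distrib, mul_sum, sum_mul]
    refine sum_le_sum fun q hq => ?_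
    have hn : q.1 + q.2 = n := by simpa using hq
    have h4 := hD q.1 q.2
    rw [hn] at h4
    simp only [Prod.fst_swap, Prod.snd_swap]
    set w := min (√((q.1 : ℝ) + 1)) (√((q.2 : ℝ) + 1)) with hw
    have hwn : 0 ≤ w := hw0 q
    have hw1 : w ≤ √((q.1 : ℝ) + 1) := min_le_left _ _
    have hw2 : w ≤ √((q.2 : ℝ) + 1) := min_le_right _ _
    have h5 : 0 ≤ w * (A q.1 * B q.2) := mul_nonneg hwn (mul_nonneg (hA0 _) (hB0 _))
    have h6 : w * (A q.1 * β q.1 * B q.2) ≤ √((q.2 : ℝ) + 1) * (A q.1 * β q.1 * B q.2) :=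
      mul_le_mul_of_nonneg_right hw2
        (mul_nonneg (mul_nonneg (hA0 _) (hβ _).le) (hB0 _))
    have h7 : w * (B q.2 * β q.2 * A q.1) ≤ √((q.1 : ℝ) + 1) * (B q.2 * β q.2 * A q.1) :=
      mul_le_mul_of_nonneg_right hw1
        (mul_nonneg (mul_nonneg (hB0 _) (hβ _).le) (hA0 _))
    calc w * (A q.1 * B q.2) * β n ≤ w * (A q.1 * B q.2) * (D * (β q.1 + β q.2)) :=
          mul_le_mul_of_nonneg_left h4 h5
      _ = D * (w * (A q.1 * β q.1 * B q.2) + w * (B q.2 * β q.2 * A q.1)) := by ring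
      _ ≤ D * (√((q.2 : ℝ) + 1) * (A q.1 * β q.1 * B q.2) +
          √((q.1 : ℝ) + 1) * (B q.2 * β q.2 * A q.1)) :=
          mul_le_mul_of_nonneg_left (add_le_add h6 h7) hD0
      _ = _ := by ring
  have h0 : 0 ≤ (∑ q ∈ antidiagonal n,
      min (√((q.1 : ℝ) + 1)) (√((q.2 : ℝ) + 1)) * (A q.1 * B q.2)) * β n :=
    mul_nonneg (sum_nonneg fun q _ => mul_nonneg (hw0 q) (mul_nonneg (hA0 _) (hB0 _))) (hβ n).le
  refine (pow_le_pow_left₀ h0 h3 2).trans ?_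
  rw [mul_pow]
  have h6 : ∀ s t : ℝ, (s + t) ^ 2 ≤ 2 * (s ^ 2 + t ^ 2) := fun s t => by
    nlinarith [sq_nonneg (s - t)]
  have h7 := mul_le_mul_of_nonneg_left (h6
    (∑ q ∈ antidiagonal n, A q.1 * β q.1 * (√((q.2 : ℝ) + 1) * B q.2))
    (∑ q ∈ antidiagonal n, B q.1 * β q.1 * (√((q.2 : ℝ) + 1) * A q.2))) (sq_nonneg D)
  linarith

end Sub2_

open DAlg_ Sub2_ in
/-- closure under products -/
theorem sub2 (h1 : CompStmt) : Sub2Stmt := by
  intro d Ω Y _ _ _ B hG V _ _ ι β hβ0 hgr hβ hS C hC x y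
  obtain ⟨hc1, hc2, hc3⟩ := h1 d Ω Y _ _ inferInstance B hG
  choose P hP hP' using fun n => B.comp_mem n x
  choose Q hQ hQ' using fun n => B.comp_mem n y
  have hsq : ∀ (u : Y) (P : ℕ → MvPolynomial (Fin d) ℂ), (∀ n, (P n).IsHomogeneous n) →
      (∀ n, B.poly (P n) = B.comp n u) → Summable (fun n => (‖ι (P n)‖ * β n) ^ 2) := by
    intro u P hP hP'
    refine (hc2 u).summable.congr fun n => ?_
    rw [← hP', hβ n _ (hP n), mul_comm]
  have hh : ∀ n, (∑ q ∈ antidiagonal n, P q.1 * Q q.2).IsHomogeneous n := by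
    intro n
    refine MvPolynomial.IsHomogeneous.sum _ _ _ fun q hq => ?_
    have hn : q.1 + q.2 = n := by simpa using hq
    rw [← hn]
    exact (hP q.1).mul (hQ q.2)
  have hCC : ∀ q : ℕ × ℕ, ‖ι (P q.1 * Q q.2)‖ ≤ |C| *
      (min (√((q.1 : ℝ) + 1)) (√((q.2 : ℝ) + 1)) * (‖ι (P q.1)‖ * ‖ι (Q q.2)‖)) := by
    intro q
    have e0 : 0 ≤ ‖ι (P q.1)‖ * ‖ι (Q q.2)‖ := mul_nonneg (norm_nonneg _) (norm_nonneg _)
    have e1 := hC q.1 q.2 (P q.1) (Q q.2) (hP _) (hQ _)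
    have e2 := hC q.2 q.1 (Q q.2) (P q.1) (hQ _) (hP _)
    rw [mul_comm (Q q.2) (P q.1), mul_comm ‖ι (Q q.2)‖ ‖ι (P q.1)‖] at e2
    have e3 : ∀ a : ℝ, C * √a * (‖ι (P q.1)‖ * ‖ι (Q q.2)‖) ≤
        |C| * (√a * (‖ι (P q.1)‖ * ‖ι (Q q.2)‖)) := by
      intro a
      rw [mul_assoc]
      exact mul_le_mul_of_nonneg_right (le_abs_self C) (mul_nonneg (Real.sqrt_nonneg _) e0)
    rcases min_cases (√((q.1 : ℝ) + 1)) (√((q.2 : ℝ) + 1)) with h | h
    · rw [h.1]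
      exact e1.trans (e3 _)
    · rw [h.1]
      exact e2.trans (e3 _)
  have hcs : Summable (fun n => ‖B.poly (∑ q ∈ antidiagonal n, P q.1 * Q q.2)‖ ^ 2) := by
    have h2 := conv2 β (fun n => ‖ι (P n)‖) (fun n => ‖ι (Q n)‖) hβ0 hgr hS
      (fun n => norm_nonneg _) (fun n => norm_nonneg _) (hsq x P hP hP') (hsq y Q hQ hQ')
    refine Summable.of_nonneg_of_le (fun n => sq_nonneg _) (fun n => ?_) (h2.mul_left (|C| ^ 2))
    rw [hβ n _ (hh n), mul_comm (β n), mul_pow, mul_pow, ← mul_assoc]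
    refine mul_le_mul_of_nonneg_right ?_ (sq_nonneg _)
    rw [← mul_pow]
    refine pow_le_pow_left₀ (norm_nonneg _) ?_ 2
    rw [map_sum, mul_sum]
    exact (norm_sum_le _ _).trans (sum_le_sum fun q _ => hCC q)
  obtain ⟨z, hz⟩ := hc3 _ (fun n => mem_hom.2 ⟨_, hh n, rfl⟩) hcs
  refine ⟨z, fun w hw => ?_⟩
  obtain ⟨L, hL, -⟩ := B.exists_eval hw
  have hser : ∀ (u : Y) (P : ℕ → MvPolynomial (Fin d) ℂ), (∀ n, B.comp n u = B.poly (P n)) →
      HasSum (fun n => MvPolynomial.eval w (P n)) (B.fn u w) := by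
    intro u P hP
    have h2 := (hc1 u).mapL L
    rw [hL] at h2
    have h3 : (fun n => MvPolynomial.eval w (P n)) = fun n => L (B.comp n u) := by
      funext n
      rw [hP, hL, B.fn_poly _ w hw]
    rw [h3]
    exact h2
  have hx := hser x P fun n => (hP' n).symm
  have hy := hser y Q fun n => (hQ' n).symm
  have hzz := hser z _ hz
  rw [← hx.tsum_eq, ← hy.tsum_eq, ← hzz.tsum_eq,
    tsum_mul_tsum_eq_tsum_sum_antidiagonal_of_summable_norm hx.summable.norm hy.summable.norm]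
  refine tsum_congr fun n => ?_
  rw [map_sum]
  refine sum_congr rfl fun q _ => ?_
  rw [map_mul]

end Pool.Agent.RadCP
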